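import Mathlib

/-!
JOB SM-10. Algebraic independence from derivations.

Suppose `P ≠ 0` of minimal total degree with `aeval ![x, y] P = 0`. For a derivation `D` that vanishes on `C`: `0 = D (aeval ![x, y] P) = aeval (pderiv 0 P) * D x + aeval (pderiv 1 P) * D y` (induction on `P`; see `deriv_ev` in
`Pool/Agent/H6/IvA/Deriv.lean`). By the determinant both `aeval (pderiv i P)` vanish; `pderiv i P` has smaller total degree or is zero, so both are `0` by minimality; in characteristic 0 then `P` is a constant, a contradiction.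
-/

set_option autoImplicit false

namespace Pool.Agent.H6.Sm

theorem ai_chain {F : Type} [Field F] (C : Subfield F) (δ : Derivation ℤ F F)
    (h : ∀ c ∈ C, δ c = 0) (x y : F) (P : MvPolynomial (Fin 2) C) :
    δ (MvPolynomial.aeval ![x, y] P) =
      MvPolynomial.aeval ![x, y] (MvPolynomial.pderiv 0 P) * δ x +
        MvPolynomial.aeval ![x, y] (MvPolynomial.pderiv 1 P) * δ y := by
  induction P using MvPolynomial.induction_on with
  | C c =>
    rw [MvPolynomial.aeval_C, MvPolynomial.pderiv_C, MvPolynomial.pderiv_C, map_zero]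
    have : δ (algebraMap C F c) = 0 := h _ c.2
    rw [this]; ring
  | add p q hp hq =>
    rw [map_add, map_add, hp, hq, map_add, map_add, map_add, map_add]; ring
  | mul_X p i hp =>
    rw [map_mul, Derivation.leibniz, hp, MvPolynomial.pderiv_mul, MvPolynomial.pderiv_mul, map_add,
      map_mul, map_add, map_mul, map_mul, map_mul, MvPolynomial.aeval_X, smul_eq_mul, smul_eq_mul]
    fin_cases i
    · simp [MvPolynomial.pderiv_X]; ring
    · simp [MvPolynomial.pderiv_X]; ring

theorem ai_zero {F : Type} [Field F] [CharZero F] (C : Subfield F)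
    (δ0 δ1 : Derivation ℤ F F) (h0 : ∀ c ∈ C, δ0 c = 0) (h1 : ∀ c ∈ C, δ1 c = 0) {x y : F}
    (hdet : δ0 x * δ1 y - δ0 y * δ1 x ≠ 0) (N : ℕ) :
    ∀ P : MvPolynomial (Fin 2) C, (∀ m : Fin 2 →₀ ℕ, N < m 0 + m 1 → MvPolynomial.coeff m P = 0) →
      MvPolynomial.aeval ![x, y] P = 0 → P = 0 := by
  -- once both partial derivatives vanish and `P` vanishes at the point, `P = 0`
  have key : ∀ P : MvPolynomial (Fin 2) C, (∀ m : Fin 2 →₀ ℕ, m ≠ 0 → MvPolynomial.coeff m P = 0) →
      MvPolynomial.aeval ![x, y] P = 0 → P = 0 := by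
    intro P hP hz
    have hC : P = MvPolynomial.C (MvPolynomial.coeff 0 P) := by
      ext m
      by_cases hm : m = 0
      · subst hm; simp
      · rw [hP m hm, MvPolynomial.coeff_C, if_neg (Ne.symm hm)]
    rw [hC, MvPolynomial.aeval_C] at hz
    have : MvPolynomial.coeff 0 P = 0 := by
      have hinj : Function.Injective (algebraMap C F) := (algebraMap C F).injective
      exact hinj (by rw [hz, map_zero])
    rw [hC, this, map_zero]
  have hne : ∀ m : Fin 2 →₀ ℕ, m ≠ 0 → 0 < m 0 + m 1 := by
    intro m hm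
    by_contra h
    apply hm
    ext i
    fin_cases i
    · simp; omega
    · simp; omega
  induction N with
  | zero =>
    intro P hP hz
    exact key P (fun m hm => hP m (hne m hm)) hz
  | succ N ih =>
    intro P hP hz
    have e0 := ai_chain C δ0 h0 x y P
    have e1 := ai_chain C δ1 h1 x y P
    rw [hz, map_zero] at e0 e1
    have z0 : MvPolynomial.aeval ![x, y] (MvPolynomial.pderiv 0 P) = 0 := by
      have : MvPolynomial.aeval ![x, y] (MvPolynomial.pderiv 0 P) *
          (δ0 x * δ1 y - δ0 y * δ1 x) = 0 := by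
        linear_combination (-(δ1 y)) * e0 + (δ0 y) * e1
      exact (mul_eq_zero.1 this).resolve_right hdet
    have z1 : MvPolynomial.aeval ![x, y] (MvPolynomial.pderiv 1 P) = 0 := by
      have : MvPolynomial.aeval ![x, y] (MvPolynomial.pderiv 1 P) *
          (δ0 x * δ1 y - δ0 y * δ1 x) = 0 := by
        linear_combination (δ1 x) * e0 + (-(δ0 x)) * e1
      exact (mul_eq_zero.1 this).resolve_right hdet
    have hs : ∀ (m : Fin 2 →₀ ℕ) (i : Fin 2), (m + Finsupp.single i 1 : Fin 2 →₀ ℕ) 0 +
        (m + Finsupp.single i 1 : Fin 2 →₀ ℕ) 1 = m 0 + m 1 + 1 := by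
      intro m i
      fin_cases i
      · simp; ring
      · simp; ring
    have d : ∀ i : Fin 2, MvPolynomial.aeval ![x, y] (MvPolynomial.pderiv i P) = 0 →
        MvPolynomial.pderiv i P = 0 := by
      intro i hi
      refine ih _ ?_ hi
      intro m hm
      rw [MvPolynomial.coeff_pderiv, hP _ (by rw [hs]; omega), zero_mul]
    have p0 := d 0 z0
    have p1 := d 1 z1
    have pp : ∀ i : Fin 2, MvPolynomial.pderiv i P = 0 := by
      intro i
      fin_cases i
      · exact p0
      · exact p1
    refine key P ?_ hz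
    intro m hm
    obtain ⟨i, hi⟩ : ∃ i, m i ≠ 0 := by
      by_contra h
      apply hm
      ext i
      by_contra h'
      exact h ⟨i, h'⟩
    have hm' : (m - Finsupp.single i 1) + Finsupp.single i 1 = m := by
      ext j
      by_cases hj : j = i
      · subst hj
        simp
        omega
      · simp [Ne.symm hj]
    have hc := MvPolynomial.coeff_pderiv (i := i) P (m - Finsupp.single i 1)
    rw [pp i, hm', MvPolynomial.coeff_zero] at hc
    have hch : CharZero C := inferInstance
    exact (mul_eq_zero.1 hc.symm).resolve_right (Nat.cast_add_one_ne_zero _)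

theorem algIndep_of_der {F : Type} [Field F] [CharZero F] (C : Subfield F)
    (δ0 δ1 : Derivation ℤ F F) (h0 : ∀ c ∈ C, δ0 c = 0) (h1 : ∀ c ∈ C, δ1 c = 0) {x y : F}
    (hdet : δ0 x * δ1 y - δ0 y * δ1 x ≠ 0) : AlgebraicIndependent C ![x, y] := by
  rw [algebraicIndependent_iff]
  intro P hz
  refine ai_zero C δ0 δ1 h0 h1 hdet P.totalDegree P ?_ hz
  intro m hm
  apply MvPolynomial.coeff_eq_zero_of_totalDegree_lt
  refine lt_of_lt_of_le hm ?_
  have : m.degree = m 0 + m 1 := by
    rw [Finsupp.degree_eq_sum]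
    simp [Fin.sum_univ_two]
  exact this.ge

end Pool.Agent.H6.Sm
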