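import Mathlib

/-!
Families of billiard orbits over a field with derivations: states, bounces, three mirrors. Definitions.
-/

set_option autoImplicit false

namespace Pool.Agent.H6.Sm

/-- the point `(X, Y)` and the direction `(v, w)` -/
structure Stt (F : Type) where
  X : F
  Y : F
  v : F
  w : F

section field

variable {F : Type} [Field F] [LinearOrder F] [IsStrictOrderedRing F]

/-- tangential displacement -/
def cD (D : Derivation ℤ F F) (S : Stt F) : F := S.v * D S.X + S.w * D S.Y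

/-- normal displacement -/
def jD (D : Derivation ℤ F F) (S : Stt F) : F := S.v * D S.Y - S.w * D S.X

/-- rotation of the direction -/
def oD (D : Derivation ℤ F F) (S : Stt F) : F := S.v * D S.w - S.w * D S.v

/-- a flight of length `t` from `S` and a reflection; `a`, `b` are sine and cosine of the angle with the mirror, `k` is the
curvature of the mirror, `jD D S' / a` is the speed of the reflection point along the mirror -/
structure Bnc (Adm : Derivation ℤ F F → Prop) (S : Stt F) (t a b k : F) (S' : Stt F) : Prop where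
  sq : a ^ 2 + b ^ 2 = 1
  a0 : a ≠ 0
  t0 : 0 < t
  e1 : ∀ D, Adm D → cD D S + D t = b * (jD D S' / a)
  e2 : ∀ D, Adm D → jD D S + t * oD D S = -jD D S'
  e3 : ∀ D, Adm D → cD D S' = b * (jD D S' / a)
  e4 : ∀ D, Adm D → oD D S' = 2 * k * (jD D S' / a) - oD D S
  e5 : ∀ D, Adm D → D b = -a * (oD D S - k * (jD D S' / a))
  e6 : ∀ D, Adm D → D a = b * (oD D S - k * (jD D S' / a))
  e7 : ∃ k' : F, ∀ D, Adm D → D k = k' * (jD D S' / a)

/-- a flight of total length `l` with flat reflections (at both ends: states after a reflection); `σ = ± 1` -/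
structure Seg (Adm : Derivation ℤ F F → Prop) (S : Stt F) (l σ : F) (S' : Stt F) : Prop where
  sg : σ ^ 2 = 1
  l0 : 0 ≤ l
  e1 : ∀ D, Adm D → cD D S' = cD D S + D l
  e2 : ∀ D, Adm D → jD D S' = σ * (jD D S + l * oD D S)
  e3 : ∀ D, Adm D → oD D S' = σ * oD D S

/-- a flight of total length `l` with flat reflections, and then a reflection as in `Bnc` -/
structure Arr (Adm : Derivation ℤ F F → Prop) (S : Stt F) (l σ a b k : F) (S' : Stt F) : Prop where
  sg : σ ^ 2 = 1
  sq : a ^ 2 + b ^ 2 = 1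
  a0 : a ≠ 0
  l0 : 0 < l
  e1 : ∀ D, Adm D → cD D S + D l = b * (jD D S' / a)
  e2 : ∀ D, Adm D → σ * (jD D S + l * oD D S) = -jD D S'
  e3 : ∀ D, Adm D → cD D S' = b * (jD D S' / a)
  e4 : ∀ D, Adm D → oD D S' = 2 * k * (jD D S' / a) - σ * oD D S
  e5 : ∀ D, Adm D → D b = -a * (σ * oD D S - k * (jD D S' / a))
  e6 : ∀ D, Adm D → D a = b * (σ * oD D S - k * (jD D S' / a))
  e7 : ∃ k' : F, ∀ D, Adm D → D k = k' * (jD D S' / a)

/-- closed under linear combinations -/
def Comb (Adm : Derivation ℤ F F → Prop) : Prop :=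
  ∀ (f g : F) (D D' : Derivation ℤ F F), Adm D → Adm D' → Adm (f • D + g • D')

/-- displacement and rotation are independent -/
def Ind (Adm : Derivation ℤ F F → Prop) (S : Stt F) : Prop :=
  (∃ D, Adm D ∧ jD D S = 0 ∧ oD D S = 1) ∧ (∃ D, Adm D ∧ jD D S = 1 ∧ oD D S = 0)

/-- the differential system of a two-parameter family of closed orbits with three curved mirrors: `l0, l1, l2` are the
(unfolded) distances between the mirrors `0 - 1 - 2 - 0`, `c0, c1, c2` the cotangents of the angles with the mirrors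
(with signs), `e = ± 1`; the derivation `δ0` fixes the point on the mirror `0`, `δ1` the point on the mirror `1` -/
structure Tri (e l0 l1 l2 c0 c1 c2 : F) (δ0 δ1 : Derivation ℤ F F) : Prop where
  p0 : 0 < l0
  p1 : 0 < l1
  p2 : 0 < l2
  a0 : δ0 l0 = -l0 * c1
  a1 : δ0 l1 = l0 * c1 + l2 * c2
  a2 : δ0 l2 = -l2 * c2
  a3 : δ0 c0 = 1 + c0 ^ 2
  a4 : δ0 c1 = -(1 + c1 ^ 2) * (l1 - l0 + e * l2) / (2 * l1)
  a5 : δ0 c2 = -(1 + c2 ^ 2) * (l1 - l2 + e * l0) / (2 * l1)
  b0 : δ1 l0 = -l0 * c0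
  b1 : δ1 l1 = -e * l1 * c2
  b2 : δ1 l2 = l0 * c0 + e * l1 * c2
  b3 : δ1 c0 = -(1 + c0 ^ 2) * (l2 - l0 + e * l1) / (2 * l2)
  b4 : δ1 c1 = 1 + c1 ^ 2
  b5 : δ1 c2 = -e * (1 + c2 ^ 2) * (l2 - l1 + e * l0) / (2 * l2)
  rel : c0 * (e * l1 - l0 - l2) = (e + 1) * (l0 * c1 + l2 * c2) + (e * l1 - l0 - l2) * (c1 + c2)

end field

end Pool.Agent.H6.Sm
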