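import Pool.Agent.H6.Sm.Bnc

/-!
JOB SM-6. Algebra of one bounce.

`T = (T1, T2)` unit tangent, `a = w T1 - v T2`, `b = v T1 + w T2` (sine and cosine of the angle from the mirror to the incoming direction). For a derivation `D` with `D X' = T1 p`, `D Y' = T2 p`, `D T1 = - k p T2`, `D T2 = k p T1`:
* `D (v ^ 2 + w ^ 2) = 0`, so `v D v + w D w = 0`, hence `D v = - w o`, `D w = v o` with `o = oD D S`; `cD D S + D t = v D X' + w D Y' = b p`, `jD D S + t o = v D Y' - w D X' = - a p`;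
* the outgoing direction is `v' = T1 b + T2 a`, `w' = T2 b - T1 a`, so `cD D S' = b p`, `jD D S' = a p` (so `p = jD D S' / a`);
* `D b = - a (o - k p)`, `D a = b (o - k p)`, `oD D S' = v' D w' - w' D v' = 2 k p - o`.
All are `linear_combination`s.
-/

set_option autoImplicit false

namespace Pool.Agent.H6.Sm

variable {F : Type} [Field F] [LinearOrder F] [IsStrictOrderedRing F]

omit [LinearOrder F] [IsStrictOrderedRing F] in
theorem bncA_two (D : Derivation ℤ F F) : D (2 : F) = 0 := by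
  have h := D.map_natCast 2
  simpa using h

theorem bnc_of {Adm : Derivation ℤ F F → Prop} {S S' : Stt F} {t T1 T2 k : F}
    (hS : S.v ^ 2 + S.w ^ 2 = 1) (hT : T1 ^ 2 + T2 ^ 2 = 1)
    (hX : S'.X = S.X + t * S.v) (hY : S'.Y = S.Y + t * S.w)
    (hv : S'.v = (T1 ^ 2 - T2 ^ 2) * S.v + 2 * T1 * T2 * S.w)
    (hw : S'.w = 2 * T1 * T2 * S.v - (T1 ^ 2 - T2 ^ 2) * S.w)
    (ht : 0 < t) (ha : S.w * T1 - S.v * T2 ≠ 0)
    (hp : ∃ k' : F, ∀ D, Adm D → ∃ p : F, D S'.X = T1 * p ∧ D S'.Y = T2 * p ∧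
      D T1 = -k * p * T2 ∧ D T2 = k * p * T1 ∧ D k = k' * p) :
    Bnc Adm S t (S.w * T1 - S.v * T2) (S.v * T1 + S.w * T2) k S' := by
  obtain ⟨k', hk'⟩ := hp
  -- the derivative of the norm
  have hSD : ∀ D : Derivation ℤ F F, S.v * D S.v + S.w * D S.w = 0 := by
    intro D
    have h1 := congrArg D hS
    simp only [pow_two, map_add, Derivation.leibniz, smul_eq_mul, Derivation.map_one_eq_zero] at h1
    linarith
  have hDv : ∀ D : Derivation ℤ F F, D S.v = -(S.w * oD D S) := by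
    intro D
    unfold oD
    linear_combination (-D S.v) * hS + S.v * hSD D
  have hDw : ∀ D : Derivation ℤ F F, D S.w = S.v * oD D S := by
    intro D
    unfold oD
    linear_combination (-D S.w) * hS + S.w * hSD D
  -- displacement after the bounce
  have hj : ∀ (D : Derivation ℤ F F) (p : F), D S'.X = T1 * p → D S'.Y = T2 * p →
      jD D S' = (S.w * T1 - S.v * T2) * p := by
    intro D p h1 h2
    unfold jD
    rw [h1, h2, hv, hw]
    linear_combination (S.w * T1 * p - S.v * T2 * p) * hT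
  have hjp : ∀ (D : Derivation ℤ F F) (p : F), D S'.X = T1 * p → D S'.Y = T2 * p →
      jD D S' / (S.w * T1 - S.v * T2) = p := by
    intro D p h1 h2
    rw [hj D p h1 h2, mul_div_cancel_left₀ p ha]
  have hDX : ∀ D : Derivation ℤ F F, D S'.X = D S.X + (t * D S.v + S.v * D t) := by
    intro D
    rw [hX]
    simp only [map_add, Derivation.leibniz, smul_eq_mul]
  have hDY : ∀ D : Derivation ℤ F F, D S'.Y = D S.Y + (t * D S.w + S.w * D t) := by
    intro D
    rw [hY]
    simp only [map_add, Derivation.leibniz, smul_eq_mul]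
  refine ⟨?_, ha, ht, ?_, ?_, ?_, ?_, ?_, ?_, ?_⟩
  · linear_combination (T1 ^ 2 + T2 ^ 2) * hS + hT
  · intro D hD
    obtain ⟨p, p1, p2, p3, p4, p5⟩ := hk' D hD
    rw [hjp D p p1 p2]
    have q1 := hDX D
    have q2 := hDY D
    rw [p1] at q1
    rw [p2] at q2
    unfold cD
    linear_combination (-S.v) * q1 + (-S.w) * q2 - t * hSD D + (-D t) * hS
  · intro D hD
    obtain ⟨p, p1, p2, p3, p4, p5⟩ := hk' D hD
    rw [hj D p p1 p2]
    have q1 := hDX D
    have q2 := hDY D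
    rw [p1] at q1
    rw [p2] at q2
    unfold jD oD
    linear_combination (S.w) * q1 - (S.v) * q2
  · intro D hD
    obtain ⟨p, p1, p2, p3, p4, p5⟩ := hk' D hD
    rw [hjp D p p1 p2]
    unfold cD
    rw [p1, p2, hv, hw]
    linear_combination (S.v * T1 * p + S.w * T2 * p) * hT
  · intro D hD
    obtain ⟨p, p1, p2, p3, p4, p5⟩ := hk' D hD
    rw [hjp D p p1 p2]
    have hv' : D S'.v = (2 * T1 * D T1 - 2 * T2 * D T2) * S.v + (T1 ^ 2 - T2 ^ 2) * D S.v +
        2 * (D T1 * T2 + T1 * D T2) * S.w + 2 * T1 * T2 * D S.w := by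
      rw [hv]
      simp only [pow_two, map_add, map_sub, Derivation.leibniz, smul_eq_mul, bncA_two]
      ring
    have hw' : D S'.w = 2 * (D T1 * T2 + T1 * D T2) * S.v + 2 * T1 * T2 * D S.v -
        (2 * T1 * D T1 - 2 * T2 * D T2) * S.w - (T1 ^ 2 - T2 ^ 2) * D S.w := by
      rw [hw]
      simp only [pow_two, map_sub, Derivation.leibniz, smul_eq_mul, bncA_two]
      ring
    have e : oD D S' = S'.v * D S'.w - S'.w * D S'.v := rfl
    rw [e, hv', hw', hv, hw, p3, p4, hDv D, hDw D]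
    have key : (T1 ^ 2 + T2 ^ 2) ^ 2 = 1 := by rw [hT]; ring
    have key3 : (T1 ^ 2 + T2 ^ 2) ^ 2 * (S.v ^ 2 + S.w ^ 2) = 1 := by rw [hT, hS]; ring
    linear_combination (2 * k * p - oD D S) * key3
  · intro D hD
    obtain ⟨p, p1, p2, p3, p4, p5⟩ := hk' D hD
    rw [hjp D p p1 p2]
    simp only [map_add, Derivation.leibniz, smul_eq_mul]
    rw [p3, p4, hDv D, hDw D]
    ring
  · intro D hD
    obtain ⟨p, p1, p2, p3, p4, p5⟩ := hk' D hD
    rw [hjp D p p1 p2]
    simp only [map_sub, Derivation.leibniz, smul_eq_mul]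
    rw [p3, p4, hDv D, hDw D]
    ring
  · refine ⟨k', ?_⟩
    intro D hD
    obtain ⟨p, p1, p2, p3, p4, p5⟩ := hk' D hD
    rw [hjp D p p1 p2]
    exact p5

end Pool.Agent.H6.Sm
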