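import Pool.Agent.H6.Sm.Defs

/-!
JOB SM-3. The chain rule for functions of one real variable.

`CR.of_dd`: `fderiv ℝ (f ∘ s) x e = deriv f (s x) * fderiv ℝ s x e` at every point where `s` is smooth and `f` is smooth at `s x` (`HasDerivAt.comp_hasFDerivAt` or `fderiv_comp_deriv`...), then `sg_eq`, `sg_mul`.
`CR.comb`: the values of `φ • D + ψ • D'` (`Derivation.coe_add`, `Derivation.smul_apply`), linear combination.
-/

set_option autoImplicit false

namespace Pool.Agent.H6.Sm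

open Filter MeasureTheory Topology ComplexConjugate

variable {U : Ultrafilter (ℝ × ℝ)}

/-- derivations that satisfy the chain rule for functions of one real variable -/
def CR (U : Ultrafilter (ℝ × ℝ)) (D : Derivation ℤ (SF ℝ U) (SF ℝ U)) : Prop :=
  ∀ (f : ℝ → ℝ) (s : ℝ × ℝ → ℝ) (hs : ∀ᶠ x in (U : Filter (ℝ × ℝ)), Smo s x)
    (_ : ∀ᶠ x in (U : Filter (ℝ × ℝ)), ContDiffAt ℝ ((⊤ : ℕ∞) : WithTop ℕ∞) f (s x))
    (h1 : ∀ᶠ x in (U : Filter (ℝ × ℝ)), Smo (fun y => f (s y)) x)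
    (h2 : ∀ᶠ x in (U : Filter (ℝ × ℝ)), Smo (fun y => deriv f (s y)) x),
    D (sg U (fun y => f (s y)) h1) = sg U (fun y => deriv f (s y)) h2 * D (sg U s hs)

theorem CR.of_dd {D : Derivation ℤ (SF ℝ U) (SF ℝ U)} {e : ℝ × ℝ}
    (hD : ∀ (f : ℝ × ℝ → ℝ) (hf : ∀ᶠ x in (U : Filter (ℝ × ℝ)), Smo f x)
      (h : ∀ᶠ x in (U : Filter (ℝ × ℝ)), Smo (fun y => fderiv ℝ f y e) x),
      D (sg U f hf) = sg U (fun y => fderiv ℝ f y e) h) : CR U D := by
  intro f s hs hf h1 h2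
  have h3 : ∀ᶠ x in (U : Filter (ℝ × ℝ)), Smo (fun y => fderiv ℝ (fun y => f (s y)) y e) x := by
    filter_upwards [h1] with x hx using hx.fderiv e
  have h4 : ∀ᶠ x in (U : Filter (ℝ × ℝ)), Smo (fun y => fderiv ℝ s y e) x := by
    filter_upwards [hs] with x hx using hx.fderiv e
  have h5 : ∀ᶠ x in (U : Filter (ℝ × ℝ)),
      Smo (fun y => deriv f (s y) * fderiv ℝ s y e) x := by
    filter_upwards [h2, h4] with x hx hx' using hx.mul hx'
  rw [hD _ h1 h3, hD s hs h4, sg_mul U h2 h4 h5, sg_eq]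
  filter_upwards [hs, hf] with x hx hx'
  have h6 : HasDerivAt f (deriv f (s x)) (s x) :=
    (hx'.differentiableAt (by simp)).hasDerivAt
  have h7 : HasFDerivAt s (fderiv ℝ s x) x :=
    (ContDiffAt.differentiableAt hx (by simp)).hasFDerivAt
  have h8 := (h6.comp_hasFDerivAt x h7).fderiv
  change fderiv ℝ (f ∘ s) x e = _
  rw [h8]
  rfl

theorem CR.comb {D D' : Derivation ℤ (SF ℝ U) (SF ℝ U)} (h : CR U D) (h' : CR U D')
    (φ ψ : SF ℝ U) : CR U (φ • D + ψ • D') := by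
  intro f s hs hf h1 h2
  rw [Derivation.add_apply, Derivation.smul_apply, Derivation.smul_apply,
    Derivation.add_apply, Derivation.smul_apply, Derivation.smul_apply,
    h f s hs hf h1 h2, h' f s hs hf h1 h2]
  simp only [smul_eq_mul]
  ring

end Pool.Agent.H6.Sm
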