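import Pool.Agent.H6.Sm.BncA
import Pool.Agent.H6.Sm.Chain

/-!
JOB SM-7. One bounce of a smooth family of orbits, over the field of germs.

`stt U P V`: the real and imaginary parts. `exists_bnc`: use `bnc_of` with `T = γ' / ‖γ'‖` at `s x` (real and imaginary part `f1, f2 : ℝ → ℝ`, smooth at `s x ∈ (0, 1)` since `deriv γ (s x) ≠ 0`),
`k = κ(s) / ‖γ'(s)‖`, `κ = (deriv T * conj T).im`, `p = ‖γ'(s)‖ * D s`, `k' = k'(s)/‖γ'(s)‖`-type germ: `D k = (deriv of the function σ ↦ κ σ / ‖γ' σ‖ at s) * D s` (chain rule `CR` for the real functions `re γ, im γ, f1, f2, k`).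
`T` has norm 1 on `(0, 1)`, so `deriv T = i κ T` there (differentiate `T * conj T = 1`): `deriv f1 = - κ f2`, `deriv f2 = κ f1`.
`t = ((γ (s y) - P y) * conj (V y)).re`; near `U`-almost every `x` one has `γ (s y) = P y + t y * V y` (imaginary part `0`, `‖V y‖ = 1`).
`V' = γ'/conj γ' * conj V = T ^ 2 * conj V`. `a = (V * conj T).im`; it is nonzero because `Step.trans`. Functions of `s` are smooth at `x` because `s` is (`ContDiffAt.comp`).
If the arc satisfies `A x + B y = C` on `(0, 1)` then `(deriv γ)` is orthogonal to `(A, B)` on `(0,1)`, so `T` is locally constant and `κ = 0` there, so `k = 0`.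
-/

set_option autoImplicit false

namespace Pool.Agent.H6.Sm

open Filter MeasureTheory Topology ComplexConjugate

variable {U : Ultrafilter (ℝ × ℝ)}

theorem Smo.re {P : ℝ × ℝ → ℂ} {x : ℝ × ℝ} (h : Smo P x) : Smo (fun y => (P y).re) x :=
  Complex.reCLM.contDiff.contDiffAt.comp x h

theorem Smo.im {P : ℝ × ℝ → ℂ} {x : ℝ × ℝ} (h : Smo P x) : Smo (fun y => (P y).im) x :=
  Complex.imCLM.contDiff.contDiffAt.comp x h

/-- the state of a family -/
noncomputable def stt (U : Ultrafilter (ℝ × ℝ)) (P V : ℝ × ℝ → ℂ)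
    (hP : ∀ᶠ x in (U : Filter (ℝ × ℝ)), Smo P x) (hV : ∀ᶠ x in (U : Filter (ℝ × ℝ)), Smo V x) :
    Stt (SF ℝ U) where
  X := sg U (fun y => (P y).re) (hP.mono fun _ h => h.re)
  Y := sg U (fun y => (P y).im) (hP.mono fun _ h => h.im)
  v := sg U (fun y => (V y).re) (hV.mono fun _ h => h.re)
  w := sg U (fun y => (V y).im) (hV.mono fun _ h => h.im)

/-! ### the unit tangent of an arc -/

/-- the unit tangent -/
noncomputable def bfT (γ : ℝ → ℂ) (σ : ℝ) : ℂ := deriv γ σ / ((‖deriv γ σ‖ : ℝ) : ℂ)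

/-- rotation speed of the unit tangent -/
noncomputable def bfR (γ : ℝ → ℂ) (σ : ℝ) : ℝ := (deriv (bfT γ) σ * conj (bfT γ σ)).im

/-- curvature -/
noncomputable def bfK (γ : ℝ → ℂ) (σ : ℝ) : ℝ := bfR γ σ / ‖deriv γ σ‖

theorem bf_deriv_smooth {γ : ℝ → ℂ} (hγ : Arc γ) (σ : ℝ) :
    ContDiffAt ℝ ((⊤ : ℕ∞) : WithTop ℕ∞) (deriv γ) σ := by
  have h := hγ.1
  rw [contDiff_infty_iff_deriv] at h
  exact h.2.contDiffAt

theorem bf_norm_smooth {γ : ℝ → ℂ} (hγ : Arc γ) {σ : ℝ} (hσ : σ ∈ Set.Ioo (0 : ℝ) 1) :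
    ContDiffAt ℝ ((⊤ : ℕ∞) : WithTop ℕ∞) (fun τ => ‖deriv γ τ‖) σ :=
  (bf_deriv_smooth hγ σ).norm ℝ (hγ.2 σ hσ)

theorem bf_T_smooth {γ : ℝ → ℂ} (hγ : Arc γ) {σ : ℝ} (hσ : σ ∈ Set.Ioo (0 : ℝ) 1) :
    ContDiffAt ℝ ((⊤ : ℕ∞) : WithTop ℕ∞) (bfT γ) σ := by
  have h1 : ContDiffAt ℝ ((⊤ : ℕ∞) : WithTop ℕ∞) (fun τ => ((‖deriv γ τ‖ : ℝ) : ℂ)) σ :=
    Complex.ofRealCLM.contDiff.contDiffAt.comp σ (bf_norm_smooth hγ hσ)
  have h2 : ((‖deriv γ σ‖ : ℝ) : ℂ) ≠ 0 := by
    rw [ne_eq, Complex.ofReal_eq_zero, norm_eq_zero]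
    exact hγ.2 σ hσ
  have h3 := (bf_deriv_smooth hγ σ).mul (h1.inv h2)
  have e : bfT γ = fun τ => deriv γ τ * (((‖deriv γ τ‖ : ℝ) : ℂ))⁻¹ := by
    funext τ
    unfold bfT
    rw [div_eq_mul_inv]
  rw [e]
  exact h3

theorem bf_deriv_at {f : ℝ → ℂ} {σ : ℝ} (hf : ContDiffAt ℝ ((⊤ : ℕ∞) : WithTop ℕ∞) f σ) :
    ContDiffAt ℝ ((⊤ : ℕ∞) : WithTop ℕ∞) (deriv f) σ := by
  have h1 : ContDiffAt ℝ ((⊤ : ℕ∞) : WithTop ℕ∞) (_root_.fderiv ℝ f) σ :=
    ContDiffAt.fderiv_right hf (by simp)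
  have h2 := h1.clm_apply (contDiffAt_const (c := (1 : ℝ)))
  exact h2

theorem bf_deriv_atR {f : ℝ → ℝ} {σ : ℝ} (hf : ContDiffAt ℝ ((⊤ : ℕ∞) : WithTop ℕ∞) f σ) :
    ContDiffAt ℝ ((⊤ : ℕ∞) : WithTop ℕ∞) (deriv f) σ := by
  have h1 : ContDiffAt ℝ ((⊤ : ℕ∞) : WithTop ℕ∞) (_root_.fderiv ℝ f) σ :=
    ContDiffAt.fderiv_right hf (by simp)
  have h2 := h1.clm_apply (contDiffAt_const (c := (1 : ℝ)))
  exact h2

theorem bf_re_at {f : ℝ → ℂ} {σ : ℝ} (hf : ContDiffAt ℝ ((⊤ : ℕ∞) : WithTop ℕ∞) f σ) :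
    ContDiffAt ℝ ((⊤ : ℕ∞) : WithTop ℕ∞) (fun τ => (f τ).re) σ :=
  Complex.reCLM.contDiff.contDiffAt.comp σ hf

theorem bf_im_at {f : ℝ → ℂ} {σ : ℝ} (hf : ContDiffAt ℝ ((⊤ : ℕ∞) : WithTop ℕ∞) f σ) :
    ContDiffAt ℝ ((⊤ : ℕ∞) : WithTop ℕ∞) (fun τ => (f τ).im) σ :=
  Complex.imCLM.contDiff.contDiffAt.comp σ hf

theorem bf_R_smooth {γ : ℝ → ℂ} (hγ : Arc γ) {σ : ℝ} (hσ : σ ∈ Set.Ioo (0 : ℝ) 1) :
    ContDiffAt ℝ ((⊤ : ℕ∞) : WithTop ℕ∞) (bfR γ) σ := by
  have h1 := bf_T_smooth hγ hσ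
  have h2 : ContDiffAt ℝ ((⊤ : ℕ∞) : WithTop ℕ∞) (fun τ => conj (bfT γ τ)) σ :=
    Complex.conjCLE.contDiff.contDiffAt.comp σ h1
  exact bf_im_at ((bf_deriv_at h1).mul h2)

theorem bf_K_smooth {γ : ℝ → ℂ} (hγ : Arc γ) {σ : ℝ} (hσ : σ ∈ Set.Ioo (0 : ℝ) 1) :
    ContDiffAt ℝ ((⊤ : ℕ∞) : WithTop ℕ∞) (bfK γ) σ :=
  (bf_R_smooth hγ hσ).div (bf_norm_smooth hγ hσ) (norm_ne_zero_iff.2 (hγ.2 σ hσ))

theorem bf_sq {γ : ℝ → ℂ} (hγ : Arc γ) {σ : ℝ} (hσ : σ ∈ Set.Ioo (0 : ℝ) 1) :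
    (bfT γ σ).re ^ 2 + (bfT γ σ).im ^ 2 = 1 := by
  have h1 : ‖bfT γ σ‖ = 1 := by
    unfold bfT
    rw [norm_div, Complex.norm_real, norm_norm, div_self (norm_ne_zero_iff.2 (hγ.2 σ hσ))]
  have h2 := Complex.sq_norm (bfT γ σ)
  rw [h1, Complex.normSq_apply] at h2
  linarith

theorem bf_gT {γ : ℝ → ℂ} (hγ : Arc γ) {σ : ℝ} (hσ : σ ∈ Set.Ioo (0 : ℝ) 1) :
    deriv γ σ = ((‖deriv γ σ‖ : ℝ) : ℂ) * bfT γ σ := by
  have h2 : ((‖deriv γ σ‖ : ℝ) : ℂ) ≠ 0 := by
    rw [ne_eq, Complex.ofReal_eq_zero, norm_eq_zero]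
    exact hγ.2 σ hσ
  unfold bfT
  rw [mul_div_cancel₀ _ h2]

theorem bf_hasDeriv {γ : ℝ → ℂ} (hγ : Arc γ) {σ : ℝ} (hσ : σ ∈ Set.Ioo (0 : ℝ) 1) :
    HasDerivAt (bfT γ) (deriv (bfT γ) σ) σ :=
  ((bf_T_smooth hγ hσ).differentiableAt (by simp)).hasDerivAt

theorem bf_re_deriv {f : ℝ → ℂ} {f' : ℂ} {σ : ℝ} (h : HasDerivAt f f' σ) :
    HasDerivAt (fun τ => (f τ).re) f'.re σ := by
  have := (Complex.reCLM.hasFDerivAt (x := f σ)).comp_hasDerivAt σ h
  exact this

theorem bf_im_deriv {f : ℝ → ℂ} {f' : ℂ} {σ : ℝ} (h : HasDerivAt f f' σ) :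
    HasDerivAt (fun τ => (f τ).im) f'.im σ := by
  have := (Complex.imCLM.hasFDerivAt (x := f σ)).comp_hasDerivAt σ h
  exact this

theorem bf_orth {γ : ℝ → ℂ} (hγ : Arc γ) {σ : ℝ} (hσ : σ ∈ Set.Ioo (0 : ℝ) 1) :
    (bfT γ σ).re * (deriv (bfT γ) σ).re + (bfT γ σ).im * (deriv (bfT γ) σ).im = 0 := by
  have h1 := bf_re_deriv (bf_hasDeriv hγ hσ)
  have h2 := bf_im_deriv (bf_hasDeriv hγ hσ)
  have h3 := (h1.mul h1).add (h2.mul h2)
  have h4 : (fun τ => (bfT γ τ).re * (bfT γ τ).re + (bfT γ τ).im * (bfT γ τ).im)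
      =ᶠ[𝓝 σ] fun _ => (1 : ℝ) := by
    filter_upwards [isOpen_Ioo.mem_nhds hσ] with τ hτ
    have := bf_sq hγ hτ
    linarith
  have h5 : HasDerivAt (fun τ => (bfT γ τ).re * (bfT γ τ).re + (bfT γ τ).im * (bfT γ τ).im)
      0 σ := (hasDerivAt_const σ (1 : ℝ)).congr_of_eventuallyEq h4
  have h6 := h3.unique h5
  linarith

theorem bf_T' {γ : ℝ → ℂ} (hγ : Arc γ) {σ : ℝ} (hσ : σ ∈ Set.Ioo (0 : ℝ) 1) :
    (deriv (bfT γ) σ).re = -bfR γ σ * (bfT γ σ).im ∧
      (deriv (bfT γ) σ).im = bfR γ σ * (bfT γ σ).re := by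
  have h1 := bf_orth hγ hσ
  have h2 := bf_sq hγ hσ
  have h3 : bfR γ σ = (deriv (bfT γ) σ).im * (bfT γ σ).re -
      (deriv (bfT γ) σ).re * (bfT γ σ).im := by
    unfold bfR
    rw [Complex.mul_im, Complex.conj_re, Complex.conj_im]
    ring
  rw [h3]
  constructor
  · linear_combination (-(deriv (bfT γ) σ).re) * h2 + (bfT γ σ).re * h1
  · linear_combination (-(deriv (bfT γ) σ).im) * h2 + (bfT γ σ).im * h1

/-- equality of germs -/
theorem bf_ext {z w : SF ℝ U} (f g : ℝ × ℝ → ℝ)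
    (hz : (z : Filter.Germ (U : Filter (ℝ × ℝ)) ℝ) = (f : Filter.Germ (U : Filter (ℝ × ℝ)) ℝ))
    (hw : (w : Filter.Germ (U : Filter (ℝ × ℝ)) ℝ) = (g : Filter.Germ (U : Filter (ℝ × ℝ)) ℝ))
    (h : ∀ᶠ x in (U : Filter (ℝ × ℝ)), f x = g x) : z = w :=
  Subtype.ext (hz.trans ((Filter.Germ.coe_eq.mpr h).trans hw.symm))

theorem bf_comp {f : ℝ → ℝ} {s : ℝ × ℝ → ℝ} {x : ℝ × ℝ} (hs : Smo s x)
    (hf : ContDiffAt ℝ ((⊤ : ℕ∞) : WithTop ℕ∞) f (s x)) : Smo (fun y => f (s y)) x :=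
  ContDiffAt.comp x hf hs

theorem exists_bnc {γ : ℝ → ℂ} (hγ : Arc γ) {s : ℝ × ℝ → ℝ} {P V : ℝ × ℝ → ℂ}
    (hP : ∀ᶠ x in (U : Filter (ℝ × ℝ)), Smo P x) (hV : ∀ᶠ x in (U : Filter (ℝ × ℝ)), Smo V x)
    (hn : ∀ᶠ x in (U : Filter (ℝ × ℝ)), ∀ᶠ y in 𝓝 x, ‖V y‖ = 1)
    (hs : ∀ᶠ x in (U : Filter (ℝ × ℝ)), Step γ s P V x)
    (hP' : ∀ᶠ x in (U : Filter (ℝ × ℝ)), Smo (fun y => γ (s y)) x)
    (hV' : ∀ᶠ x in (U : Filter (ℝ × ℝ)),
      Smo (fun y => deriv γ (s y) / conj (deriv γ (s y)) * conj (V y)) x) :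
    ∃ t a b k : SF ℝ U, Bnc (CR U) (stt U P V hP hV) t a b k
      (stt U (fun y => γ (s y)) (fun y => deriv γ (s y) / conj (deriv γ (s y)) * conj (V y)) hP' hV') ∧
      ((∃ A B C : ℝ, (A, B) ≠ (0, 0) ∧ ∀ σ ∈ Set.Ioo (0 : ℝ) 1,
        A * (γ σ).re + B * (γ σ).im = C) → k = 0) := by
  have hsm : ∀ᶠ x in (U : Filter (ℝ × ℝ)), Smo s x := hs.mono fun _ h => h.smo
  have hmem : ∀ᶠ x in (U : Filter (ℝ × ℝ)), s x ∈ Set.Ioo (0 : ℝ) 1 := hs.mono fun _ h => h.mem
  have hn1 : ∀ᶠ x in (U : Filter (ℝ × ℝ)), (V x).re ^ 2 + (V x).im ^ 2 = 1 := by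
    filter_upwards [hn] with x hx
    have h1 := hx.self_of_nhds
    have h2 := Complex.sq_norm (V x)
    rw [h1, Complex.normSq_apply] at h2
    linarith
  -- smoothness of the functions of `s`
  have sT1 : ∀ᶠ x in (U : Filter (ℝ × ℝ)), Smo (fun y => (bfT γ (s y)).re) x := by
    filter_upwards [hsm, hmem] with x h1 h2
    exact bf_comp (f := fun τ => (bfT γ τ).re) h1 (bf_re_at (bf_T_smooth hγ h2))
  have sT2 : ∀ᶠ x in (U : Filter (ℝ × ℝ)), Smo (fun y => (bfT γ (s y)).im) x := by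
    filter_upwards [hsm, hmem] with x h1 h2
    exact bf_comp (f := fun τ => (bfT γ τ).im) h1 (bf_im_at (bf_T_smooth hγ h2))
  have sK : ∀ᶠ x in (U : Filter (ℝ × ℝ)), Smo (fun y => bfK γ (s y)) x := by
    filter_upwards [hsm, hmem] with x h1 h2
    exact bf_comp (f := bfK γ) h1 (bf_K_smooth hγ h2)
  have sG : ∀ᶠ x in (U : Filter (ℝ × ℝ)), Smo (fun y => ‖deriv γ (s y)‖) x := by
    filter_upwards [hsm, hmem] with x h1 h2
    exact bf_comp (f := fun τ => ‖deriv γ τ‖) h1 (bf_norm_smooth hγ h2)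
  have st : ∀ᶠ x in (U : Filter (ℝ × ℝ)),
      Smo (fun y => ((γ (s y) - P y) * conj (V y)).re) x := by
    filter_upwards [hP, hV, hP'] with x h1 h2 h3
    have h4 : Smo (fun y => conj (V y)) x := ContDiffAt.comp x Complex.conjCLE.contDiff.contDiffAt h2
    exact ((h3.sub h1).mul h4).re
  set T1 : SF ℝ U := sg U _ sT1 with hT1
  set T2 : SF ℝ U := sg U _ sT2 with hT2
  set kk : SF ℝ U := sg U _ sK with hkk
  set G : SF ℝ U := sg U _ sG with hG
  set t : SF ℝ U := sg U _ st with ht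
  set S := stt U P V hP hV with hS
  set S' := stt U (fun y => γ (s y))
    (fun y => deriv γ (s y) / conj (deriv γ (s y)) * conj (V y)) hP' hV' with hS'
  have hG0 : G ≠ 0 := by
    intro h0
    rw [hG, sg_zero, sg_eq] at h0
    have h1 : ∀ᶠ x in (U : Filter (ℝ × ℝ)), False := by
      filter_upwards [h0, hmem] with x hx0 hx1
      exact hγ.2 _ hx1 (norm_eq_zero.mp hx0)
    exact (Filter.eventually_const.mp h1)
  -- the incidence relation
  have hinc : ∀ᶠ x in (U : Filter (ℝ × ℝ)),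
      γ (s x) = P x + ((((γ (s x) - P x) * conj (V x)).re : ℝ) : ℂ) * V x := by
    filter_upwards [hs, hn1] with x h1 h2
    have h3 := h1.inc.self_of_nhds
    have h4 : (γ (s x) - P x) * conj (V x) =
        ((((γ (s x) - P x) * conj (V x)).re : ℝ) : ℂ) := by
      apply Complex.ext
      · rw [Complex.ofReal_re]
      · rw [Complex.ofReal_im]; exact h3
    have h5 : conj (V x) * V x = 1 := by
      apply Complex.ext
      · rw [Complex.mul_re, Complex.conj_re, Complex.conj_im, Complex.one_re]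
        linarith
      · rw [Complex.mul_im, Complex.conj_re, Complex.conj_im, Complex.one_im]
        ring
    rw [← h4, mul_assoc, h5, mul_one]
    ring
  -- the outgoing direction
  have hout : ∀ᶠ x in (U : Filter (ℝ × ℝ)),
      deriv γ (s x) / conj (deriv γ (s x)) * conj (V x) = bfT γ (s x) ^ 2 * conj (V x) := by
    filter_upwards [hmem] with x h1
    have h2 := bf_gT hγ h1
    have h3 := bf_sq hγ h1
    have h4 : ((‖deriv γ (s x)‖ : ℝ) : ℂ) ≠ 0 := by
      rw [ne_eq, Complex.ofReal_eq_zero, norm_eq_zero]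
      exact hγ.2 _ h1
    have h5 : conj (bfT γ (s x)) * bfT γ (s x) = 1 := by
      apply Complex.ext
      · rw [Complex.mul_re, Complex.conj_re, Complex.conj_im, Complex.one_re]
        linarith
      · rw [Complex.mul_im, Complex.conj_re, Complex.conj_im, Complex.one_im]
        ring
    have h6 : conj (bfT γ (s x)) ≠ 0 := fun h0 => by
      rw [h0, zero_mul] at h5; exact zero_ne_one h5
    have h7 : deriv γ (s x) / conj (deriv γ (s x)) = bfT γ (s x) ^ 2 := by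
      set g : ℝ := ‖deriv γ (s x)‖ with hg
      rw [h2, map_mul, Complex.conj_ofReal, mul_div_mul_left _ _ h4, div_eq_iff h6]
      calc bfT γ (s x) = bfT γ (s x) * 1 := (mul_one _).symm
        _ = bfT γ (s x) * (conj (bfT γ (s x)) * bfT γ (s x)) := by rw [h5]
        _ = _ := by ring
    rw [h7]
  have hb : Bnc (CR U) S t (S.w * T1 - S.v * T2) (S.v * T1 + S.w * T2) kk S' := by
    apply bnc_of
    · refine bf_ext (fun x => (V x).re ^ 2 + (V x).im ^ 2) (fun _ => 1) rfl rfl hn1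
    · refine bf_ext (fun x => (bfT γ (s x)).re ^ 2 + (bfT γ (s x)).im ^ 2) (fun _ => 1) rfl rfl ?_
      filter_upwards [hmem] with x hx
      exact bf_sq hγ hx
    · refine bf_ext (fun x => (γ (s x)).re)
        (fun x => (P x).re + ((γ (s x) - P x) * conj (V x)).re * (V x).re) rfl rfl ?_
      filter_upwards [hinc] with x hx
      have h1 := congrArg Complex.re hx
      rw [Complex.add_re, Complex.re_ofReal_mul] at h1
      exact h1
    · refine bf_ext (fun x => (γ (s x)).im)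
        (fun x => (P x).im + ((γ (s x) - P x) * conj (V x)).re * (V x).im) rfl rfl ?_
      filter_upwards [hinc] with x hx
      have h1 := congrArg Complex.im hx
      rw [Complex.add_im, Complex.im_ofReal_mul] at h1
      exact h1
    · refine bf_ext (fun x => (deriv γ (s x) / conj (deriv γ (s x)) * conj (V x)).re)
        (fun x => ((bfT γ (s x)).re ^ 2 - (bfT γ (s x)).im ^ 2) * (V x).re +
          2 * (bfT γ (s x)).re * (bfT γ (s x)).im * (V x).im) rfl rfl ?_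
      filter_upwards [hout] with x hx
      rw [hx, pow_two, Complex.mul_re, Complex.mul_re, Complex.mul_im, Complex.conj_re,
        Complex.conj_im]
      ring
    · refine bf_ext (fun x => (deriv γ (s x) / conj (deriv γ (s x)) * conj (V x)).im)
        (fun x => 2 * (bfT γ (s x)).re * (bfT γ (s x)).im * (V x).re -
          ((bfT γ (s x)).re ^ 2 - (bfT γ (s x)).im ^ 2) * (V x).im) rfl rfl ?_
      filter_upwards [hout] with x hx
      rw [hx, pow_two, Complex.mul_im, Complex.mul_re, Complex.mul_im, Complex.conj_re,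
        Complex.conj_im]
      ring
    · rw [sg_zero, ht, sg_lt]
      filter_upwards [hs] with x hx
      exact hx.pos
    · intro h0
      have h1 : ∀ᶠ x in (U : Filter (ℝ × ℝ)),
          (V x).im * (bfT γ (s x)).re - (V x).re * (bfT γ (s x)).im = 0 := by
        have h2 := congrArg (fun z : SF ℝ U => (z : Filter.Germ (U : Filter (ℝ × ℝ)) ℝ)) h0
        exact Filter.Germ.coe_eq.mp h2
      have h3 : ∀ᶠ x in (U : Filter (ℝ × ℝ)), False := by
        filter_upwards [h1, hs] with x hx0 hx1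
        apply hx1.trans
        rw [bf_gT hγ hx1.mem, mul_assoc, Complex.im_ofReal_mul, Complex.mul_im, Complex.conj_re,
          Complex.conj_im]
        have e : (bfT γ (s x)).re * -(V x).im + (bfT γ (s x)).im * (V x).re = 0 := by
          linear_combination -hx0
        rw [e, mul_zero]
      exact (Filter.eventually_const.mp h3)
    · -- derivations
      have hdK : ∀ᶠ x in (U : Filter (ℝ × ℝ)), Smo (fun y => deriv (bfK γ) (s y)) x := by
        filter_upwards [hsm, hmem] with x h1 h2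
        exact bf_comp h1 (bf_deriv_atR (bf_K_smooth hγ h2))
      refine ⟨sg U _ hdK * G⁻¹, ?_⟩
      intro D hD
      refine ⟨G * D (sg U s hsm), ?_, ?_, ?_, ?_, ?_⟩
      · have h1 : ∀ᶠ x in (U : Filter (ℝ × ℝ)),
            ContDiffAt ℝ ((⊤ : ℕ∞) : WithTop ℕ∞) (fun τ => (γ τ).re) (s x) :=
          Eventually.of_forall fun x => bf_re_at hγ.1.contDiffAt
        have h2 : ∀ᶠ x in (U : Filter (ℝ × ℝ)), Smo (fun y => deriv (fun τ => (γ τ).re) (s y)) x := by
          filter_upwards [hsm, h1] with x h3 h4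
          exact bf_comp h3 (bf_deriv_atR h4)
        have h3 := hD (fun τ => (γ τ).re) s hsm h1 (hP'.mono fun _ h => h.re) h2
        have h4 : sg U (fun y => deriv (fun τ => (γ τ).re) (s y)) h2 = T1 * G := by
          refine bf_ext (fun x => deriv (fun τ => (γ τ).re) (s x))
            (fun x => (bfT γ (s x)).re * ‖deriv γ (s x)‖) rfl rfl ?_
          filter_upwards [hmem] with x hx
          have h5 : HasDerivAt γ (deriv γ (s x)) (s x) :=
            ((hγ.1.differentiable (by simp)) (s x)).hasDerivAt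
          rw [(bf_re_deriv h5).deriv]
          have h6 := congrArg Complex.re (bf_gT hγ hx)
          rw [Complex.re_ofReal_mul] at h6
          rw [h6]; ring
        rw [h4, mul_assoc] at h3
        exact h3
      · have h1 : ∀ᶠ x in (U : Filter (ℝ × ℝ)),
            ContDiffAt ℝ ((⊤ : ℕ∞) : WithTop ℕ∞) (fun τ => (γ τ).im) (s x) :=
          Eventually.of_forall fun x => bf_im_at hγ.1.contDiffAt
        have h2 : ∀ᶠ x in (U : Filter (ℝ × ℝ)), Smo (fun y => deriv (fun τ => (γ τ).im) (s y)) x := by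
          filter_upwards [hsm, h1] with x h3 h4
          exact bf_comp h3 (bf_deriv_atR h4)
        have h3 := hD (fun τ => (γ τ).im) s hsm h1 (hP'.mono fun _ h => h.im) h2
        have h4 : sg U (fun y => deriv (fun τ => (γ τ).im) (s y)) h2 = T2 * G := by
          refine bf_ext (fun x => deriv (fun τ => (γ τ).im) (s x))
            (fun x => (bfT γ (s x)).im * ‖deriv γ (s x)‖) rfl rfl ?_
          filter_upwards [hmem] with x hx
          have h5 : HasDerivAt γ (deriv γ (s x)) (s x) :=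
            ((hγ.1.differentiable (by simp)) (s x)).hasDerivAt
          rw [(bf_im_deriv h5).deriv]
          have h6 := congrArg Complex.im (bf_gT hγ hx)
          rw [Complex.im_ofReal_mul] at h6
          rw [h6]; ring
        rw [h4, mul_assoc] at h3
        exact h3
      · have h1 : ∀ᶠ x in (U : Filter (ℝ × ℝ)),
            ContDiffAt ℝ ((⊤ : ℕ∞) : WithTop ℕ∞) (fun τ => (bfT γ τ).re) (s x) := by
          filter_upwards [hmem] with x hx
          exact bf_re_at (bf_T_smooth hγ hx)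
        have h2 : ∀ᶠ x in (U : Filter (ℝ × ℝ)),
            Smo (fun y => deriv (fun τ => (bfT γ τ).re) (s y)) x := by
          filter_upwards [hsm, h1] with x h3 h4
          exact bf_comp h3 (bf_deriv_atR h4)
        have h3 := hD (fun τ => (bfT γ τ).re) s hsm h1 sT1 h2
        have h4 : sg U (fun y => deriv (fun τ => (bfT γ τ).re) (s y)) h2 = -kk * G * T2 := by
          refine bf_ext (fun x => deriv (fun τ => (bfT γ τ).re) (s x))
            (fun x => -bfK γ (s x) * ‖deriv γ (s x)‖ * (bfT γ (s x)).im) rfl rfl ?_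
          filter_upwards [hmem] with x hx
          rw [(bf_re_deriv (bf_hasDeriv hγ hx)).deriv, (bf_T' hγ hx).1]
          have h7 : ‖deriv γ (s x)‖ ≠ 0 := norm_ne_zero_iff.2 (hγ.2 _ hx)
          unfold bfK
          field_simp
        rw [h4] at h3
        rw [h3]
        ring
      · have h1 : ∀ᶠ x in (U : Filter (ℝ × ℝ)),
            ContDiffAt ℝ ((⊤ : ℕ∞) : WithTop ℕ∞) (fun τ => (bfT γ τ).im) (s x) := by
          filter_upwards [hmem] with x hx
          exact bf_im_at (bf_T_smooth hγ hx)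
        have h2 : ∀ᶠ x in (U : Filter (ℝ × ℝ)),
            Smo (fun y => deriv (fun τ => (bfT γ τ).im) (s y)) x := by
          filter_upwards [hsm, h1] with x h3 h4
          exact bf_comp h3 (bf_deriv_atR h4)
        have h3 := hD (fun τ => (bfT γ τ).im) s hsm h1 sT2 h2
        have h4 : sg U (fun y => deriv (fun τ => (bfT γ τ).im) (s y)) h2 = kk * G * T1 := by
          refine bf_ext (fun x => deriv (fun τ => (bfT γ τ).im) (s x))
            (fun x => bfK γ (s x) * ‖deriv γ (s x)‖ * (bfT γ (s x)).re) rfl rfl ?_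
          filter_upwards [hmem] with x hx
          rw [(bf_im_deriv (bf_hasDeriv hγ hx)).deriv, (bf_T' hγ hx).2]
          have h7 : ‖deriv γ (s x)‖ ≠ 0 := norm_ne_zero_iff.2 (hγ.2 _ hx)
          unfold bfK
          field_simp
        rw [h4] at h3
        rw [h3]
        ring
      · have h1 : ∀ᶠ x in (U : Filter (ℝ × ℝ)),
            ContDiffAt ℝ ((⊤ : ℕ∞) : WithTop ℕ∞) (bfK γ) (s x) := by
          filter_upwards [hmem] with x hx
          exact bf_K_smooth hγ hx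
        have h3 := hD (bfK γ) s hsm h1 sK hdK
        rw [h3]
        field_simp
  refine ⟨t, _, _, kk, hb, ?_⟩
  rintro ⟨A, B, C, hAB, hflat⟩
  refine bf_ext (fun x => bfK γ (s x)) (fun _ => 0) rfl rfl ?_
  filter_upwards [hmem] with x hx
  -- the tangent is orthogonal to (A, B)
  have hperp : ∀ σ ∈ Set.Ioo (0 : ℝ) 1, A * (bfT γ σ).re + B * (bfT γ σ).im = 0 := by
    intro σ hσ
    have h5 : HasDerivAt γ (deriv γ σ) σ := ((hγ.1.differentiable (by simp)) σ).hasDerivAt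
    have h6 := ((bf_re_deriv h5).const_mul A).add ((bf_im_deriv h5).const_mul B)
    have h7 : (fun τ => A * (γ τ).re + B * (γ τ).im) =ᶠ[𝓝 σ] fun _ => C := by
      filter_upwards [isOpen_Ioo.mem_nhds hσ] with τ hτ
      exact hflat τ hτ
    have h8 : HasDerivAt (fun τ => A * (γ τ).re + B * (γ τ).im) 0 σ :=
      (hasDerivAt_const σ C).congr_of_eventuallyEq h7
    have h9 := h6.unique h8
    have g1 := congrArg Complex.re (bf_gT hγ hσ)
    have g2 := congrArg Complex.im (bf_gT hγ hσ)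
    rw [Complex.re_ofReal_mul] at g1
    rw [Complex.im_ofReal_mul] at g2
    have h10 : ‖deriv γ σ‖ ≠ 0 := norm_ne_zero_iff.2 (hγ.2 _ hσ)
    have h11 : ‖deriv γ σ‖ * (A * (bfT γ σ).re + B * (bfT γ σ).im) = 0 := by
      rw [← h9, g1, g2]
      ring
    exact (mul_eq_zero.mp h11).resolve_left h10
  have h1 := bf_hasDeriv hγ hx
  have h6 := ((bf_re_deriv h1).const_mul A).add ((bf_im_deriv h1).const_mul B)
  have h7 : (fun τ => A * (bfT γ τ).re + B * (bfT γ τ).im) =ᶠ[𝓝 (s x)] fun _ => (0 : ℝ) := by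
    filter_upwards [isOpen_Ioo.mem_nhds hx] with τ hτ
    exact hperp τ hτ
  have h8 : HasDerivAt (fun τ => A * (bfT γ τ).re + B * (bfT γ τ).im) 0 (s x) :=
    (hasDerivAt_const (s x) (0 : ℝ)).congr_of_eventuallyEq h7
  have h9 := h6.unique h8
  have h10 := hperp _ hx
  have h11 := bf_sq hγ hx
  rw [(bf_T' hγ hx).1, (bf_T' hγ hx).2] at h9
  have h12 : A ^ 2 + B ^ 2 ≠ 0 := by
    intro h0
    apply hAB
    have hA : A = 0 := by nlinarith [sq_nonneg A, sq_nonneg B]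
    have hB : B = 0 := by nlinarith [sq_nonneg A, sq_nonneg B]
    rw [hA, hB]
  have h13 : bfR γ (s x) * (A ^ 2 + B ^ 2) = 0 := by
    have e1 : bfR γ (s x) * (B * (bfT γ (s x)).re - A * (bfT γ (s x)).im) = 0 := by
      linear_combination h9
    have e2 : A ^ 2 + B ^ 2 = (B * (bfT γ (s x)).re - A * (bfT γ (s x)).im) ^ 2 +
        (A * (bfT γ (s x)).re + B * (bfT γ (s x)).im) ^ 2 := by
      linear_combination (-(A ^ 2 + B ^ 2)) * h11
    rw [e2, h10]
    linear_combination (B * (bfT γ (s x)).re - A * (bfT γ (s x)).im) * e1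
  have h14 : bfR γ (s x) = 0 := (mul_eq_zero.mp h13).resolve_right h12
  change bfK γ (s x) = 0
  unfold bfK
  rw [h14, zero_div]

end Pool.Agent.H6.Sm
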