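import Pool.Agent.H6.Sm.Sel

/-!
JOB SM-5. Orbits lie on smooth branches.

`good_smo`: induction on the word; `γ ∘ s` is smooth at `x` (`s` is), `deriv γ` is smooth and nonzero at `s x ∈ (0, 1)`, `conj` is continuous linear.
`good_norm`: near `x` the parameter `s y` is in `(0, 1)` (continuity), so `deriv γ (s y) ≠ 0` and the quotient by its conjugate has norm 1.
`lift`: induction on `L`. For `γ :: L`: the induction hypothesis gives a word `w` for `(Q, W)`; `γ s = Q + t W`, so `((γ s - Q) * conj W).im = (t * ‖W‖ ^ 2).im = 0` and the real part is `t > 0` (`‖W‖ = 1` by `good_norm` at `x`);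
`sel_spec` gives the interval `I`; take `(γ, I) :: w`.
-/

set_option autoImplicit false

namespace Pool.Agent.H6.Sm

open Filter MeasureTheory Topology ComplexConjugate

variable {P0 V0 : ℝ × ℝ → ℂ}

theorem lift_smo_comp {E : Type} [NormedAddCommGroup E] [NormedSpace ℝ E] {γ : ℝ → E}
    (hγ : ContDiff ℝ ((⊤ : ℕ∞) : WithTop ℕ∞) γ) {s : ℝ × ℝ → ℝ} {x : ℝ × ℝ} (hs : Smo s x) :
    Smo (fun y => γ (s y)) x :=
  ContDiffAt.comp x hγ.contDiffAt hs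

theorem lift_deriv_smooth {γ : ℝ → ℂ} (hγ : ContDiff ℝ ((⊤ : ℕ∞) : WithTop ℕ∞) γ) :
    ContDiff ℝ ((⊤ : ℕ∞) : WithTop ℕ∞) (deriv γ) := by
  rw [contDiff_infty_iff_deriv] at hγ
  exact hγ.2

theorem lift_conj_smo {f : ℝ × ℝ → ℂ} {x : ℝ × ℝ} (hf : Smo f x) :
    Smo (fun y => conj (f y)) x :=
  ContDiffAt.comp x Complex.conjCLE.contDiff.contDiffAt hf

theorem lift_conj_ne {z : ℂ} (h : z ≠ 0) : conj z ≠ 0 := by
  rw [ne_eq, map_eq_zero]
  exact h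

theorem lift_step_smo {γ : ℝ → ℂ} (hγ : Arc γ) {s : ℝ × ℝ → ℝ} {V : ℝ × ℝ → ℂ} {x : ℝ × ℝ}
    (hs : Smo s x) (hm : s x ∈ Set.Ioo (0 : ℝ) 1) (hV : Smo V x) :
    Smo (fun y => γ (s y)) x ∧
      Smo (fun y => deriv γ (s y) / conj (deriv γ (s y)) * conj (V y)) x := by
  refine ⟨lift_smo_comp hγ.1 hs, ?_⟩
  have h1 : Smo (fun y => deriv γ (s y)) x := lift_smo_comp (lift_deriv_smooth hγ.1) hs
  have h2 : Smo (fun y => (conj (deriv γ (s y)))⁻¹) x :=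
    (lift_conj_smo h1).inv (lift_conj_ne (hγ.2 _ hm))
  have h3 := (h1.mul h2).mul (lift_conj_smo hV)
  simp only [div_eq_mul_inv]
  exact h3

theorem good_smo {w : List ((ℝ → ℂ) × (ℚ × ℚ))} {x : ℝ × ℝ} (hw : ∀ L ∈ w, Arc L.1)
    (hP : Smo P0 x) (hV : Smo V0 x) (h : Good P0 V0 w x) :
    Smo (orb P0 V0 w).1 x ∧ Smo (orb P0 V0 w).2 x := by
  induction w with
  | nil => exact ⟨hP, hV⟩
  | cons L w ih =>
    obtain ⟨h1, h2⟩ := h
    obtain ⟨-, h4⟩ := ih (fun L' hL' => hw L' (List.mem_cons_of_mem _ hL')) h1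
    exact lift_step_smo (hw L List.mem_cons_self) h2.smo h2.mem h4

theorem good_norm {w : List ((ℝ → ℂ) × (ℚ × ℚ))} {x : ℝ × ℝ} (hw : ∀ L ∈ w, Arc L.1)
    (hV : ∀ y, ‖V0 y‖ = 1) (h : Good P0 V0 w x) :
    ∀ᶠ y in 𝓝 x, ‖(orb P0 V0 w).2 y‖ = 1 := by
  induction w with
  | nil => exact Eventually.of_forall hV
  | cons L w ih =>
    obtain ⟨h1, h2⟩ := h
    have h3 := ih (fun L' hL' => hw L' (List.mem_cons_of_mem _ hL')) h1
    have hc : ContinuousAt (sel L.1 L.2 (orb P0 V0 w).1 (orb P0 V0 w).2) x :=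
      ContDiffAt.continuousAt h2.smo
    have h4 : ∀ᶠ y in 𝓝 x, sel L.1 L.2 (orb P0 V0 w).1 (orb P0 V0 w).2 y ∈ Set.Ioo (0 : ℝ) 1 :=
      hc.eventually_mem (isOpen_Ioo.mem_nhds h2.mem)
    filter_upwards [h3, h4] with y hy3 hy4
    have hd : deriv L.1 (sel L.1 L.2 (orb P0 V0 w).1 (orb P0 V0 w).2 y) ≠ 0 :=
      (hw L List.mem_cons_self).2 _ hy4
    change ‖deriv L.1 (sel L.1 L.2 (orb P0 V0 w).1 (orb P0 V0 w).2 y) /
        conj (deriv L.1 (sel L.1 L.2 (orb P0 V0 w).1 (orb P0 V0 w).2 y)) *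
          conj ((orb P0 V0 w).2 y)‖ = 1
    rw [norm_mul, norm_div, RCLike.norm_conj, RCLike.norm_conj, hy3, mul_one,
      div_self (norm_ne_zero_iff.2 hd)]

theorem lift {L : List (ℝ → ℂ)} (hL : ∀ γ ∈ L, Arc γ) {x : ℝ × ℝ} (hP : Smo P0 x)
    (hV : Smo V0 x) (hV1 : ∀ y, ‖V0 y‖ = 1) {P V : ℂ} (h : RO L (P0 x) (V0 x) P V) :
    ∃ w : List ((ℝ → ℂ) × (ℚ × ℚ)), w.map Prod.fst = L ∧ Good P0 V0 w x ∧
      (orb P0 V0 w).1 x = P ∧ (orb P0 V0 w).2 x = V := by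
  induction L generalizing P V with
  | nil =>
    obtain ⟨rfl, rfl⟩ := h
    exact ⟨[], rfl, trivial, rfl, rfl⟩
  | cons γ L ih =>
    obtain ⟨Q, W, t, s, hR, ht, hs, he, rfl, htr, rfl⟩ := h
    obtain ⟨w, hw1, hw2, hw3, hw4⟩ := ih (fun γ' h' => hL γ' (List.mem_cons_of_mem _ h')) hR
    have hwA : ∀ M ∈ w, Arc M.1 := by
      intro M hM
      apply hL
      apply List.mem_cons_of_mem
      rw [← hw1]
      exact List.mem_map_of_mem hM
    obtain ⟨hsP, hsV⟩ := good_smo hwA hP hV hw2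
    have hn : ‖W‖ = 1 := by
      rw [← hw4]
      exact (good_norm hwA hV1 hw2).self_of_nhds
    have hval : (γ s - Q) * conj W = (t : ℂ) := by
      rw [he, add_sub_cancel_left, mul_assoc, Complex.mul_conj, Complex.normSq_eq_norm_sq, hn]
      simp
    have h0 : ((γ s - (orb P0 V0 w).1 x) * conj ((orb P0 V0 w).2 x)).im = 0 := by
      rw [hw3, hw4, hval]
      exact Complex.ofReal_im t
    have h1 : (deriv γ s * conj ((orb P0 V0 w).2 x)).im ≠ 0 := by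
      rw [hw4]; exact htr
    obtain ⟨I, hI1, hI2, hI3⟩ := sel_spec (hL γ List.mem_cons_self).1 hsP hsV h0 h1
    refine ⟨(γ, I) :: w, ?_, ⟨hw2, ⟨hI2, ?_, hI3, ?_, ?_⟩⟩, ?_, ?_⟩
    · rw [List.map_cons, hw1]
    · change sel γ I (orb P0 V0 w).1 (orb P0 V0 w).2 x ∈ _
      rw [hI1]; exact hs
    · change (deriv γ (sel γ I (orb P0 V0 w).1 (orb P0 V0 w).2 x) * _).im ≠ 0
      rw [hI1]; exact h1
    · change 0 < ((γ (sel γ I (orb P0 V0 w).1 (orb P0 V0 w).2 x) - (orb P0 V0 w).1 x) *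
        conj ((orb P0 V0 w).2 x)).re
      rw [hI1, hw3, hw4, hval]
      exact ht
    · change γ (sel γ I (orb P0 V0 w).1 (orb P0 V0 w).2 x) = _
      rw [hI1]
    · change deriv γ (sel γ I (orb P0 V0 w).1 (orb P0 V0 w).2 x) /
        conj (deriv γ (sel γ I (orb P0 V0 w).1 (orb P0 V0 w).2 x)) *
          conj ((orb P0 V0 w).2 x) = _
      rw [hI1, hw4]

end Pool.Agent.H6.Sm
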