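import Pool.Agent.H6.Sm.Bnc

/-!
JOB SM-8. Composition of bounces.

* `Bnc.seg`: `k = 0`: `cD D S' = b (jD D S' / a) = cD D S + D t`, `jD D S' = - (jD D S + t oD D S)`, `oD D S' = - oD D S`.
* `Seg.trans`: lengths add, signs multiply (`D (l + l') = D l + D l'`).
* `Seg.arr`: a flat segment followed by a bounce.
* `Ind.seg`, `Ind.arr`, `Ind.bnc`: `(jD, oD)` at the end is an invertible linear function (determinant `± 1`) of `(jD, oD)` at the beginning: `Seg`: `(σ (J + l o), σ o)`; `Arr`: `J' = - σ (J + l o)`, `o' = 2 k J' / a - σ o`.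
  `jD (f • D + g • D') S = f * jD D S + g * jD D' S`, the same for `oD`. Solve for the coefficients `f, g` in the two given derivations `D`, `D'`.
-/

set_option autoImplicit false

namespace Pool.Agent.H6.Sm

variable {F : Type} [Field F] [LinearOrder F] [IsStrictOrderedRing F]
  {Adm : Derivation ℤ F F → Prop} {S S' S'' : Stt F} {t a b k l l' σ σ' : F}

omit [LinearOrder F] [IsStrictOrderedRing F] in
theorem sgl_jD (f g : F) (D D' : Derivation ℤ F F) (S : Stt F) :
    jD (f • D + g • D') S = f * jD D S + g * jD D' S := by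
  simp only [jD, Derivation.add_apply, Derivation.smul_apply, smul_eq_mul]
  ring

omit [LinearOrder F] [IsStrictOrderedRing F] in
theorem sgl_oD (f g : F) (D D' : Derivation ℤ F F) (S : Stt F) :
    oD (f • D + g • D') S = f * oD D S + g * oD D' S := by
  simp only [oD, Derivation.add_apply, Derivation.smul_apply, smul_eq_mul]
  ring

theorem Seg.refl (Adm : Derivation ℤ F F → Prop) (S : Stt F) : Seg Adm S 0 1 S where
  sg := by ring
  l0 := le_refl _
  e1 := fun D _ => by rw [map_zero, add_zero]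
  e2 := fun D _ => by ring
  e3 := fun D _ => by ring

theorem Bnc.seg (h : Bnc Adm S t a b 0 S') : Seg Adm S t (-1) S' where
  sg := by ring
  l0 := h.t0.le
  e1 := fun D hD => by rw [h.e3 D hD, h.e1 D hD]
  e2 := fun D hD => by
    have := h.e2 D hD
    linear_combination this
  e3 := fun D hD => by
    have := h.e4 D hD
    linear_combination this

theorem Seg.trans (h : Seg Adm S l σ S') (h' : Seg Adm S' l' σ' S'') :
    Seg Adm S (l + l') (σ * σ') S'' where
  sg := by rw [mul_pow, h.sg, h'.sg, mul_one]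
  l0 := add_nonneg h.l0 h'.l0
  e1 := fun D hD => by
    rw [h'.e1 D hD, h.e1 D hD, map_add]
    ring
  e2 := fun D hD => by
    rw [h'.e2 D hD, h.e2 D hD, h.e3 D hD]
    ring
  e3 := fun D hD => by
    rw [h'.e3 D hD, h.e3 D hD]
    ring

theorem Seg.arr (h : Seg Adm S l σ S') (h' : Bnc Adm S' t a b k S'') :
    Arr Adm S (l + t) σ a b k S'' where
  sg := h.sg
  sq := h'.sq
  a0 := h'.a0
  l0 := add_pos_of_nonneg_of_pos h.l0 h'.t0
  e1 := fun D hD => by
    have h1 := h.e1 D hD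
    have h2 := h'.e1 D hD
    rw [map_add, ← h2, h1]
    ring
  e2 := fun D hD => by
    have h1 := h.e2 D hD
    have h2 := h'.e2 D hD
    have h3 := h.e3 D hD
    rw [← h2, h1, h3]
    ring
  e3 := h'.e3
  e4 := fun D hD => by rw [h'.e4 D hD, h.e3 D hD]
  e5 := fun D hD => by rw [h'.e5 D hD, h.e3 D hD]
  e6 := fun D hD => by rw [h'.e6 D hD, h.e3 D hD]
  e7 := h'.e7

theorem Ind.seg (hc : Comb Adm) (hi : Ind Adm S) (h : Seg Adm S l σ S') : Ind Adm S' := by
  obtain ⟨⟨D1, hD1, hj1, ho1⟩, ⟨D2, hD2, hj2, ho2⟩⟩ := hi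
  have hs := h.sg
  constructor
  · have hD := hc σ (-l * σ) D1 D2 hD1 hD2
    refine ⟨_, hD, ?_, ?_⟩
    · rw [h.e2 _ hD, sgl_jD, sgl_oD, hj1, hj2, ho1, ho2]
      ring
    · rw [h.e3 _ hD, sgl_oD, ho1, ho2]
      linear_combination hs
  · have hD := hc 0 σ D1 D2 hD1 hD2
    refine ⟨_, hD, ?_, ?_⟩
    · rw [h.e2 _ hD, sgl_jD, sgl_oD, hj1, hj2, ho1, ho2]
      linear_combination hs
    · rw [h.e3 _ hD, sgl_oD, ho1, ho2]
      ring

theorem Ind.bnc (hc : Comb Adm) (hi : Ind Adm S) (h : Bnc Adm S t a b k S') : Ind Adm S' := by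
  obtain ⟨⟨D1, hD1, hj1, ho1⟩, ⟨D2, hD2, hj2, ho2⟩⟩ := hi
  constructor
  · have hD := hc (-1) t D1 D2 hD1 hD2
    have h2 := h.e2 _ hD
    have h4 := h.e4 _ hD
    rw [sgl_jD, sgl_oD, hj1, hj2, ho1, ho2] at h2
    have hJ : jD ((-1 : F) • D1 + t • D2) S' = 0 := by linear_combination h2
    refine ⟨_, hD, hJ, ?_⟩
    rw [h4, hJ, sgl_oD, ho1, ho2]
    ring
  · have hD := hc (2 * k / a) (-1 - t * (2 * k / a)) D1 D2 hD1 hD2
    have h2 := h.e2 _ hD
    have h4 := h.e4 _ hD
    rw [sgl_jD, sgl_oD, hj1, hj2, ho1, ho2] at h2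
    have hJ : jD ((2 * k / a) • D1 + (-1 - t * (2 * k / a)) • D2) S' = 1 := by
      linear_combination h2
    refine ⟨_, hD, hJ, ?_⟩
    rw [h4, hJ, sgl_oD, ho1, ho2]
    ring

end Pool.Agent.H6.Sm
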