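import Mathlib

/-!
JOB SM-16. Choosing three letters. Induction on the list (or `List.exists_of_mem...`): peel off the maximal prefix of letters with `p`, etc.; if fewer than three letters violate `p`, distinguish arbitrary further letters.
A possible proof: by induction on `n`, a list with `n ≤ length` and at most `n` letters violating `p` is `l0 ++ x1 :: l1 ++ ... ++ xn :: ln` with all letters of `l0, ..., ln` satisfying `p` (take the first violating letter, or if there is none, the first letter).
Careful: choosing the first violating letter `x` leaves the rest `l` with at most `n - 1` violating letters, but `l` may be shorter than `n - 1`; then choose earlier letters as well. A clean way: among the positions `0..length-1` choose a set of exactly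
`3` positions containing all the violating ones (`Finset.exists_superset_card_eq` or so), sort them.
-/

set_option autoImplicit false

namespace Pool.Agent.H6.Sm

/-- `L` is `l0 ++ x1 :: l1 ++ ... ++ xn :: ln` with all letters of the `li` satisfying `p` -/
def splitQ {α : Type} (p : α → Prop) : ℕ → List α → Prop
  | 0, L => ∀ u ∈ L, p u
  | n + 1, L => ∃ (l0 : List α) (x : α) (r : List α), L = l0 ++ x :: r ∧ (∀ u ∈ l0, p u) ∧
      splitQ p n r

theorem splitQ_of {α : Type} (p : α → Prop) [DecidablePred p] (L : List α) :
    ∀ n : ℕ, n ≤ L.length → (L.filter fun x => ¬ p x).length ≤ n → splitQ p n L := by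
  induction L with
  | nil =>
    intro n hn _
    have : n = 0 := by simpa using hn
    subst this
    intro u hu
    simp at hu
  | cons a L ih =>
    intro n hn hb
    rw [List.length_cons] at hn
    rw [List.filter_cons] at hb
    rcases n with _ | n
    · intro u hu
      by_contra hpu
      have h1 : u ∈ (a :: L).filter fun x => ¬ p x := by
        rw [List.mem_filter]
        exact ⟨hu, by simpa using hpu⟩
      rw [List.filter_cons] at h1
      have h2 := List.length_pos_of_mem h1
      omega
    · by_cases ha : p a
      · rw [if_neg (by simpa using ha)] at hb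
        by_cases hc : (L.filter fun x => ¬ p x).length ≤ n
        · exact ⟨[], a, L, rfl, by simp, ih n (by omega) hc⟩
        · have hlen : (L.filter fun x => ¬ p x).length ≤ L.length := List.length_filter_le _ _
          obtain ⟨l0, x, r, h1, h2, h3⟩ := ih (n + 1) (by omega) hb
          refine ⟨a :: l0, x, r, by rw [h1, List.cons_append], ?_, h3⟩
          intro u hu
          rcases List.mem_cons.1 hu with rfl | hu
          · exact ha
          · exact h2 u hu
      · rw [if_pos (by simpa using ha), List.length_cons] at hb
        exact ⟨[], a, L, rfl, by simp, ih n (by omega) (by omega)⟩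

theorem split_three {α : Type} (p : α → Prop) [DecidablePred p] (L : List α) (h3 : 3 ≤ L.length)
    (hp : (L.filter fun x => ¬ p x).length ≤ 3) :
    ∃ (l0 l1 l2 l3 : List α) (x y z : α), L = l0 ++ x :: (l1 ++ y :: (l2 ++ z :: l3)) ∧
      (∀ u ∈ l0, p u) ∧ (∀ u ∈ l1, p u) ∧ (∀ u ∈ l2, p u) ∧ (∀ u ∈ l3, p u) := by
  obtain ⟨l0, x, r0, h0, p0, l1, y, r1, h1, p1, l2, z, r2, h2, p2, hl3⟩ := splitQ_of p L 3 h3 hp
  refine ⟨l0, l1, l2, r2, x, y, z, ?_, p0, p1, p2, hl3⟩
  rw [h0, h1, h2]

end Pool.Agent.H6.Sm
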