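import Pool.Agent.H6.Sm.Bnc

/-!
JOB SM-9. The differential system of three mirrors.

Write `P_i(D) = jD D S_i` (`i = 0, 1, 2`, indices mod 3, `S_{i+1}` comes from `S_i` with `l_i, σ_i`), `o_i = oD D S_i`. From `e2`: `P_{i+1} = - σ_i (P_i + l_i o_i)`, from `e4`: `o_{i+1} = 2 k_{i+1} P_{i+1} / a_{i+1} - σ_i o_i`.
Eliminating `o_i = - (σ_i P_{i+1} + P_i) / l_i`: `(2 k_i / a_i + 1 / l_{i-1} + 1 / l_i) P_i + σ_{i-1} P_{i-1} / l_{i-1} + σ_i P_{i+1} / l_i = 0` for `i = 0, 1, 2` and all admissible `D`.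
`(P_0, P_1)` takes the values `(0, 1)` and `(1, 0)` (`Ind`, and `P_1 = - σ_0 (P_0 + l_0 o_0)`), so comparing coefficients, with `e = σ_0 σ_1 σ_2`:
`2 k_0 / a_0 = (e l_1 - l_0 - l_2) / (l_0 l_2)`, `2 k_1 / a_1 = (e l_2 - l_0 - l_1) / (l_0 l_1)`, `2 k_2 / a_2 = (e l_0 - l_1 - l_2) / (l_1 l_2)`.
`δ0` := the admissible `D` with `P_0 = 0`, `o_0 = 1`: then `P_1 = - σ_0 l_0`, `P_2 = σ_2 l_2` (from `e2` for `S_2 → S_0`: `P_2 + l_2 o_2 = 0`, and `σ_2 o_2 = - o_0 = - 1`). `D l_i = b_{i+1} P_{i+1} / a_{i+1} - b_i P_i / a_i` (`e1`, `e3`).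
With `c_0 = b_0 / a_0`, `c_1 = σ_0 b_1 / a_1`, `c_2 = σ_2 b_2 / a_2` this gives `a0 a1 a2`. `D (b / a) = - (1 + (b/a)^2) (σ o - k p)` (from `e5 e6 sq`) gives `a3` (`σ_2 o_2 = -1`, `P_0 = 0`), `a4` (`σ_0 - k_1 P_1 / a_1 = σ_0 (1 + l_0 k_1 / a_1)`),
`a5` (`σ_1 o_1 = 2 k_2 P_2 / a_2 - o_2`, `o_2 = - σ_2`, so the rate is `k_2 P_2 / a_2 + σ_2 = σ_2 (1 + l_2 k_2 / a_2)`).
`δ1` := the admissible `D` with `P_1 = 0`, `o_1 = σ_0`: then `o_0 = - 1`, `P_0 = l_0`, `P_2 = - σ_1 σ_0 l_1`, and similarly `b0 ... b5`.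
`rel`: apply `δ0` to `2 k_0 l_0 l_2 = a_0 (e l_1 - l_0 - l_2)`; `δ0 k_0 = k_0' P_0 / a_0 = 0` by `e7`, `δ0 a_0 = b_0 (- 1)`; divide by `a_0`.
-/

set_option autoImplicit false
set_option linter.unusedVariables false

namespace Pool.Agent.H6.Sm

variable {F : Type} [Field F] [LinearOrder F] [IsStrictOrderedRing F]

theorem thr_sg {F : Type} [Field F] {s : F} (hs : s ^ 2 = 1) (D : Derivation ℤ F F) : D s = 0 := by
  rcases sq_eq_one_iff.mp hs with h | h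
  · rw [h]; exact D.map_one_eq_zero
  · rw [h, map_neg, D.map_one_eq_zero, neg_zero]

theorem thr_cot {F : Type} [Field F] {a b rate : F} (D : Derivation ℤ F F)
    (hsq : a ^ 2 + b ^ 2 = 1) (ha : a ≠ 0) (hb : D b = -a * rate) (ha' : D a = b * rate) :
    D (b / a) = -(1 + (b / a) ^ 2) * rate := by
  rw [Derivation.leibniz_div, hb, ha']
  simp only [smul_eq_mul]
  field_simp
  ring

theorem three {Adm : Derivation ℤ F F → Prop} (hc : Comb Adm) {S0 S1 S2 : Stt F}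
    {l0 l1 l2 σ0 σ1 σ2 a0 b0 k0 a1 b1 k1 a2 b2 k2 : F}
    (h0 : Arr Adm S2 l2 σ2 a0 b0 k0 S0) (h1 : Arr Adm S0 l0 σ0 a1 b1 k1 S1)
    (h2 : Arr Adm S1 l1 σ1 a2 b2 k2 S2) (hi : Ind Adm S0) :
    ∃ (e c0 c1 c2 : F) (δ0 δ1 : Derivation ℤ F F), (e = 1 ∨ e = -1) ∧
      Tri e l0 l1 l2 c0 c1 c2 δ0 δ1 := by
  obtain ⟨⟨D, hD, hDj, hDo⟩, ⟨D', hD', hDj', hDo'⟩⟩ := hi
  have s0 := h1.sg
  have s1 := h2.sg
  have s2 := h0.sg
  have n0 : l0 ≠ 0 := h1.l0.ne'
  have n1 : l1 ≠ 0 := h2.l0.ne'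
  have n2 : l2 ≠ 0 := h0.l0.ne'
  have m0 := h0.a0
  have m1 := h1.a0
  have m2 := h2.a0
  -- the second derivation
  obtain ⟨δ, hδ⟩ : ∃ δ : Derivation ℤ F F, δ = l0 • D' + (-1 : F) • D := ⟨_, rfl⟩
  have hA : Adm δ := by rw [hδ]; exact hc _ _ _ _ hD' hD
  have hjl : ∀ S : Stt F, jD δ S = l0 * jD D' S - jD D S := by
    intro S
    simp only [jD, hδ, Derivation.add_apply, Derivation.smul_apply, smul_eq_mul]
    ring
  have hol : ∀ S : Stt F, oD δ S = l0 * oD D' S - oD D S := by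
    intro S
    simp only [oD, hδ, Derivation.add_apply, Derivation.smul_apply, smul_eq_mul]
    ring
  -- values at D
  have P1 : jD D S1 = -σ0 * l0 := by
    have := h1.e2 D hD
    rw [hDj, hDo] at this
    linear_combination this
  have o2 : oD D S2 = -σ2 := by
    have := h0.e4 D hD
    rw [hDj, hDo] at this
    linear_combination σ2 * this - (oD D S2) * s2
  have P2 : jD D S2 = σ2 * l2 := by
    have := h0.e2 D hD
    rw [hDj, o2] at this
    linear_combination σ2 * this - (jD D S2 - l2 * σ2) * s2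
  -- values at δ
  have Q0 : jD δ S0 = l0 := by rw [hjl, hDj, hDj']; ring
  have q0 : oD δ S0 = -1 := by rw [hol, hDo, hDo']; ring
  have Q1 : jD δ S1 = 0 := by
    have := h1.e2 δ hA
    rw [Q0, q0] at this
    linear_combination this
  have q1 : oD δ S1 = σ0 := by
    have := h1.e4 δ hA
    rw [Q1, q0] at this
    linear_combination this
  have Q2 : jD δ S2 = -(σ0 * σ1) * l1 := by
    have := h2.e2 δ hA
    rw [Q1, q1] at this
    linear_combination this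
  obtain ⟨e, he⟩ : ∃ e : F, e = σ0 * σ1 * σ2 := ⟨_, rfl⟩
  have he2 : e ^ 2 = 1 := by
    rw [he, mul_pow, mul_pow, s0, s1, s2]; ring
  -- the curvatures
  have K1 : l0 * l1 * (2 * k1 / a1) = e * l2 - l0 - l1 := by
    have E4 := h1.e4 D hD
    have E2 := h2.e2 D hD
    rw [E4, P1, P2, hDo] at E2
    rw [he]
    have s0' : σ0 * σ0 = 1 := by rw [← sq]; exact s0
    have s1' : σ1 * σ1 = 1 := by rw [← sq]; exact s1
    have E2' : (σ0 * σ0) * (σ1 * σ1) * (l0 + l1 * (1 + l0 * (2 * k1 / a1))) =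
        σ0 * σ1 * σ2 * l2 := by
      linear_combination (-σ0 * σ1) * E2
    rw [s0', s1'] at E2'
    linear_combination E2'
  have o1 : oD D S1 = -σ0 * (1 + l0 * (2 * k1 / a1)) := by
    have E4 := h1.e4 D hD
    rw [E4, P1, hDo]
    ring
  have K2 : l1 * l2 * (2 * k2 / a2) = e * l0 - l1 - l2 := by
    have E4 := h2.e4 D hD
    rw [o1, o2, P2] at E4
    have s2' : σ2 * σ2 = 1 := by rw [← sq]; exact s2
    have E4' : (σ2 * σ2) * l2 * (2 * k2 / a2) =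
        -(σ2 * σ2) - e * (1 + l0 * (2 * k1 / a1)) := by
      rw [he]
      linear_combination (-σ2) * E4
    rw [s2'] at E4'
    have E5 : l1 * l2 * (2 * k2 / a2) = -l1 - e * l1 - e * (l0 * l1 * (2 * k1 / a1)) := by
      linear_combination l1 * E4'
    rw [E5, K1]
    linear_combination (-l2) * he2
  have K0 : l0 * l2 * (2 * k0 / a0) = e * l1 - l0 - l2 := by
    have E4 := h0.e4 δ hA
    have E2 := h0.e2 δ hA
    rw [Q0, q0] at E4
    rw [Q0, Q2] at E2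
    rw [he]
    linear_combination (-l2) * E4 + E2
  have d0 : ∀ E : Derivation ℤ F F, E e = 0 := fun E => thr_sg he2 E
  have hb0 := thr_cot (rate := σ2 * oD D S2 - k0 * (jD D S0 / a0)) D h0.sq m0
    (h0.e5 D hD) (h0.e6 D hD)
  have hb1 := thr_cot (rate := σ0 * oD D S0 - k1 * (jD D S1 / a1)) D h1.sq m1
    (h1.e5 D hD) (h1.e6 D hD)
  have hb2 := thr_cot (rate := σ1 * oD D S1 - k2 * (jD D S2 / a2)) D h2.sq m2
    (h2.e5 D hD) (h2.e6 D hD)
  have gb0 := thr_cot (rate := σ2 * oD δ S2 - k0 * (jD δ S0 / a0)) δ h0.sq m0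
    (h0.e5 δ hA) (h0.e6 δ hA)
  have gb1 := thr_cot (rate := σ0 * oD δ S0 - k1 * (jD δ S1 / a1)) δ h1.sq m1
    (h1.e5 δ hA) (h1.e6 δ hA)
  have gb2 := thr_cot (rate := σ1 * oD δ S1 - k2 * (jD δ S2 / a2)) δ h2.sq m2
    (h2.e5 δ hA) (h2.e6 δ hA)
  have w1 : D l0 = -l0 * (σ0 * (b1 / a1)) := by
    have E1 := h1.e1 D hD
    have E0 := h0.e3 D hD
    rw [P1] at E1
    rw [hDj] at E0
    linear_combination E1 - E0
  have w2 : D l1 = l0 * (σ0 * (b1 / a1)) + l2 * (σ2 * (b2 / a2)) := by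
    have E1 := h2.e1 D hD
    have E0 := h1.e3 D hD
    rw [P2] at E1
    rw [P1] at E0
    linear_combination E1 - E0
  have w3 : D l2 = -l2 * (σ2 * (b2 / a2)) := by
    have E1 := h0.e1 D hD
    have E0 := h2.e3 D hD
    rw [hDj] at E1
    rw [P2] at E0
    linear_combination E1 - E0
  have sq1 : (σ0 * (b1 / a1)) ^ 2 = (b1 / a1) ^ 2 := by rw [mul_pow, s0, one_mul]
  have sq2 : (σ2 * (b2 / a2)) ^ 2 = (b2 / a2) ^ 2 := by rw [mul_pow, s2, one_mul]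
  have r1 : l0 * (2 * k1 / a1) = (e * l2 - l0 - l1) / l1 := by
    rw [eq_div_iff n1, ← K1]; ring
  have r2 : l2 * (2 * k2 / a2) = (e * l0 - l1 - l2) / l1 := by
    rw [eq_div_iff n1, ← K2]; ring
  have r2' : l1 * (2 * k2 / a2) = (e * l0 - l1 - l2) / l2 := by
    rw [eq_div_iff n2, ← K2]; ring
  have r0 : l0 * (2 * k0 / a0) = (e * l1 - l0 - l2) / l2 := by
    rw [eq_div_iff n2, ← K0]; ring
  refine ⟨e, b0 / a0, σ0 * (b1 / a1), σ2 * (b2 / a2), D, δ, sq_eq_one_iff.mp he2, ?_⟩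
  refine ⟨h1.l0, h2.l0, h0.l0, w1, w2, w3, ?_, ?_, ?_, ?_, ?_, ?_, ?_, ?_, ?_, ?_⟩
  · -- a3
    rw [hb0, hDj, o2]
    linear_combination (1 + (b0 / a0) ^ 2) * s2
  · -- a4
    rw [Derivation.leibniz, thr_sg s0 D, hb1, smul_zero, add_zero, smul_eq_mul, sq1, hDo, P1]
    have e1 : σ0 * (-(1 + (b1 / a1) ^ 2) * (σ0 * 1 - k1 * (-σ0 * l0 / a1))) =
        -(1 + (b1 / a1) ^ 2) * σ0 ^ 2 * (1 + l0 * (2 * k1 / a1) / 2) := by ring
    rw [e1, s0, r1]
    field_simp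
    ring
  · -- a5
    rw [Derivation.leibniz, thr_sg s2 D, hb2, smul_zero, add_zero, smul_eq_mul, sq2]
    have e1 : σ1 * oD D S1 - k2 * (jD D S2 / a2) = σ2 * (1 + l2 * (2 * k2 / a2) / 2) := by
      have E4 := h2.e4 D hD
      rw [o2, P2] at E4
      rw [P2]
      linear_combination E4
    rw [e1, r2]
    have e2 : σ2 * (-(1 + (b2 / a2) ^ 2) * (σ2 * (1 + (e * l0 - l1 - l2) / l1 / 2))) =
        -(1 + (b2 / a2) ^ 2) * σ2 ^ 2 * (1 + (e * l0 - l1 - l2) / l1 / 2) := by ring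
    rw [e2, s2]
    field_simp
    ring
  · -- b0
    have E1 := h1.e1 δ hA
    have E0 := h0.e3 δ hA
    rw [Q1] at E1
    rw [Q0] at E0
    linear_combination E1 - E0
  · -- b1
    have E1 := h2.e1 δ hA
    have E0 := h1.e3 δ hA
    rw [Q2] at E1
    rw [Q1] at E0
    rw [he]
    linear_combination E1 - E0 + l1 * σ0 * σ1 * (b2 / a2) * s2 
  · -- b2
    have E1 := h0.e1 δ hA
    have E0 := h2.e3 δ hA
    rw [Q0] at E1
    rw [Q2] at E0
    rw [he]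
    linear_combination E1 - E0 - l1 * σ0 * σ1 * (b2 / a2) * s2
  · -- b3
    rw [gb0]
    have e1 : σ2 * oD δ S2 - k0 * (jD δ S0 / a0) = 1 + l0 * (2 * k0 / a0) / 2 := by
      have E4 := h0.e4 δ hA
      rw [q0, Q0] at E4
      rw [Q0]
      linear_combination E4
    rw [e1, r0]
    field_simp
    ring
  · -- b4
    rw [Derivation.leibniz, thr_sg s0 δ, gb1, smul_zero, add_zero, smul_eq_mul, sq1, q0, Q1]
    linear_combination (1 + (b1 / a1) ^ 2) * s0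
  · -- b5
    rw [Derivation.leibniz, thr_sg s2 δ, gb2, smul_zero, add_zero, smul_eq_mul, sq2, q1, Q2]
    have e1 : σ2 * (-(1 + (b2 / a2) ^ 2) * (σ1 * σ0 - k2 * (-(σ0 * σ1) * l1 / a2))) =
        -e * (1 + (b2 / a2) ^ 2) * (1 + l1 * (2 * k2 / a2) / 2) := by
      rw [he]
      ring
    rw [e1, r2']
    field_simp
    ring
  · -- rel
    obtain ⟨k', hk'⟩ := h0.e7
    have hk := hk' D hD
    rw [hDj, zero_div, mul_zero] at hk
    have ha := h0.e6 D hD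
    rw [hDj, o2, zero_div, mul_zero, sub_zero] at ha
    have ha2 : D a0 = -b0 := by
      rw [ha]
      linear_combination (-b0) * s2
    have K0' : 2 * k0 * (l0 * l2) = a0 * (e * l1 - l0 - l2) := by
      rw [← K0]
      field_simp
    have hd := congrArg D K0'
    have two0 : D (2 : F) = 0 := by
      have : (2 : F) = 1 + 1 := by norm_num
      rw [this, map_add, D.map_one_eq_zero, add_zero]
    simp only [Derivation.leibniz, map_sub, smul_eq_mul, d0, hk, ha2, w1, w2, w3, two0] at hd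
    have hd2 : a0 * (b0 / a0) = b0 := by field_simp
    have : a0 * (b0 / a0 * (e * l1 - l0 - l2)) =
        a0 * ((e + 1) * (l0 * (σ0 * (b1 / a1)) + l2 * (σ2 * (b2 / a2))) +
          (e * l1 - l0 - l2) * (σ0 * (b1 / a1) + σ2 * (b2 / a2))) := by
      linear_combination hd + (e * l1 - l0 - l2) * hd2 +
        (σ0 * (b1 / a1) + σ2 * (b2 / a2)) * K0'
    exact mul_left_cancel₀ m0 this

end Pool.Agent.H6.Sm
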