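import Pool.Agent.H6.Sm.Bnc

/-!
JOB SM-14. No family, case `e = 1`, degenerate.

`w0 = l0 + l2 - l1`, `w1 = l0 + l1 - l2`, `w2 = l1 + l2 - l0` (so `l0 = (w0 + w1)/2`, `l1 = (w1 + w2)/2`, `l2 = (w0 + w2)/2`); `rel` is `c0 w0 + c1 w1 + c2 w2 = 0`. Suppose `w0 w1 + w1 w2 + w2 w0 = 0`.
From `a0 a1 a2`: `δ0 w1 = (w0 + w2) c2`, `δ0 w2 = (w0 + w1) c1`, `δ0 w0 = - δ0 w1 - δ0 w2`; from `b0 b1 b2`: `δ1 w0 = (w1 + w2) c2`, `δ1 w2 = (w0 + w1) c0`, `δ1 w1 = - δ1 w0 - δ1 w2`.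
Apply `δ0`, `δ1` to `w0 w1 + w1 w2 + w2 w0 = 0`, multiply by `w1 + w2`, `w0 + w2`, and use `(w_i + w_j)(w_i + w_k) = w_i ^ 2`:
`c2 w2 ^ 2 (w0 - w1) + c1 w1 ^ 2 (w0 - w2) = 0`, `c2 w2 ^ 2 (w1 - w0) + c0 w0 ^ 2 (w1 - w2) = 0`.
So `κ := c2 w2 ^ 2 (w1 - w0) = c1 w1 ^ 2 (w0 - w2) = c0 w0 ^ 2 (w2 - w1)`. All `w_i ≠ 0` (if `w0 = 0` then `w1 w2 = 0`, so `l0 = 0` or `l2 = 0`; the others similarly), and they are not all equal (`3 w ^ 2 ≠ 0`).
`κ = 0`: clear if two of the `w_i` are equal; otherwise insert `c_i w_i = κ / (w_i (...))` in `rel`, multiply by `w0 w1 w2 (w2 - w1) (w0 - w2) (w1 - w0)`: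
`κ * (w1 w2 (w0 - w2) (w1 - w0) + w0 w2 (w2 - w1) (w1 - w0) + w0 w1 (w2 - w1) (w0 - w2)) = 0` and the bracket is `3 (w0 + w1 + w2) w0 w1 w2 ≠ 0` (modulo `w0 w1 + w1 w2 + w2 w0 = 0`).
Since at most one of the three differences vanishes, `c0 = 0` or `c1 = 0`; this contradicts `a3` (`δ0 c0 = 1 + c0 ^ 2`) or `b4`.
-/

set_option autoImplicit false

namespace Pool.Agent.H6.Sm

variable {F : Type} [Field F] [LinearOrder F] [IsStrictOrderedRing F]

theorem triD_alg {w0 w1 w2 c0 c1 c2 : F} (hP : w0 * w1 + w1 * w2 + w2 * w0 = 0)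
    (hs : w0 + w1 + w2 ≠ 0) (h0 : w0 ≠ 0) (h1 : w1 ≠ 0) (h2 : w2 ≠ 0)
    (hr : c0 * w0 + c1 * w1 + c2 * w2 = 0)
    (e1 : (w0 + w2) * c2 * (w0 - w1) + (w0 + w1) * c1 * (w0 - w2) = 0)
    (e2 : (w1 + w2) * c2 * (w1 - w0) + (w0 + w1) * c0 * (w1 - w2) = 0)
    (hc0 : c0 ≠ 0) (hc1 : c1 ≠ 0) : False := by
  have f1 : c2 * w2 ^ 2 * (w1 - w0) = c1 * w1 ^ 2 * (w0 - w2) := by
    linear_combination (-(w1 + w2)) * e1 +
      (c2 * (w0 - w1) + c1 * (w0 - w2)) * hP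
  have f2 : c2 * w2 ^ 2 * (w1 - w0) = c0 * w0 ^ 2 * (w2 - w1) := by
    linear_combination (w0 + w2) * e2 -
      (c2 * (w1 - w0) + c0 * (w1 - w2)) * hP
  have f3 : (c2 * w2 ^ 2 * (w1 - w0)) * (3 * ((w0 + w1 + w2) * (w0 * w1 * w2))) = 0 := by
    have g1 : (c2 * w2 ^ 2 * (w1 - w0)) * (w1 * w2 * (w0 - w2) * (w1 - w0) +
        w0 * w2 * (w2 - w1) * (w1 - w0) + w0 * w1 * (w2 - w1) * (w0 - w2)) = 0 := by
      linear_combination (w0 * w1 * w2 * (w2 - w1) * (w0 - w2) * (w1 - w0)) * hr +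
        (w1 * w2 * (w0 - w2) * (w1 - w0)) * f2 + (w0 * w2 * (w2 - w1) * (w1 - w0)) * f1
    have g2 : w1 * w2 * (w0 - w2) * (w1 - w0) + w0 * w2 * (w2 - w1) * (w1 - w0) +
        w0 * w1 * (w2 - w1) * (w0 - w2) = 3 * ((w0 + w1 + w2) * (w0 * w1 * w2)) -
          (w0 * w1 + w1 * w2 + w2 * w0) * (w0 * w1 + w1 * w2 + w2 * w0) := by
      ring
    rw [g2, hP, mul_zero, sub_zero] at g1
    exact g1
  have f4 : c2 * w2 ^ 2 * (w1 - w0) = 0 := by
    rcases mul_eq_zero.1 f3 with h | h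
    · exact h
    · exact absurd h (mul_ne_zero three_ne_zero
        (mul_ne_zero hs (mul_ne_zero (mul_ne_zero h0 h1) h2)))
  have f5 : w0 - w2 = 0 := by
    rw [f4] at f1
    rcases mul_eq_zero.1 f1.symm with h | h
    · exact absurd h (mul_ne_zero hc1 (pow_ne_zero 2 h1))
    · exact h
  have f6 : w2 - w1 = 0 := by
    rw [f4] at f2
    rcases mul_eq_zero.1 f2.symm with h | h
    · exact absurd h (mul_ne_zero hc0 (pow_ne_zero 2 h0))
    · exact h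
  have f7 : 3 * w0 ^ 2 = 0 := by
    have a1 : w2 = w0 := (sub_eq_zero.1 f5).symm
    have a2 : w1 = w0 := (sub_eq_zero.1 f6).symm.trans a1
    rw [a1, a2] at hP
    linear_combination hP
  exact (mul_ne_zero three_ne_zero (pow_ne_zero 2 h0)) f7

theorem no_tri_deg {l0 l1 l2 c0 c1 c2 : F} {δ0 δ1 : Derivation ℤ F F}
    (h : Tri 1 l0 l1 l2 c0 c1 c2 δ0 δ1)
    (hD : (l0 + l2 - l1) * (l0 + l1 - l2) + (l0 + l1 - l2) * (l1 + l2 - l0) +
      (l1 + l2 - l0) * (l0 + l2 - l1) = 0) : False := by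
  have hc0 : c0 ≠ 0 := by
    intro hc
    have h3 := h.a3
    rw [hc, map_zero] at h3
    simp at h3
  have hc1 : c1 ≠ 0 := by
    intro hc
    have h3 := h.b4
    rw [hc, map_zero] at h3
    simp at h3
  have hp0 := h.p0
  have hp1 := h.p1
  have hp2 := h.p2
  refine triD_alg (w0 := l0 + l2 - l1) (w1 := l0 + l1 - l2) (w2 := l1 + l2 - l0) hD ?_ ?_ ?_ ?_
    (c2 := c2) ?_ ?_ ?_ hc0 hc1
  · have : 0 < l0 + l1 + l2 := by positivity
    intro h1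
    apply this.ne'
    linear_combination h1
  · intro h0
    rw [h0] at hD
    have h1 : (l0 + l1 - l2) * (l1 + l2 - l0) = 0 := by linear_combination hD
    rcases mul_eq_zero.1 h1 with h2 | h2
    · exact hp0.ne' (by linear_combination (h0 + h2) / 2)
    · exact hp2.ne' (by linear_combination (h0 + h2) / 2)
  · intro h0
    rw [h0] at hD
    have h1 : (l1 + l2 - l0) * (l0 + l2 - l1) = 0 := by linear_combination hD
    rcases mul_eq_zero.1 h1 with h2 | h2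
    · exact hp1.ne' (by linear_combination (h0 + h2) / 2)
    · exact hp0.ne' (by linear_combination (h0 + h2) / 2)
  · intro h0
    rw [h0] at hD
    have h1 : (l0 + l2 - l1) * (l0 + l1 - l2) = 0 := by linear_combination hD
    rcases mul_eq_zero.1 h1 with h2 | h2
    · exact hp2.ne' (by linear_combination (h0 + h2) / 2)
    · exact hp1.ne' (by linear_combination (h0 + h2) / 2)
  · linear_combination (-1) * h.rel
  · have h1 := congrArg δ0 hD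
    simp only [map_add, map_sub, map_zero, Derivation.leibniz, smul_eq_mul, h.a0, h.a1, h.a2] at h1
    linear_combination h1
  · have h1 := congrArg δ1 hD
    simp only [map_add, map_sub, map_zero, Derivation.leibniz, smul_eq_mul, h.b0, h.b1, h.b2] at h1
    linear_combination h1

end Pool.Agent.H6.Sm
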