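import Pool.Agent.H6.Sm.Bnc
import Pool.Agent.H6.Sm.AlgI

/-!
JOB SM-13. No family, case `e = -1`.

`L = l0 + l1 + l2 > 0`, `s_i = 1 + c_i ^ 2 > 0`, `S = s0 + s1 + s2`. `rel` says `- c0 L = - L (c1 + c2)`, so `c0 = c1 + c2`.
`δ0` of it: `s0 = (s1 + s2) (L / (2 l1) - 1)`, i.e. `2 l1 S = L (s1 + s2)`. `δ1` of it: `s1 = (s0 + s2) (L / (2 l2) - 1)`, i.e. `2 l2 S = L (s0 + s2)`; so `2 l0 S = L (s0 + s1)`. `δ0 L = 0`.
With `y = s0 / (s1 + s2)`: `δ0 c0 = s0`, `δ0 c1 = s1 y`, `δ0 c2 = s2 y`, and `δ0 s_i = 2 c_i δ0 c_i`. Apply `δ0` to `2 l1 S = L (s1 + s2)`, multiply by `(s1 + s2) / L`, and use `2 δ0 l1 = 2 (l0 c1 + l2 c2) = L ((s0 + s1) c1 + (s0 + s2) c2) / S`: with `σ = s1 + s2`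
`2 s0 (s0 (c1 s1 + c2 s2) - σ ^ 2 (c1 + c2)) = S σ ((s0 + s1) c1 + (s0 + s2) c2)` where `s0 = 1 + (c1 + c2) ^ 2`: a polynomial relation `Q(c1, c2) = 0` with integer coefficients;
`Q ≠ 0` because `Q(c, 0) = - 2 c (1 + c ^ 2) (2 (1 + c ^ 2) + 1) ((1 + c ^ 2) + 2)` (left minus right), nonzero at `c = 1`.
But `c1, c2` are algebraically independent by `algIndep_of_der` (`C = ⊥`, the prime field; a derivation vanishes on it): `δ0 c1 δ1 c2 - δ0 c2 δ1 c1 = s1 y * (- s2 y1) - s2 y * s1 = - s1 s2 y (1 + y1)`, `y1 = s1 / (s0 + s2)` (`δ1 c1 = s1`, `δ1 c2 = - s2 y1`).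
-/

set_option autoImplicit false

namespace Pool.Agent.H6.Sm

theorem tm_bot {F : Type} [Field F] (δ : Derivation ℤ F F) : ∀ c ∈ (⊥ : Subfield F), δ c = 0 := by
  intro c hc
  rw [← Subfield.closure_empty] at hc
  induction hc using Subfield.closure_induction with
  | mem x hx => exact absurd hx (Set.notMem_empty x)
  | one => exact Derivation.map_one_eq_zero δ
  | add x y _ _ hx hy => rw [map_add, hx, hy, add_zero]
  | neg x _ hx => rw [map_neg, hx, neg_zero]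
  | inv x _ hx => rw [Derivation.leibniz_inv, hx, smul_zero]
  | mul x y _ _ hx hy => rw [Derivation.leibniz, hx, hy, smul_zero, smul_zero, add_zero]

theorem tm_poly {F : Type} [Field F] [CharZero F] {c1 c2 : F}
    (h : AlgebraicIndependent (⊥ : Subfield F) ![c1, c2])
    (hQ : 2 * (1 + (c1 + c2) ^ 2) * ((1 + (c1 + c2) ^ 2) * (c1 * (1 + c1 ^ 2) + c2 * (1 + c2 ^ 2)) -
      ((1 + c1 ^ 2) + (1 + c2 ^ 2)) ^ 2 * (c1 + c2)) -
      ((1 + (c1 + c2) ^ 2) + (1 + c1 ^ 2) + (1 + c2 ^ 2)) * ((1 + c1 ^ 2) + (1 + c2 ^ 2)) *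
        (((1 + (c1 + c2) ^ 2) + (1 + c1 ^ 2)) * c1 + ((1 + (c1 + c2) ^ 2) + (1 + c2 ^ 2)) * c2) = 0) :
    False := by
  let x : MvPolynomial (Fin 2) (⊥ : Subfield F) := MvPolynomial.X 0
  let y : MvPolynomial (Fin 2) (⊥ : Subfield F) := MvPolynomial.X 1
  let Q : MvPolynomial (Fin 2) (⊥ : Subfield F) :=
    2 * (1 + (x + y) ^ 2) * ((1 + (x + y) ^ 2) * (x * (1 + x ^ 2) + y * (1 + y ^ 2)) -
      ((1 + x ^ 2) + (1 + y ^ 2)) ^ 2 * (x + y)) -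
      ((1 + (x + y) ^ 2) + (1 + x ^ 2) + (1 + y ^ 2)) * ((1 + x ^ 2) + (1 + y ^ 2)) *
        (((1 + (x + y) ^ 2) + (1 + x ^ 2)) * x + ((1 + (x + y) ^ 2) + (1 + y ^ 2)) * y)
  have h0 : MvPolynomial.aeval ![c1, c2] Q = 0 := by
    rw [← hQ]
    simp [Q, x, y]
  have h1 : Q = 0 := (algebraicIndependent_iff.1 h) Q h0
  have h2 : MvPolynomial.aeval ![(1 : F), 0] Q = 0 := by rw [h1, map_zero]
  simp [Q, x, y] at h2
  norm_num at h2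

variable {F : Type} [Field F] [LinearOrder F] [IsStrictOrderedRing F]

theorem no_tri_minus {l0 l1 l2 c0 c1 c2 : F} {δ0 δ1 : Derivation ℤ F F}
    (h : Tri (-1) l0 l1 l2 c0 c1 c2 δ0 δ1) : False := by
  obtain ⟨p0, p1, p2, a0, a1, a2, a3, a4, a5, b0, b1, b2, b3, b4, b5, rel⟩ := h
  have hL : 0 < l0 + l1 + l2 := by positivity
  have hc : c0 = c1 + c2 := by
    have : (l0 + l1 + l2) * (c0 - (c1 + c2)) = 0 := by linear_combination -rel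
    have := (mul_eq_zero.1 this).resolve_left hL.ne'
    linear_combination this
  have s0p : 0 < 1 + c0 ^ 2 := by positivity
  have s1p : 0 < 1 + c1 ^ 2 := by positivity
  have s2p : 0 < 1 + c2 ^ 2 := by positivity
  -- the number `y`
  obtain ⟨y, hy⟩ : ∃ y : F, y = (l0 + l2 - l1) / (2 * l1) := ⟨_, rfl⟩
  obtain ⟨z, hz⟩ : ∃ z : F, z = (l0 + l1 - l2) / (2 * l2) := ⟨_, rfl⟩
  have d1 : δ0 c1 = (1 + c1 ^ 2) * y := by rw [a4, hy]; ring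
  have d2 : δ0 c2 = (1 + c2 ^ 2) * y := by rw [a5, hy]; ring
  have d3 : δ1 c0 = (1 + c0 ^ 2) * z := by rw [b3, hz]; ring
  have d5 : δ1 c2 = -(1 + c2 ^ 2) * z := by rw [b5, hz]; ring
  have hy' : 2 * l1 * y = l0 + l2 - l1 := by rw [hy]; field_simp
  have hz' : 2 * l2 * z = l0 + l1 - l2 := by rw [hz]; field_simp
  have e0 : 1 + c0 ^ 2 = ((1 + c1 ^ 2) + (1 + c2 ^ 2)) * y := by
    have := congrArg δ0 hc
    rw [map_add, a3, d1, d2] at this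
    linear_combination this
  have e1 : 1 + c1 ^ 2 = ((1 + c0 ^ 2) + (1 + c2 ^ 2)) * z := by
    have := congrArg δ1 hc
    rw [map_add, d3, b4, d5] at this
    linear_combination -this
  have yp : 0 < y := by
    have : 0 < ((1 + c1 ^ 2) + (1 + c2 ^ 2)) * y := by rw [← e0]; exact s0p
    exact (mul_pos_iff_of_pos_left (by positivity)).1 this
  have zp : 0 < z := by
    have : 0 < ((1 + c0 ^ 2) + (1 + c2 ^ 2)) * z := by rw [← e1]; exact s1p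
    exact (mul_pos_iff_of_pos_left (by positivity)).1 this
  have hdet : δ0 c1 * δ1 c2 - δ0 c2 * δ1 c1 ≠ 0 := by
    rw [d1, d2, d5, b4]
    have : 0 < (1 + c1 ^ 2) * (1 + c2 ^ 2) * y * (1 + z) := by positivity
    intro h0
    apply this.ne'
    linear_combination -h0
  have hind := algIndep_of_der (⊥ : Subfield F) δ0 δ1 (tm_bot δ0) (tm_bot δ1) hdet
  -- `2 l1 S = L (s1 + s2)` etc.
  have f1 : 2 * l1 * ((1 + c0 ^ 2) + (1 + c1 ^ 2) + (1 + c2 ^ 2)) =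
      (l0 + l1 + l2) * ((1 + c1 ^ 2) + (1 + c2 ^ 2)) := by
    linear_combination (2 * l1) * e0 + ((1 + c1 ^ 2) + (1 + c2 ^ 2)) * hy'
  have f2 : 2 * l2 * ((1 + c0 ^ 2) + (1 + c1 ^ 2) + (1 + c2 ^ 2)) =
      (l0 + l1 + l2) * ((1 + c0 ^ 2) + (1 + c2 ^ 2)) := by
    linear_combination (2 * l2) * e1 + ((1 + c0 ^ 2) + (1 + c2 ^ 2)) * hz'
  have f0 : 2 * l0 * ((1 + c0 ^ 2) + (1 + c1 ^ 2) + (1 + c2 ^ 2)) =
      (l0 + l1 + l2) * ((1 + c0 ^ 2) + (1 + c1 ^ 2)) := by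
    linear_combination -f1 - f2
  -- apply `δ0` to `f1`
  have sq : ∀ c : F, δ0 (c ^ 2) = 2 * c * δ0 c := by
    intro c
    rw [pow_two, Derivation.leibniz, smul_eq_mul]; ring
  have o : δ0 (1 : F) = 0 := Derivation.map_one_eq_zero δ0
  have t : δ0 (2 : F) = 0 := by
    have : (2 : F) = 1 + 1 := by norm_num
    rw [this, map_add, o, add_zero]
  have g := congrArg δ0 f1
  simp only [Derivation.leibniz, map_add, smul_eq_mul, sq, o, t, a0, a1, a2, a3, d1, d2] at g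
  have hS : 0 < (1 + c0 ^ 2) + (1 + c1 ^ 2) + (1 + c2 ^ 2) := by positivity
  apply tm_poly hind
  rw [← hc]
  -- multiply by `L`
  have hfin : (l0 + l1 + l2) * (2 * (1 + c0 ^ 2) * ((1 + c0 ^ 2) * (c1 * (1 + c1 ^ 2) + c2 * (1 + c2 ^ 2)) -
      ((1 + c1 ^ 2) + (1 + c2 ^ 2)) ^ 2 * c0) -
      ((1 + c0 ^ 2) + (1 + c1 ^ 2) + (1 + c2 ^ 2)) * ((1 + c1 ^ 2) + (1 + c2 ^ 2)) *
        (((1 + c0 ^ 2) + (1 + c1 ^ 2)) * c1 + ((1 + c0 ^ 2) + (1 + c2 ^ 2)) * c2)) = 0 := by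
    linear_combination
      (-(((1 + c0 ^ 2) + (1 + c1 ^ 2) + (1 + c2 ^ 2)) * ((1 + c1 ^ 2) + (1 + c2 ^ 2)))) * g +
      ((1 + c1 ^ 2) + (1 + c2 ^ 2)) * (2 * c0 * (1 + c0 ^ 2) +
        2 * (c1 * (1 + c1 ^ 2) + c2 * (1 + c2 ^ 2)) * y) * f1 +
      ((1 + c0 ^ 2) + (1 + c1 ^ 2) + (1 + c2 ^ 2)) * ((1 + c1 ^ 2) + (1 + c2 ^ 2)) * c1 * f0 +
      ((1 + c0 ^ 2) + (1 + c1 ^ 2) + (1 + c2 ^ 2)) * ((1 + c1 ^ 2) + (1 + c2 ^ 2)) * c2 * f2 +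
      (2 * (l0 + l1 + l2) * (1 + c0 ^ 2) * (c1 * (1 + c1 ^ 2) + c2 * (1 + c2 ^ 2))) * e0
  exact (mul_eq_zero.1 hfin).resolve_left hL.ne'

end Pool.Agent.H6.Sm
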