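import Mathlib

/-!
JOB SM-12. A polynomial system without nonzero solutions.

`E (c0, c1, c2; w0, w1, w2)`. With `s = 1 + c ^ 2`, `s2 = 1 + c2 ^ 2`, `E0 = E c c c2 w0 w1 w2`, `E1 = E c c c2 w1 w0 w2` one has the identities (ring)
`E0 - E1 = (w0 - w1) * ((2 s + s2) w2 - (c c2 - c ^ 2) (w0 + w1))` and `- (E0 + E1) = s2 w2 (w0 + w1) - 2 s w0 w1 + (c ^ 2 - c2 c) ((w0 + w1) (w0 + w2) + (w1 + w0) (w1 + w2))`.
* `w0 = w1`: `w2 = - 2 c w0 / c2` by `hR`, and `c2 ^ 2 (E0 + E1) = - 2 w0 ^ 2 c2 G1`, so `w0 = 0`.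
* `(2 s + s2) w2 = (c c2 - c ^ 2) u`, `u = w0 + w1`: by `hR` `w2 = - c u / c2`, multiply by `c2`: `c u G2 = 0`, so `u = 0`, `w2 = 0`, and `E0 + E1 = 2 s w0 w1 = - 2 s w0 ^ 2`.
-/

set_option autoImplicit false

namespace Pool.Agent.H6.Sm

/-- the quadratic form (in `w`) of the second order condition -/
def EE {k : Type} [Field k] (c0 c1 c2 w0 w1 w2 : k) : k :=
  (1 + c0 ^ 2) * w0 * (w1 + w2) - ((1 + c1 ^ 2) + (1 + c2 ^ 2)) * w1 * w2 -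
    c0 * ((w1 + w0) * (w1 + w2) * c1 + (w2 + w0) * (w2 + w1) * c2) +
    c1 * c2 * ((w1 + w0) * (w1 + w2) + (w2 + w0) * (w2 + w1))

theorem no_sol {k : Type} [Field k] {c c2 w0 w1 w2 : k} (h2 : (2 : k) ≠ 0)
    (hR : c * w0 + c * w1 + c2 * w2 = 0) (hE0 : EE c c c2 w0 w1 w2 = 0)
    (hE1 : EE c c c2 w1 w0 w2 = 0) (hc : c ≠ 0) (hc2 : c2 ≠ 0) (hs : 1 + c ^ 2 ≠ 0)
    (hG1 : -2 * c - c2 - 4 * c ^ 3 + 5 * c ^ 2 * c2 - 4 * c * c2 ^ 2 ≠ 0)
    (hG2 : 3 + 2 * c ^ 2 + 2 * c2 ^ 2 - c * c2 ≠ 0) : w0 = 0 ∧ w1 = 0 ∧ w2 = 0 := by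
  have hD : EE c c c2 w0 w1 w2 - EE c c c2 w1 w0 w2 =
      (w0 - w1) * ((2 * (1 + c ^ 2) + (1 + c2 ^ 2)) * w2 - (c * c2 - c ^ 2) * (w0 + w1)) := by
    unfold EE; ring
  have hS : -(EE c c c2 w0 w1 w2 + EE c c c2 w1 w0 w2) =
      (1 + c2 ^ 2) * w2 * (w0 + w1) - 2 * (1 + c ^ 2) * w0 * w1 +
      (c ^ 2 - c2 * c) * ((w0 + w1) * (w0 + w2) + (w1 + w0) * (w1 + w2)) := by
    unfold EE; ring
  rw [hE0, hE1] at hD hS
  have hD' : (w0 - w1) * ((2 * (1 + c ^ 2) + (1 + c2 ^ 2)) * w2 - (c * c2 - c ^ 2) * (w0 + w1)) = 0 := by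
    rw [← hD]; ring
  rcases mul_eq_zero.1 hD' with h | h
  · have h01 : w1 = w0 := by linear_combination -h
    subst h01
    have hw0 : 2 * w1 ^ 2 * (c2 * (-2 * c - c2 - 4 * c ^ 3 + 5 * c ^ 2 * c2 - 4 * c * c2 ^ 2)) = 0 := by
      linear_combination (-c2 ^ 2) * hS -
        c2 * ((1 + c2 ^ 2) * 2 * w1 + 4 * w1 * (c ^ 2 - c2 * c)) * hR
    have hw1 : w1 = 0 := by
      rcases mul_eq_zero.1 hw0 with h' | h'
      · rcases mul_eq_zero.1 h' with h'' | h''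
        · exact absurd h'' h2
        · exact pow_eq_zero_iff (two_ne_zero) |>.1 h''
      · exact absurd h' (mul_ne_zero hc2 hG1)
    subst hw1
    refine ⟨rfl, rfl, ?_⟩
    have : c2 * w2 = 0 := by linear_combination hR
    exact (mul_eq_zero.1 this).resolve_left hc2
  · have hu : c * (w0 + w1) * (3 + 2 * c ^ 2 + 2 * c2 ^ 2 - c * c2) = 0 := by
      linear_combination (-c2) * h + (2 * (1 + c ^ 2) + (1 + c2 ^ 2)) * hR
    have hu' : w0 + w1 = 0 := by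
      rcases mul_eq_zero.1 hu with h' | h'
      · exact (mul_eq_zero.1 h').resolve_left hc
      · exact absurd h' hG2
    have hw2 : w2 = 0 := by
      have : c2 * w2 = 0 := by linear_combination hR - c * hu'
      exact (mul_eq_zero.1 this).resolve_left hc2
    have h1 : w1 = -w0 := by linear_combination hu'
    subst hw2
    subst h1
    have : 2 * (1 + c ^ 2) * w0 ^ 2 = 0 := by linear_combination -hS
    have h0 : w0 = 0 := by
      rcases mul_eq_zero.1 this with h' | h'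
      · exact absurd h' (mul_ne_zero h2 hs)
      · exact pow_eq_zero_iff (two_ne_zero) |>.1 h'
    exact ⟨h0, by rw [h0]; ring, rfl⟩

end Pool.Agent.H6.Sm
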