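import Mathlib

/-!
JOB SM-11. Specialisation. `A = C[x, y] ⊆ F` is a polynomial ring, `m = (x - p, y - q)` a maximal ideal of `A` (kernel of evaluation at `(p, q)`); the localisation of `A` at `m` inside `F` is a local subring, dominated by a valuation subring
(`LocalSubring.exists_le_valuationSubring`, `LocalSubring.ofPrime`, file `Mathlib/RingTheory/Valuation/LocalSubring.lean`). Elements of the maximal ideal of the local subring have valuation `< 1`.
(Alternative: evaluation `A → C` at `(p, q)` is a ring homomorphism to a field; extend it to a valuation ring.)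
-/

set_option autoImplicit false

namespace Pool.Agent.H6.Sm

theorem exists_place {F : Type} [Field F] (C : Subfield F) {x y : F}
    (h : AlgebraicIndependent C ![x, y]) {p q : F} (hp : p ∈ C) (hq : q ∈ C) :
    ∃ O : ValuationSubring F, (∀ c ∈ C, c ∈ O) ∧ O.valuation (x - p) < 1 ∧
      O.valuation (y - q) < 1 := by
  let A : Subalgebra C F := Algebra.adjoin C (Set.range ![x, y])
  let e : MvPolynomial (Fin 2) C ≃ₐ[C] A := h.aevalEquiv
  let ev : MvPolynomial (Fin 2) C →ₐ[C] C := MvPolynomial.aeval ![(⟨p, hp⟩ : C), ⟨q, hq⟩]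
  let φ : A →ₐ[C] C := ev.comp e.symm.toAlgHom
  have hxA : x ∈ A := Algebra.subset_adjoin ⟨0, rfl⟩
  have hyA : y ∈ A := Algebra.subset_adjoin ⟨1, rfl⟩
  have hx : φ ⟨x, hxA⟩ = ⟨p, hp⟩ := by
    have h1 : e (MvPolynomial.X 0) = ⟨x, hxA⟩ := by
      apply Subtype.ext
      exact (h.algebraMap_aevalEquiv _).trans (by simp)
    show ev (e.symm ⟨x, hxA⟩) = _
    rw [← h1, AlgEquiv.symm_apply_apply]
    simp [ev]
  have hy : φ ⟨y, hyA⟩ = ⟨q, hq⟩ := by
    have h1 : e (MvPolynomial.X 1) = ⟨y, hyA⟩ := by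
      apply Subtype.ext
      exact (h.algebraMap_aevalEquiv _).trans (by simp)
    show ev (e.symm ⟨y, hyA⟩) = _
    rw [← h1, AlgEquiv.symm_apply_apply]
    simp [ev]
  let I : Ideal A.toSubring := RingHom.ker (φ : A →+* C)
  have hI : I ≠ ⊤ := by
    intro hI
    have h1 : (1 : A.toSubring) ∈ I := by rw [hI]; trivial
    have h2 : φ (1 : A) = 0 := h1
    rw [map_one] at h2
    exact one_ne_zero h2
  obtain ⟨O, hO, hO'⟩ := Ideal.image_subset_nonunits_valuationSubring (A := A.toSubring) I hI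
  refine ⟨O, ?_, ?_, ?_⟩
  · intro c hc
    exact hO (A.algebraMap_mem ⟨c, hc⟩)
  · have hm : x - p ∈ A := A.sub_mem hxA (A.algebraMap_mem ⟨p, hp⟩)
    have hk : (⟨x - p, hm⟩ : A.toSubring) ∈ I := by
      show φ ⟨x - p, hm⟩ = 0
      have : (⟨x - p, hm⟩ : A) = ⟨x, hxA⟩ - algebraMap C A ⟨p, hp⟩ := rfl
      rw [this, map_sub, hx, AlgHom.commutes]
      simp
    exact (ValuationSubring.mem_nonunits_iff O).1 (hO' ⟨_, hk, rfl⟩)
  · have hm : y - q ∈ A := A.sub_mem hyA (A.algebraMap_mem ⟨q, hq⟩)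
    have hk : (⟨y - q, hm⟩ : A.toSubring) ∈ I := by
      show φ ⟨y - q, hm⟩ = 0
      have : (⟨y - q, hm⟩ : A) = ⟨y, hyA⟩ - algebraMap C A ⟨q, hq⟩ := rfl
      rw [this, map_sub, hy, AlgHom.commutes]
      simp
    exact (ValuationSubring.mem_nonunits_iff O).1 (hO' ⟨_, hk, rfl⟩)

end Pool.Agent.H6.Sm
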