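import Pool.Agent.H6.Sm.Bnc
import Pool.Agent.H6.Sm.AlgI
import Pool.Agent.H6.Sm.Place
import Pool.Agent.H6.Sm.NoSol

/-!
JOB SM-15. No family, case `e = 1`, nondegenerate.

`w0 = l0 + l2 - l1`, `w1 = l0 + l1 - l2`, `w2 = l1 + l2 - l0`, `Δ = w0 w1 + w1 w2 + w2 w0 ≠ 0`.
1. `tri_eqs`: `rel` is `c0 w0 + c1 w1 + c2 w2 = 0`; `δ0` of it times `w1 + w2 = 2 l1` is `EE c0 c1 c2 w0 w1 w2 = 0`; `δ1` of it times `w0 + w2 = 2 l2` is `EE c1 c0 c2 w1 w0 w2 = 0` (both are checked identities, no use of `rel`).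
2. `A = c0 c1 c2 - c0 - c1 - c2`, `B = c0 c1 + c1 c2 + c2 c0 - 1` (real and imaginary part of `∏ (c_j + i)`): `δ A * B = A * δ B` for `δ = δ0, δ1` (the three angle rates of `a3 a4 a5` (`b3 b4 b5`) add up to 0), `A ^ 2 + B ^ 2 = ∏ (1 + c_j ^ 2) ≠ 0`.
   So there are `X, Y`, not both zero, with `δ0, δ1` zero on them and `A Y = B X`: `(A / B, 1)` if `B ≠ 0`, `(1, 0)` if `B = 0`. Let `C` be the subfield of common constants of `δ0, δ1`.
3. `c0, c1` are algebraically independent over `C` (`algIndep_of_der`): the determinant is `(1 + c0 ^ 2) (1 + c1 ^ 2) (1 - w2 ^ 2 / (4 l1 l2))` up to sign and `4 l1 l2 - w2 ^ 2 = Δ`.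
4. `A Y = B X` is `c2 * ((c0 c1 - 1) Y - (c0 + c1) X) = (c0 c1 - 1) X + (c0 + c1) Y`. Choose `c = 1` if `X ≠ 0` and `Y ≠ 0`, otherwise `c = 2`: then `Den = (c ^ 2 - 1) Y - 2 c X ≠ 0` and `Num = (c ^ 2 - 1) X + 2 c Y ≠ 0`.
   Let `O` be the valuation ring of `exists_place` with `c0, c1 ↦ c`. Then `c2 ∈ O` with residue `d = Num / Den ∈ C`, `d ≠ 0`. Let `w_j` have maximal valuation among `w0, w1, w2` (it is nonzero), `W_i = w_i / w_j ∈ O`, `W_j = 1`.
   The three equations of 1. are homogeneous in `w`, so they hold for `W` and, reducing modulo the maximal ideal of `O`, for the residues, with `c0 = c1 = c`, `c2 = d` in the residue field; `C` embeds in the residue field.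
   `no_sol` contradicts `W_j = 1`. (`c = 1`: `G1 = - (4 d ^ 2 - 4 d + 6)`, `G2 = 5 + 2 d ^ 2 - d`; `c = 2`: `G1 = - (8 d ^ 2 - 19 d + 36)`, `G2 = 11 + 2 d ^ 2 - 2 d`: nonzero in the ordered field `C`; `nlinarith`.)
-/

set_option autoImplicit false

namespace Pool.Agent.H6.Sm

variable {F : Type} [Field F] [LinearOrder F] [IsStrictOrderedRing F]

theorem tri_eqs {l0 l1 l2 c0 c1 c2 : F} {δ0 δ1 : Derivation ℤ F F}
    (h : Tri 1 l0 l1 l2 c0 c1 c2 δ0 δ1) :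
    c0 * (l0 + l2 - l1) + c1 * (l0 + l1 - l2) + c2 * (l1 + l2 - l0) = 0 ∧
      EE c0 c1 c2 (l0 + l2 - l1) (l0 + l1 - l2) (l1 + l2 - l0) = 0 ∧
      EE c1 c0 c2 (l0 + l1 - l2) (l0 + l2 - l1) (l1 + l2 - l0) = 0 := by
  have hR : c0 * (l0 + l2 - l1) + c1 * (l0 + l1 - l2) + c2 * (l1 + l2 - l0) = 0 := by
    have := h.rel
    linear_combination -this
  have hl1 : (2 * l1) ≠ 0 := (mul_pos two_pos h.p1).ne'
  have hl2 : (2 * l2) ≠ 0 := (mul_pos two_pos h.p2).ne'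
  refine ⟨hR, ?_, ?_⟩
  · have h1 := congrArg δ0 hR
    simp only [map_add, map_sub, Derivation.leibniz, smul_eq_mul, map_zero, h.a0, h.a1, h.a2,
      h.a3] at h1
    have a4 : δ0 c1 * (2 * l1) = -(1 + c1 ^ 2) * (l1 - l0 + l2) := by
      rw [h.a4, one_mul, div_mul_cancel₀ _ hl1]
    have a5 : δ0 c2 * (2 * l1) = -(1 + c2 ^ 2) * (l1 - l2 + l0) := by
      rw [h.a5, one_mul, div_mul_cancel₀ _ hl1]
    unfold EE
    linear_combination (2 * l1) * h1 - (l0 + l1 - l2) * a4 - (l1 + l2 - l0) * a5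
  · have h1 := congrArg δ1 hR
    simp only [map_add, map_sub, Derivation.leibniz, smul_eq_mul, map_zero, h.b0, h.b1, h.b2,
      h.b4] at h1
    have b3 : δ1 c0 * (2 * l2) = -(1 + c0 ^ 2) * (l2 - l0 + l1) := by
      rw [h.b3, one_mul, div_mul_cancel₀ _ hl2]
    have b5 : δ1 c2 * (2 * l2) = -(1 + c2 ^ 2) * (l2 - l1 + l0) := by
      rw [h.b5, neg_mul, one_mul, one_mul, div_mul_cancel₀ _ hl2]
    unfold EE
    linear_combination (2 * l2) * h1 - (l0 + l2 - l1) * b3 - (l1 + l2 - l0) * b5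

/-- the common constants of two derivations -/
def trip_const (δ0 δ1 : Derivation ℤ F F) : Subfield F where
  carrier := {x | δ0 x = 0 ∧ δ1 x = 0}
  mul_mem' := by
    rintro a b ⟨ha, ha'⟩ ⟨hb, hb'⟩
    exact ⟨by rw [Derivation.leibniz, ha, hb, smul_zero, smul_zero, add_zero],
      by rw [Derivation.leibniz, ha', hb', smul_zero, smul_zero, add_zero]⟩
  one_mem' := ⟨Derivation.map_one_eq_zero _, Derivation.map_one_eq_zero _⟩
  add_mem' := by
    rintro a b ⟨ha, ha'⟩ ⟨hb, hb'⟩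
    exact ⟨by rw [map_add, ha, hb, add_zero], by rw [map_add, ha', hb', add_zero]⟩
  zero_mem' := ⟨map_zero _, map_zero _⟩
  neg_mem' := by
    rintro a ⟨ha, ha'⟩
    exact ⟨by rw [map_neg, ha, neg_zero], by rw [map_neg, ha', neg_zero]⟩
  inv_mem' := by
    rintro a ⟨ha, ha'⟩
    exact ⟨by rw [Derivation.leibniz_inv, ha, smul_zero],
      by rw [Derivation.leibniz_inv, ha', smul_zero]⟩

theorem trip_mem_const {δ0 δ1 : Derivation ℤ F F} {x : F} :
    x ∈ trip_const δ0 δ1 ↔ δ0 x = 0 ∧ δ1 x = 0 := Iff.rfl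

/-- the logarithmic derivatives of the real and the imaginary part agree -/
theorem trip_rate {c0 c1 c2 r0 r1 r2 : F} {δ : Derivation ℤ F F}
    (h0 : δ c0 = (1 + c0 ^ 2) * r0) (h1 : δ c1 = (1 + c1 ^ 2) * r1)
    (h2 : δ c2 = (1 + c2 ^ 2) * r2) (hr : r0 + r1 + r2 = 0) :
    δ (c0 * c1 * c2 - c0 - c1 - c2) * (c0 * c1 + c1 * c2 + c2 * c0 - 1) =
      (c0 * c1 * c2 - c0 - c1 - c2) * δ (c0 * c1 + c1 * c2 + c2 * c0 - 1) := by
  have hr' : r2 = -r0 - r1 := by linear_combination hr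
  simp only [map_add, map_sub, Derivation.leibniz, smul_eq_mul, Derivation.map_one_eq_zero,
    h0, h1, h2, hr']
  ring

/-- the two constants -/
theorem trip_XY {A B : F} {δ0 δ1 : Derivation ℤ F F} (h0 : δ0 A * B = A * δ0 B)
    (h1 : δ1 A * B = A * δ1 B) :
    ∃ X ∈ trip_const δ0 δ1, ∃ Y ∈ trip_const δ0 δ1, (X ≠ 0 ∨ Y ≠ 0) ∧ A * Y = B * X := by
  by_cases hB : B = 0
  · exact ⟨1, (trip_const δ0 δ1).one_mem, 0, (trip_const δ0 δ1).zero_mem, Or.inl one_ne_zero,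
      by rw [hB]; ring⟩
  · refine ⟨A / B, ?_, 1, (trip_const δ0 δ1).one_mem, Or.inr one_ne_zero, ?_⟩
    · have key : ∀ δ : Derivation ℤ F F, δ A * B = A * δ B → δ (A / B) = 0 := by
        intro δ hδ
        have h2 : δ (A / B * B) = δ A := by rw [div_mul_cancel₀ _ hB]
        rw [Derivation.leibniz, smul_eq_mul, smul_eq_mul] at h2
        have h3 : B * δ (A / B) * B = 0 := by
          have h4 : A / B * B = A := div_mul_cancel₀ _ hB
          linear_combination B * h2 + hδ - δ B * h4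
        have h5 := (mul_eq_zero.1 h3).resolve_right hB
        exact (mul_eq_zero.1 h5).resolve_left hB
      exact ⟨key δ0 h0, key δ1 h1⟩
    · rw [mul_one, mul_div_cancel₀ _ hB]

/-- reduction at the place -/
theorem trip_red {c0 c1 c2 w0 w1 w2 c X Y : F} (C : Subfield F) (O : ValuationSubring F)
    (hCO : ∀ x ∈ C, x ∈ O) (hc : c ∈ C) (hX : X ∈ C) (hY : Y ∈ C)
    (hv0 : O.valuation (c0 - c) < 1) (hv1 : O.valuation (c1 - c) < 1)
    (hcc : c = 1 ∨ c = 2)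
    (hDen : (c ^ 2 - 1) * Y - 2 * c * X ≠ 0) (hNum : (c ^ 2 - 1) * X + 2 * c * Y ≠ 0)
    (hc2 : c2 * ((c0 * c1 - 1) * Y - (c0 + c1) * X) = (c0 * c1 - 1) * X + (c0 + c1) * Y)
    (hw : w0 ≠ 0 ∨ w1 ≠ 0 ∨ w2 ≠ 0)
    (hR : c0 * w0 + c1 * w1 + c2 * w2 = 0) (hE0 : EE c0 c1 c2 w0 w1 w2 = 0)
    (hE1 : EE c1 c0 c2 w1 w0 w2 = 0) : False := by
  set ρ := IsLocalRing.residue O with hρ
  have hunit : ∀ x : O, (x : F) ∈ C → (x : F) ≠ 0 → ρ x ≠ 0 := by
    intro x hx hx0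
    rw [hρ, IsLocalRing.residue_ne_zero_iff_isUnit]
    have hi : (x : F)⁻¹ ∈ O := hCO _ (C.inv_mem hx)
    refine IsUnit.of_mul_eq_one ⟨_, hi⟩ ?_
    apply Subtype.ext
    exact mul_inv_cancel₀ hx0
  have hlt : ∀ x : F, O.valuation x < 1 → x ∈ O := fun x hx =>
    (O.valuation_le_one_iff x).1 hx.le
  have hc0O : c0 ∈ O := by
    have := O.add_mem _ _ (hlt _ hv0) (hCO c hc)
    rwa [sub_add_cancel] at this
  have hc1O : c1 ∈ O := by
    have := O.add_mem _ _ (hlt _ hv1) (hCO c hc)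
    rwa [sub_add_cancel] at this
  set a0 : O := ⟨c0, hc0O⟩ with ha0
  set a1 : O := ⟨c1, hc1O⟩ with ha1
  set cc : O := ⟨c, hCO c hc⟩ with hcc'
  set XX : O := ⟨X, hCO X hX⟩ with hXX
  set YY : O := ⟨Y, hCO Y hY⟩ with hYY
  have r0 : ρ a0 = ρ cc := by
    rw [← sub_eq_zero, ← map_sub, hρ, IsLocalRing.residue_eq_zero_iff]
    exact (O.valuation_lt_one_iff _).2 hv0
  have r1 : ρ a1 = ρ cc := by
    rw [← sub_eq_zero, ← map_sub, hρ, IsLocalRing.residue_eq_zero_iff]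
    exact (O.valuation_lt_one_iff _).2 hv1
  set Dn : O := (cc ^ 2 - 1) * YY - 2 * cc * XX with hDn
  set Nm : O := (cc ^ 2 - 1) * XX + 2 * cc * YY with hNm
  have h2C : (2 : F) ∈ C := by
    have := C.add_mem C.one_mem C.one_mem
    rwa [one_add_one_eq_two] at this
  have hDnC : (Dn : F) ∈ C :=
    C.sub_mem (C.mul_mem (C.sub_mem (pow_mem hc 2) C.one_mem) hY)
      (C.mul_mem (C.mul_mem h2C hc) hX)
  have hDn0 : (Dn : F) ≠ 0 := hDen
  have hNmC : (Nm : F) ∈ C :=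
    C.add_mem (C.mul_mem (C.sub_mem (pow_mem hc 2) C.one_mem) hX)
      (C.mul_mem (C.mul_mem h2C hc) hY)
  have hNm0 : (Nm : F) ≠ 0 := hNum
  set Dn' : O := (a0 * a1 - 1) * YY - (a0 + a1) * XX with hDn'
  set Nm' : O := (a0 * a1 - 1) * XX + (a0 + a1) * YY with hNm'
  have rD : ρ Dn' = ρ Dn := by
    rw [hDn, hDn']
    simp only [map_sub, map_mul, map_add, map_one, map_pow, map_ofNat, r0, r1]
    ring
  have rN : ρ Nm' = ρ Nm := by
    rw [hNm, hNm']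
    simp only [map_sub, map_mul, map_add, map_one, map_pow, map_ofNat, r0, r1]
    ring
  have hρD : ρ Dn ≠ 0 := hunit Dn hDnC hDn0
  have hρD' : ρ Dn' ≠ 0 := by rw [rD]; exact hρD
  have hDu : IsUnit Dn' := by
    rwa [hρ, IsLocalRing.residue_ne_zero_iff_isUnit] at hρD'
  obtain ⟨iD, hiD⟩ := hDu.exists_right_inv
  have hDF : (Dn' : F) * (iD : F) = 1 := by
    have := congrArg (fun x : O => (x : F)) hiD
    exact this
  have hc2' : c2 * (Dn' : F) = (Nm' : F) := hc2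
  have hc2e : c2 = ((Nm' * iD : O) : F) := by
    have h3 : ((Nm' * iD : O) : F) = (Nm' : F) * (iD : F) := rfl
    rw [h3, ← hc2', mul_assoc, hDF, mul_one]
  set a2 : O := Nm' * iD with ha2
  have ha2D : a2 * Dn' = Nm' := by
    rw [ha2, mul_assoc, mul_comm iD, hiD, mul_one]
  set d : F := (Nm : F) / (Dn : F) with hd
  have hdC : d ∈ C := C.div_mem hNmC hDnC
  have hd0 : d ≠ 0 := div_ne_zero hNm0 hDn0
  set dd : O := ⟨d, hCO d hdC⟩ with hdd
  have hddD : dd * Dn = Nm := by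
    apply Subtype.ext
    change d * (Dn : F) = (Nm : F)
    rw [hd, div_mul_cancel₀ _ hDn0]
  have r2 : ρ a2 = ρ dd := by
    have k3 : ρ a2 * ρ Dn' = ρ Nm' := by rw [← map_mul, ha2D]
    have k4 : ρ dd * ρ Dn = ρ Nm := by rw [← map_mul, hddD]
    have h3 : ρ a2 * ρ Dn = ρ dd * ρ Dn := by
      rw [k4, ← rN, ← k3, rD]
    exact mul_right_cancel₀ hρD h3
  -- the weights
  obtain ⟨j, hj⟩ := Finite.exists_max (fun i : Fin 3 => O.valuation (![w0, w1, w2] i))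
  have hwj : ![w0, w1, w2] j ≠ 0 := by
    intro h0
    have hz : ∀ i : Fin 3, ![w0, w1, w2] i = 0 := by
      intro i
      have h3 := hj i
      rw [h0, map_zero] at h3
      exact (map_eq_zero O.valuation).1 (le_antisymm h3 zero_le)
    rcases hw with h | h | h
    · exact h (hz 0)
    · exact h (hz 1)
    · exact h (hz 2)
  set wj := ![w0, w1, w2] j with hwjd
  have hWO : ∀ i : Fin 3, ![w0, w1, w2] i / wj ∈ O := by
    intro i
    rw [← O.valuation_le_one_iff, map_div₀]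
    exact div_le_one_of_le₀ (hj i) zero_le
  set W0 : O := ⟨w0 / wj, hWO 0⟩ with hW0
  set W1 : O := ⟨w1 / wj, hWO 1⟩ with hW1
  set W2 : O := ⟨w2 / wj, hWO 2⟩ with hW2
  have e1 : a0 * W0 + a1 * W1 + a2 * W2 = 0 := by
    apply Subtype.ext
    change c0 * (w0 / wj) + c1 * (w1 / wj) + (a2 : F) * (w2 / wj) = 0
    rw [← hc2e]
    have : c0 * (w0 / wj) + c1 * (w1 / wj) + c2 * (w2 / wj) =
      (c0 * w0 + c1 * w1 + c2 * w2) / wj := by ring
    rw [this, hR, zero_div]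
  have hEs : ∀ u0 u1 u2 v0 v1 v2 t : F, t ≠ 0 → EE u0 u1 u2 v0 v1 v2 = 0 →
      EE u0 u1 u2 (v0 / t) (v1 / t) (v2 / t) = 0 := by
    intro u0 u1 u2 v0 v1 v2 t ht hE
    have : EE u0 u1 u2 (v0 / t) (v1 / t) (v2 / t) = EE u0 u1 u2 v0 v1 v2 / t ^ 2 := by
      unfold EE
      field_simp
    rw [this, hE, zero_div]
  have hEr : ∀ u0 u1 u2 v0 v1 v2 : O, EE (u0 : F) u1 u2 v0 v1 v2 = 0 →
      EE (ρ u0) (ρ u1) (ρ u2) (ρ v0) (ρ v1) (ρ v2) = 0 := by
    intro u0 u1 u2 v0 v1 v2 hE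
    have h3 : (1 + u0 ^ 2) * v0 * (v1 + v2) - ((1 + u1 ^ 2) + (1 + u2 ^ 2)) * v1 * v2 -
      u0 * ((v1 + v0) * (v1 + v2) * u1 + (v2 + v0) * (v2 + v1) * u2) +
      u1 * u2 * ((v1 + v0) * (v1 + v2) + (v2 + v0) * (v2 + v1)) = 0 := by
      apply Subtype.ext
      exact hE
    have h4 := congrArg ρ h3
    simp only [map_sub, map_mul, map_add, map_one, map_pow, map_zero] at h4
    exact h4
  have f1 := congrArg ρ e1
  simp only [map_mul, map_add, map_zero, r0, r1, r2] at f1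
  have f2 : EE (ρ cc) (ρ cc) (ρ dd) (ρ W0) (ρ W1) (ρ W2) = 0 := by
    have := hEr a0 a1 a2 W0 W1 W2 (by
      rw [← hc2e]
      exact hEs c0 c1 c2 w0 w1 w2 wj hwj hE0)
    rwa [r0, r1, r2] at this
  have f3 : EE (ρ cc) (ρ cc) (ρ dd) (ρ W1) (ρ W0) (ρ W2) = 0 := by
    have := hEr a1 a0 a2 W1 W0 W2 (by
      rw [← hc2e]
      exact hEs c1 c0 c2 w1 w0 w2 wj hwj hE1)
    rwa [r0, r1, r2] at this
  have hcpos : 0 < c := by rcases hcc with h | h <;> rw [h] <;> norm_num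
  have k2 : (2 : IsLocalRing.ResidueField O) ≠ 0 := by
    have := hunit 2 h2C two_ne_zero
    rwa [map_ofNat] at this
  have kc : ρ cc ≠ 0 := hunit cc hc hcpos.ne'
  have kd : ρ dd ≠ 0 := hunit dd hdC hd0
  have ks : 1 + ρ cc ^ 2 ≠ 0 := by
    have h3 : ((1 + cc ^ 2 : O) : F) ≠ 0 := by
      change 1 + c ^ 2 ≠ 0
      positivity
    have := hunit (1 + cc ^ 2) (C.add_mem C.one_mem (pow_mem hc 2)) h3
    simpa only [map_add, map_one, map_pow] using this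
  have kG1 : -2 * ρ cc - ρ dd - 4 * ρ cc ^ 3 + 5 * ρ cc ^ 2 * ρ dd - 4 * ρ cc * ρ dd ^ 2 ≠ 0 := by
    have h4C : (4 : F) ∈ C := ofNat_mem C 4
    have h5C : (5 : F) ∈ C := ofNat_mem C 5
    have h3 : ((-2 * cc - dd - 4 * cc ^ 3 + 5 * cc ^ 2 * dd - 4 * cc * dd ^ 2 : O) : F) ≠ 0 := by
      change -2 * c - d - 4 * c ^ 3 + 5 * c ^ 2 * d - 4 * c * d ^ 2 ≠ 0
      rcases hcc with h | h
      · rw [h]
        nlinarith [sq_nonneg (2 * d - 1)]
      · rw [h]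
        nlinarith [sq_nonneg (16 * d - 19)]
    have := hunit (-2 * cc - dd - 4 * cc ^ 3 + 5 * cc ^ 2 * dd - 4 * cc * dd ^ 2)
      (C.sub_mem (C.add_mem (C.sub_mem (C.sub_mem (C.mul_mem (C.neg_mem h2C) hc) hdC)
        (C.mul_mem h4C (pow_mem hc 3))) (C.mul_mem (C.mul_mem h5C (pow_mem hc 2)) hdC))
        (C.mul_mem (C.mul_mem h4C hc) (pow_mem hdC 2))) h3
    simpa only [map_add, map_sub, map_mul, map_neg, map_pow, map_ofNat] using this
  have kG2 : 3 + 2 * ρ cc ^ 2 + 2 * ρ dd ^ 2 - ρ cc * ρ dd ≠ 0 := by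
    have h3C : (3 : F) ∈ C := ofNat_mem C 3
    have h3 : ((3 + 2 * cc ^ 2 + 2 * dd ^ 2 - cc * dd : O) : F) ≠ 0 := by
      change 3 + 2 * c ^ 2 + 2 * d ^ 2 - c * d ≠ 0
      rcases hcc with h | h
      · rw [h]
        nlinarith [sq_nonneg (4 * d - 1)]
      · rw [h]
        nlinarith [sq_nonneg (2 * d - 1)]
    have := hunit (3 + 2 * cc ^ 2 + 2 * dd ^ 2 - cc * dd)
      (C.sub_mem (C.add_mem (C.add_mem h3C (C.mul_mem h2C (pow_mem hc 2)))
        (C.mul_mem h2C (pow_mem hdC 2))) (C.mul_mem hc hdC)) h3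
    simpa only [map_add, map_sub, map_mul, map_neg, map_pow, map_ofNat] using this
  obtain ⟨g0, g1, g2⟩ := no_sol k2 f1 f2 f3 kc kd ks kG1 kG2
  have hW1' : ∀ i : Fin 3, ∀ hi : ![w0, w1, w2] i / wj ∈ O, i = j → ρ ⟨_, hi⟩ ≠ 0 := by
    intro i hi hij h0
    have h3 : (⟨![w0, w1, w2] i / wj, hi⟩ : O) = 1 := by
      apply Subtype.ext
      change ![w0, w1, w2] i / wj = 1
      rw [hij]
      exact div_self hwj
    rw [h3, map_one] at h0
    exact one_ne_zero h0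
  have hj3 : j = 0 ∨ j = 1 ∨ j = 2 := by
    fin_cases j <;> simp
  rcases hj3 with h | h | h
  · exact hW1' 0 (hWO 0) h.symm g0
  · exact hW1' 1 (hWO 1) h.symm g1
  · exact hW1' 2 (hWO 2) h.symm g2

theorem no_tri_nondeg {l0 l1 l2 c0 c1 c2 : F} {δ0 δ1 : Derivation ℤ F F}
    (h : Tri 1 l0 l1 l2 c0 c1 c2 δ0 δ1)
    (hD : (l0 + l2 - l1) * (l0 + l1 - l2) + (l0 + l1 - l2) * (l1 + l2 - l0) +
      (l1 + l2 - l0) * (l0 + l2 - l1) ≠ 0) : False := by
  obtain ⟨hR, hE0, hE1⟩ := tri_eqs h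
  have hl1 : l1 ≠ 0 := h.p1.ne'
  have hl2 : l2 ≠ 0 := h.p2.ne'
  have a4 : δ0 c1 = (1 + c1 ^ 2) * (-((l1 - l0 + l2) / (2 * l1))) := by
    rw [h.a4]; ring
  have a5 : δ0 c2 = (1 + c2 ^ 2) * (-((l1 - l2 + l0) / (2 * l1))) := by
    rw [h.a5]; ring
  have b3 : δ1 c0 = (1 + c0 ^ 2) * (-((l2 - l0 + l1) / (2 * l2))) := by
    rw [h.b3]; ring
  have b5 : δ1 c2 = (1 + c2 ^ 2) * (-((l2 - l1 + l0) / (2 * l2))) := by
    rw [h.b5]; ring
  have d0 := trip_rate (δ := δ0) (r0 := 1) (by rw [h.a3, mul_one]) a4 a5 (by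
    field_simp
    ring)
  have d1 := trip_rate (δ := δ1) (r1 := 1) b3 (by rw [h.b4, mul_one]) b5 (by
    field_simp
    ring)
  obtain ⟨X, hX, Y, hY, hXY, hAYBX⟩ := trip_XY d0 d1
  have hind : AlgebraicIndependent (trip_const δ0 δ1) ![c0, c1] := by
    refine algIndep_of_der (trip_const δ0 δ1) δ0 δ1 (fun c hc => hc.1) (fun c hc => hc.2) ?_
    rw [h.a3, h.b4, a4, b3]
    have hne : (1 + c0 ^ 2) * (1 + c1 ^ 2) ≠ 0 := by positivity
    intro h0
    apply hD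
    have h3 : (1 + c0 ^ 2) * (1 + c1 ^ 2) *
        (1 - (l1 - l0 + l2) / (2 * l1) * ((l2 - l0 + l1) / (2 * l2))) = 0 := by
      linear_combination h0
    have h4 := (mul_eq_zero.1 h3).resolve_left hne
    field_simp at h4
    linear_combination h4
  obtain ⟨c, hcc, hDen, hNum⟩ : ∃ c : F, (c = 1 ∨ c = 2) ∧ (c ^ 2 - 1) * Y - 2 * c * X ≠ 0 ∧
      (c ^ 2 - 1) * X + 2 * c * Y ≠ 0 := by
    by_cases hX0 : X = 0
    · have hY0 : Y ≠ 0 := hXY.resolve_left (fun h => h hX0)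
      refine ⟨2, Or.inr rfl, ?_, ?_⟩
      · rw [hX0]
        have : ((2 : F) ^ 2 - 1) * Y - 2 * 2 * 0 = 3 * Y := by ring
        rw [this]
        exact mul_ne_zero three_ne_zero hY0
      · rw [hX0]
        have : ((2 : F) ^ 2 - 1) * 0 + 2 * 2 * Y = 4 * Y := by ring
        rw [this]
        exact mul_ne_zero four_ne_zero hY0
    · by_cases hY0 : Y = 0
      · refine ⟨2, Or.inr rfl, ?_, ?_⟩
        · rw [hY0]
          have : ((2 : F) ^ 2 - 1) * 0 - 2 * 2 * X = -(4 * X) := by ring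
          rw [this]
          exact neg_ne_zero.2 (mul_ne_zero four_ne_zero hX0)
        · rw [hY0]
          have : ((2 : F) ^ 2 - 1) * X + 2 * 2 * 0 = 3 * X := by ring
          rw [this]
          exact mul_ne_zero three_ne_zero hX0
      · refine ⟨1, Or.inl rfl, ?_, ?_⟩
        · have : ((1 : F) ^ 2 - 1) * Y - 2 * 1 * X = -(2 * X) := by ring
          rw [this]
          exact neg_ne_zero.2 (mul_ne_zero two_ne_zero hX0)
        · have : ((1 : F) ^ 2 - 1) * X + 2 * 1 * Y = 2 * Y := by ring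
          rw [this]
          exact mul_ne_zero two_ne_zero hY0
  have hcC : c ∈ trip_const δ0 δ1 := by
    rcases hcc with h | h
    · rw [h]; exact (trip_const δ0 δ1).one_mem
    · rw [h]
      have := (trip_const δ0 δ1).add_mem (trip_const δ0 δ1).one_mem (trip_const δ0 δ1).one_mem
      rwa [one_add_one_eq_two] at this
  obtain ⟨O, hCO, hv0, hv1⟩ := exists_place (trip_const δ0 δ1) hind hcC hcC
  refine trip_red (trip_const δ0 δ1) O hCO hcC hX hY hv0 hv1 hcc hDen hNum ?_ ?_ hR hE0 hE1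
  · linear_combination hAYBX
  · by_contra hcon
    push Not at hcon
    obtain ⟨h1, h2, -⟩ := hcon
    have := h.p0
    linarith

end Pool.Agent.H6.Sm
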