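import Pool.Agent.H6.Sm.Der
import Pool.Agent.H6.Sm.Chain
import Pool.Agent.H6.Sm.Lift
import Pool.Agent.H6.Sm.BncF
import Pool.Agent.H6.Sm.SegL
import Pool.Agent.H6.Sm.Three
import Pool.Agent.H6.Sm.TriM
import Pool.Agent.H6.Sm.TriD
import Pool.Agent.H6.Sm.TriP
import Pool.Agent.H6.Sm.Split

/-!
Closed orbits with at most three reflections at curved arcs form a null set: one word with prescribed branches.
-/

set_option autoImplicit false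

namespace Pool.Agent.H6.Sm

open Filter MeasureTheory Topology ComplexConjugate

/-- a straight arc -/
def Flat (γ : ℝ → ℂ) : Prop :=
  ∃ A B C : ℝ, (A, B) ≠ (0, 0) ∧ ∀ σ ∈ Set.Ioo (0 : ℝ) 1, A * (γ σ).re + B * (γ σ).im = C

variable {U : Ultrafilter (ℝ × ℝ)} {P0 V0 : ℝ × ℝ → ℂ}

/-- one letter -/
theorem bnc_letter {L : (ℝ → ℂ) × (ℚ × ℚ)} {w : List ((ℝ → ℂ) × (ℚ × ℚ))}
    (hL : Arc L.1) (hw : ∀ L ∈ w, Arc L.1) (hV1 : ∀ y, ‖V0 y‖ = 1)
    (hg : ∀ᶠ x in (U : Filter (ℝ × ℝ)), Good P0 V0 (L :: w) x)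
    (hP : ∀ᶠ x in (U : Filter (ℝ × ℝ)), Smo (orb P0 V0 w).1 x)
    (hV : ∀ᶠ x in (U : Filter (ℝ × ℝ)), Smo (orb P0 V0 w).2 x)
    (hP' : ∀ᶠ x in (U : Filter (ℝ × ℝ)), Smo (orb P0 V0 (L :: w)).1 x)
    (hV' : ∀ᶠ x in (U : Filter (ℝ × ℝ)), Smo (orb P0 V0 (L :: w)).2 x) :
    ∃ t a b k : SF ℝ U, Bnc (CR U) (stt U (orb P0 V0 w).1 (orb P0 V0 w).2 hP hV) t a b k
      (stt U (orb P0 V0 (L :: w)).1 (orb P0 V0 (L :: w)).2 hP' hV') ∧ (Flat L.1 → k = 0) :=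
  exists_bnc hL hP hV (hg.mono fun _ hx => good_norm hw hV1 hx.1) (hg.mono fun _ hx => hx.2) hP' hV'

theorem good_append {u w : List ((ℝ → ℂ) × (ℚ × ℚ))} {x : ℝ × ℝ}
    (h : Good P0 V0 (u ++ w) x) : Good P0 V0 w x := by
  induction u with
  | nil => exact h
  | cons L u ih => exact ih h.1

/-- flat letters -/
theorem seg_word {u w : List ((ℝ → ℂ) × (ℚ × ℚ))} (hu : ∀ L ∈ u, Arc L.1) (hf : ∀ L ∈ u, Flat L.1)
    (hw : ∀ L ∈ w, Arc L.1) (hV1 : ∀ y, ‖V0 y‖ = 1)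
    (h0 : ∀ᶠ x in (U : Filter (ℝ × ℝ)), Smo P0 x) (h0' : ∀ᶠ x in (U : Filter (ℝ × ℝ)), Smo V0 x)
    (hg : ∀ᶠ x in (U : Filter (ℝ × ℝ)), Good P0 V0 (u ++ w) x)
    (hP : ∀ᶠ x in (U : Filter (ℝ × ℝ)), Smo (orb P0 V0 w).1 x)
    (hV : ∀ᶠ x in (U : Filter (ℝ × ℝ)), Smo (orb P0 V0 w).2 x)
    (hP' : ∀ᶠ x in (U : Filter (ℝ × ℝ)), Smo (orb P0 V0 (u ++ w)).1 x)
    (hV' : ∀ᶠ x in (U : Filter (ℝ × ℝ)), Smo (orb P0 V0 (u ++ w)).2 x) :
    ∃ l σ : SF ℝ U, Seg (CR U) (stt U (orb P0 V0 w).1 (orb P0 V0 w).2 hP hV) l σ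
      (stt U (orb P0 V0 (u ++ w)).1 (orb P0 V0 (u ++ w)).2 hP' hV') := by
  induction u with
  | nil => exact ⟨0, 1, Seg.refl _ _⟩
  | cons L u ih =>
    have hg' : ∀ᶠ x in (U : Filter (ℝ × ℝ)), Good P0 V0 (u ++ w) x := hg.mono fun _ hx => hx.1
    have hw' : ∀ L ∈ u ++ w, Arc L.1 := by
      intro L' hL'
      rcases List.mem_append.1 hL' with h | h
      · exact hu L' (List.mem_cons_of_mem _ h)
      · exact hw L' h
    have hs : ∀ᶠ x in (U : Filter (ℝ × ℝ)), Smo (orb P0 V0 (u ++ w)).1 x ∧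
        Smo (orb P0 V0 (u ++ w)).2 x := by
      filter_upwards [hg', h0, h0'] with x h1 h2 h3
      exact good_smo hw' h2 h3 h1
    obtain ⟨l, σ, hseg⟩ := ih (fun L hL => hu L (List.mem_cons_of_mem _ hL))
      (fun L hL => hf L (List.mem_cons_of_mem _ hL)) hg' (hs.mono fun _ h => h.1)
      (hs.mono fun _ h => h.2)
    obtain ⟨t, a, b, k, hb, hk⟩ := bnc_letter (hu L (by simp)) hw' hV1 hg
      (hs.mono fun _ h => h.1) (hs.mono fun _ h => h.2) hP' hV'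
    rw [hk (hf L (by simp))] at hb
    exact ⟨l + t, σ * -1, hseg.trans hb.seg⟩

theorem comb_CR : Comb (CR U) := fun f g _ _ h h' => CR.comb h h' f g

/-- the base state: the point on the arc `γ0` and the direction angle are free -/
theorem ind_base (hU : (U : Filter (ℝ × ℝ)) ≤ ae volume) {γ0 : ℝ → ℂ} (h0 : Arc γ0)
    (hmem : ∀ᶠ x in (U : Filter (ℝ × ℝ)), x.1 ∈ Set.Ioo (0 : ℝ) 1)
    (hP : ∀ᶠ x in (U : Filter (ℝ × ℝ)), Smo (fun x : ℝ × ℝ => γ0 x.1) x)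
    (hV : ∀ᶠ x in (U : Filter (ℝ × ℝ)), Smo (fun x : ℝ × ℝ => Complex.exp (x.2 * Complex.I)) x) :
    Ind (CR U) (stt U (fun x : ℝ × ℝ => γ0 x.1)
      (fun x : ℝ × ℝ => Complex.exp (x.2 * Complex.I)) hP hV) := by
  obtain ⟨D1, hD1⟩ := exists_dd (𝕜 := ℝ) U hU (1, 0)
  obtain ⟨D2, hD2⟩ := exists_dd (𝕜 := ℝ) U hU (0, 1)
  have c1 : CR U D1 := CR.of_dd hD1
  have c2 : CR U D2 := CR.of_dd hD2
  -- smooth functions
  have hg1 : ContDiff ℝ ((⊤ : ℕ∞) : WithTop ℕ∞) (fun s => (γ0 s).re) :=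
    Complex.reCLM.contDiff.comp h0.1
  have hg2 : ContDiff ℝ ((⊤ : ℕ∞) : WithTop ℕ∞) (fun s => (γ0 s).im) :=
    Complex.imCLM.contDiff.comp h0.1
  have hdg : Differentiable ℝ γ0 := h0.1.differentiable (by simp)
  have hd1 : ∀ s, HasDerivAt (fun s => (γ0 s).re) (deriv γ0 s).re s := fun s =>
    Complex.reCLM.hasFDerivAt.comp_hasDerivAt s (hdg s).hasDerivAt
  have hd2 : ∀ s, HasDerivAt (fun s => (γ0 s).im) (deriv γ0 s).im s := fun s =>
    Complex.imCLM.hasFDerivAt.comp_hasDerivAt s (hdg s).hasDerivAt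
  have hf1 : ∀ x : ℝ × ℝ, HasFDerivAt (fun x : ℝ × ℝ => (γ0 x.1).re)
      ((deriv γ0 x.1).re • ContinuousLinearMap.fst ℝ ℝ ℝ) x := fun x =>
    (hd1 x.1).comp_hasFDerivAt x hasFDerivAt_fst
  have hf2 : ∀ x : ℝ × ℝ, HasFDerivAt (fun x : ℝ × ℝ => (γ0 x.1).im)
      ((deriv γ0 x.1).im • ContinuousLinearMap.fst ℝ ℝ ℝ) x := fun x =>
    (hd2 x.1).comp_hasFDerivAt x hasFDerivAt_fst
  have e1 : (fun x : ℝ × ℝ => (Complex.exp (x.2 * Complex.I)).re) = fun x => Real.cos x.2 := by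
    funext x; exact Complex.exp_ofReal_mul_I_re x.2
  have e2 : (fun x : ℝ × ℝ => (Complex.exp (x.2 * Complex.I)).im) = fun x => Real.sin x.2 := by
    funext x; exact Complex.exp_ofReal_mul_I_im x.2
  have hf3 : ∀ x : ℝ × ℝ, HasFDerivAt (fun x : ℝ × ℝ => (Complex.exp (x.2 * Complex.I)).re)
      ((-Real.sin x.2) • ContinuousLinearMap.snd ℝ ℝ ℝ) x := by
    intro x
    rw [e1]
    exact (Real.hasDerivAt_cos x.2).comp_hasFDerivAt x hasFDerivAt_snd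
  have hf4 : ∀ x : ℝ × ℝ, HasFDerivAt (fun x : ℝ × ℝ => (Complex.exp (x.2 * Complex.I)).im)
      ((Real.cos x.2) • ContinuousLinearMap.snd ℝ ℝ ℝ) x := by
    intro x
    rw [e2]
    exact (Real.hasDerivAt_sin x.2).comp_hasFDerivAt x hasFDerivAt_snd
  set S := stt U (fun x : ℝ × ℝ => γ0 x.1) (fun x : ℝ × ℝ => Complex.exp (x.2 * Complex.I)) hP hV
    with hS
  have smA : ∀ᶠ x in (U : Filter (ℝ × ℝ)), Smo (fun x : ℝ × ℝ => (deriv γ0 x.1).re) x :=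
    Eventually.of_forall fun x => by
      have h1 : ContDiff ℝ ((⊤ : ℕ∞) : WithTop ℕ∞) (deriv γ0) := h0.1.iterate_deriv 1
      exact ((Complex.reCLM.contDiff.comp h1).comp contDiff_fst).contDiffAt
  have smB : ∀ᶠ x in (U : Filter (ℝ × ℝ)), Smo (fun x : ℝ × ℝ => (deriv γ0 x.1).im) x :=
    Eventually.of_forall fun x => by
      have h1 : ContDiff ℝ ((⊤ : ℕ∞) : WithTop ℕ∞) (deriv γ0) := h0.1.iterate_deriv 1
      exact ((Complex.imCLM.contDiff.comp h1).comp contDiff_fst).contDiffAt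
  have key : ∀ (D : Derivation ℤ (SF ℝ U) (SF ℝ U)) (e : ℝ × ℝ)
      (_ : ∀ (f : ℝ × ℝ → ℝ) (hf : ∀ᶠ x in (U : Filter (ℝ × ℝ)), Smo f x)
        (h : ∀ᶠ x in (U : Filter (ℝ × ℝ)), Smo (fun y => fderiv ℝ f y e) x),
        D (sg U f hf) = sg U (fun y => fderiv ℝ f y e) h)
      (f g : ℝ × ℝ → ℝ) (hf : ∀ᶠ x in (U : Filter (ℝ × ℝ)), Smo f x)
      (hg : ∀ᶠ x in (U : Filter (ℝ × ℝ)), Smo g x) (_ : ∀ x, fderiv ℝ f x e = g x),
      D (sg U f hf) = sg U g hg := by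
    intro D e hD f g hf hg hfg
    rw [hD f hf (hf.mono fun x hx => hx.fderiv e), sg_eq]
    exact Eventually.of_forall hfg
  have z0 : ∀ᶠ x in (U : Filter (ℝ × ℝ)), Smo (fun _ : ℝ × ℝ => (0 : ℝ)) x :=
    Eventually.of_forall fun x => Smo.const 0 x
  have smv := hV.mono fun _ h => h.re
  have smw := hV.mono fun _ h => h.im
  have smX := hP.mono fun _ h => h.re
  have smY := hP.mono fun _ h => h.im
  have d1X : D1 S.X = sg U _ smA := key D1 (1, 0) hD1 _ _ smX smA (fun x => by rw [(hf1 x).fderiv]; simp)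
  have d1Y : D1 S.Y = sg U _ smB := key D1 (1, 0) hD1 _ _ smY smB (fun x => by rw [(hf2 x).fderiv]; simp)
  have d1v : D1 S.v = 0 := key D1 (1, 0) hD1 _ _ smv z0 (fun x => by rw [(hf3 x).fderiv]; simp)
  have d1w : D1 S.w = 0 := key D1 (1, 0) hD1 _ _ smw z0 (fun x => by rw [(hf4 x).fderiv]; simp)
  have d2X : D2 S.X = 0 := key D2 (0, 1) hD2 _ _ smX z0 (fun x => by rw [(hf1 x).fderiv]; simp)
  have d2Y : D2 S.Y = 0 := key D2 (0, 1) hD2 _ _ smY z0 (fun x => by rw [(hf2 x).fderiv]; simp)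
  have d2v : D2 S.v = -S.w := by
    have := key D2 (0, 1) hD2 (fun x : ℝ × ℝ => (Complex.exp (x.2 * Complex.I)).re)
      (fun x : ℝ × ℝ => -(Complex.exp (x.2 * Complex.I)).im) smv (smw.mono fun _ h => h.neg)
      (fun x => by rw [(hf3 x).fderiv, Complex.exp_ofReal_mul_I_im]; simp)
    exact this
  have d2w : D2 S.w = S.v := by
    have := key D2 (0, 1) hD2 (fun x : ℝ × ℝ => (Complex.exp (x.2 * Complex.I)).im)
      (fun x : ℝ × ℝ => (Complex.exp (x.2 * Complex.I)).re) smw smv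
      (fun x => by rw [(hf4 x).fderiv, Complex.exp_ofReal_mul_I_re]; simp)
    exact this
  have hvw : S.v ^ 2 + S.w ^ 2 = 1 := by
    have sm1 : ∀ᶠ x in (U : Filter (ℝ × ℝ)), Smo (fun x : ℝ × ℝ =>
        (Complex.exp (x.2 * Complex.I)).re * (Complex.exp (x.2 * Complex.I)).re +
          (Complex.exp (x.2 * Complex.I)).im * (Complex.exp (x.2 * Complex.I)).im) x := by
      filter_upwards [smv, smw] with x h1 h2 using (h1.mul h1).add (h2.mul h2)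
    have h5 : S.v ^ 2 + S.w ^ 2 = sg U _ sm1 := by
      rw [pow_two, pow_two]
      rfl
    rw [h5, sg_one, sg_eq]
    refine Eventually.of_forall fun x => ?_
    rw [Complex.exp_ofReal_mul_I_re, Complex.exp_ofReal_mul_I_im]
    have := Real.sin_sq_add_cos_sq x.2
    linarith
  refine ⟨⟨D2, c2, ?_, ?_⟩, ?_⟩
  · rw [jD, d2X, d2Y, mul_zero, mul_zero, sub_zero]
  · rw [oD, d2v, d2w]
    linear_combination hvw
  · have hJ : jD D1 S ≠ 0 := by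
      intro hJ
      have hJ2 : D2 (jD D1 S) = 0 := by rw [hJ, map_zero]
      have dA : D2 (D1 S.X) = 0 := by
        rw [d1X]
        refine key D2 (0, 1) hD2 _ _ smA z0 (fun x => ?_)
        have h1 : ContDiff ℝ ((⊤ : ℕ∞) : WithTop ℕ∞) (deriv γ0) := h0.1.iterate_deriv 1
        have h2 : HasFDerivAt (fun x : ℝ × ℝ => (deriv γ0 x.1).re)
            ((deriv (fun s => (deriv γ0 s).re) x.1) • ContinuousLinearMap.fst ℝ ℝ ℝ) x :=
          (((Complex.reCLM.contDiff.comp h1).differentiable (by simp) x.1).hasDerivAt).comp_hasFDerivAt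
            x hasFDerivAt_fst
        rw [h2.fderiv]; simp
      have dB : D2 (D1 S.Y) = 0 := by
        rw [d1Y]
        refine key D2 (0, 1) hD2 _ _ smB z0 (fun x => ?_)
        have h1 : ContDiff ℝ ((⊤ : ℕ∞) : WithTop ℕ∞) (deriv γ0) := h0.1.iterate_deriv 1
        have h2 : HasFDerivAt (fun x : ℝ × ℝ => (deriv γ0 x.1).im)
            ((deriv (fun s => (deriv γ0 s).im) x.1) • ContinuousLinearMap.fst ℝ ℝ ℝ) x :=
          (((Complex.imCLM.contDiff.comp h1).differentiable (by simp) x.1).hasDerivAt).comp_hasFDerivAt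
            x hasFDerivAt_fst
        rw [h2.fderiv]; simp
      rw [jD, map_sub, Derivation.leibniz, Derivation.leibniz, dA, dB, d2v, d2w] at hJ2
      simp only [smul_eq_mul, mul_zero, zero_add] at hJ2
      rw [jD] at hJ
      have hA : D1 S.X = 0 := by linear_combination (-(D1 S.X)) * hvw - S.v * hJ2 - S.w * hJ
      have hB : D1 S.Y = 0 := by linear_combination (-(D1 S.Y)) * hvw + S.v * hJ - S.w * hJ2
      rw [d1X] at hA
      rw [d1Y] at hB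
      have hA' := (sg_eq U smA z0).1 hA
      have hB' := (sg_eq U smB z0).1 hB
      obtain ⟨x, hx1, hx2, hx3⟩ := (hA'.and (hB'.and hmem)).exists
      exact h0.2 x.1 hx3 (Complex.ext hx1 hx2)
    have hcomb := CR.comb c1 c2 (jD D1 S)⁻¹ 0
    refine ⟨_, hcomb, ?_, ?_⟩
    · have : jD ((jD D1 S)⁻¹ • D1 + (0 : SF ℝ U) • D2) S = (jD D1 S)⁻¹ * jD D1 S := by
        simp only [jD, Derivation.add_apply, Derivation.smul_apply, smul_eq_mul]
        ring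
      rw [this, inv_mul_cancel₀ hJ]
    · simp only [oD, Derivation.add_apply, Derivation.smul_apply, smul_eq_mul, d1v, d1w]
      ring

theorem bnc_closed_one {F : Type} [Field F] [LinearOrder F] [IsStrictOrderedRing F]
    {Adm : Derivation ℤ F F → Prop} {S : Stt F} {t a b k : F} (hi : Ind Adm S)
    (h : Bnc Adm S t a b k S) : False := by
  obtain ⟨⟨D, hD, hj, ho⟩, -⟩ := hi
  have h1 := h.e2 D hD
  rw [hj, ho] at h1
  have h2 := h.t0
  linarith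

theorem bnc_closed_two {F : Type} [Field F] [LinearOrder F] [IsStrictOrderedRing F]
    {Adm : Derivation ℤ F F → Prop} {S S' : Stt F} {t a b k t' a' b' k' : F} (hi : Ind Adm S)
    (h : Bnc Adm S t a b k S') (h' : Bnc Adm S' t' a' b' k' S) : False := by
  obtain ⟨⟨D, hD, hj, ho⟩, -⟩ := hi
  have h1 := h.e2 D hD
  have h2 := h'.e2 D hD
  have h3 := h'.e4 D hD
  rw [hj, ho] at h1
  rw [hj] at h2 h3
  rw [ho, zero_div, mul_zero, zero_sub] at h3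
  have h4 : oD D S' = -1 := by linarith
  rw [h4] at h2
  have h5 := h.t0
  have h6 := h'.t0
  linarith

theorem no_three {F : Type} [Field F] [LinearOrder F] [IsStrictOrderedRing F]
    {Adm : Derivation ℤ F F → Prop} (hc : Comb Adm) {S0 S1 S2 : Stt F}
    {l0 l1 l2 σ0 σ1 σ2 a0 b0 k0 a1 b1 k1 a2 b2 k2 : F}
    (h0 : Arr Adm S2 l2 σ2 a0 b0 k0 S0) (h1 : Arr Adm S0 l0 σ0 a1 b1 k1 S1)
    (h2 : Arr Adm S1 l1 σ1 a2 b2 k2 S2) (hi : Ind Adm S0) : False := by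
  obtain ⟨e, c0, c1, c2, δ0, δ1, he, htri⟩ := three hc h0 h1 h2 hi
  rcases he with rfl | rfl
  · by_cases hD : (l0 + l2 - l1) * (l0 + l1 - l2) + (l0 + l1 - l2) * (l1 + l2 - l0) +
      (l1 + l2 - l0) * (l0 + l2 - l1) = 0
    · exact no_tri_deg htri hD
    · exact no_tri_nondeg htri hD
  · exact no_tri_minus htri

/-- a closed family of orbits with at most three curved letters does not exist -/
theorem no_family [DecidablePred Flat] (hU : (U : Filter (ℝ × ℝ)) ≤ ae volume) {γ0 : ℝ → ℂ}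
    (h0 : Arc γ0) (hmem : ∀ᶠ x in (U : Filter (ℝ × ℝ)), x.1 ∈ Set.Ioo (0 : ℝ) 1)
    {W : List ((ℝ → ℂ) × (ℚ × ℚ))} (hW : ∀ L ∈ W, Arc L.1) (hne : W ≠ [])
    (h3 : (W.filter fun L => ¬ Flat L.1).length ≤ 3)
    (hg : ∀ᶠ x in (U : Filter (ℝ × ℝ)), Good (fun x : ℝ × ℝ => γ0 x.1)
      (fun x : ℝ × ℝ => Complex.exp (x.2 * Complex.I)) W x)
    (hcP : ∀ᶠ x in (U : Filter (ℝ × ℝ)), (orb (fun x : ℝ × ℝ => γ0 x.1)
      (fun x : ℝ × ℝ => Complex.exp (x.2 * Complex.I)) W).1 x = γ0 x.1)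
    (hcV : ∀ᶠ x in (U : Filter (ℝ × ℝ)), (orb (fun x : ℝ × ℝ => γ0 x.1)
      (fun x : ℝ × ℝ => Complex.exp (x.2 * Complex.I)) W).2 x =
        Complex.exp (x.2 * Complex.I)) : False := by
  set P0 : ℝ × ℝ → ℂ := fun x => γ0 x.1 with hP0
  set V0 : ℝ × ℝ → ℂ := fun x => Complex.exp (x.2 * Complex.I) with hV0
  have hV1 : ∀ y, ‖V0 y‖ = 1 := fun y => Complex.norm_exp_ofReal_mul_I y.2
  have sP0 : ∀ x, Smo P0 x := fun x => (h0.1.comp contDiff_fst).contDiffAt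
  have sV0 : ∀ x, Smo V0 x := fun x => by
    have h1 : ContDiff ℝ ((⊤ : ℕ∞) : WithTop ℕ∞) (fun x : ℝ × ℝ => ((x.2 : ℝ) : ℂ)) :=
      Complex.ofRealCLM.contDiff.comp contDiff_snd
    exact (h1.mul contDiff_const).cexp.contDiffAt
  have eP0 : ∀ᶠ x in (U : Filter (ℝ × ℝ)), Smo P0 x := Eventually.of_forall sP0
  have eV0 : ∀ᶠ x in (U : Filter (ℝ × ℝ)), Smo V0 x := Eventually.of_forall sV0
  -- smoothness along sub-words
  have sub : ∀ u w : List ((ℝ → ℂ) × (ℚ × ℚ)), W = u ++ w → (∀ L ∈ w, Arc L.1) ∧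
      (∀ᶠ x in (U : Filter (ℝ × ℝ)), Good P0 V0 w x) ∧
      (∀ᶠ x in (U : Filter (ℝ × ℝ)), Smo (orb P0 V0 w).1 x) ∧
      (∀ᶠ x in (U : Filter (ℝ × ℝ)), Smo (orb P0 V0 w).2 x) := by
    intro u w huw
    have h1 : ∀ L ∈ w, Arc L.1 := fun L hL => hW L (by rw [huw]; exact List.mem_append_right _ hL)
    have h2 : ∀ᶠ x in (U : Filter (ℝ × ℝ)), Good P0 V0 w x :=
      hg.mono fun x hx => good_append (u := u) (by rw [← huw]; exact hx)
    exact ⟨h1, h2, h2.mono fun x hx => (good_smo h1 (sP0 x) (sV0 x) hx).1,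
      h2.mono fun x hx => (good_smo h1 (sP0 x) (sV0 x) hx).2⟩
  have hi : Ind (CR U) (stt U P0 V0 eP0 eV0) := ind_base hU h0 hmem eP0 eV0
  obtain ⟨-, -, hPW, hVW⟩ := sub [] W rfl
  have hclose : stt U (orb P0 V0 W).1 (orb P0 V0 W).2 hPW hVW = stt U P0 V0 eP0 eV0 := by
    unfold stt
    congr 1
    · rw [sg_eq]
      exact hcP.mono fun x hx => by rw [hx]
    · rw [sg_eq]
      exact hcP.mono fun x hx => by rw [hx]
    · rw [sg_eq]
      exact hcV.mono fun x hx => by rw [hx]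
    · rw [sg_eq]
      exact hcV.mono fun x hx => by rw [hx]
  have letter : ∀ (u w : List ((ℝ → ℂ) × (ℚ × ℚ))) (L : (ℝ → ℂ) × (ℚ × ℚ))
      (_ : W = u ++ L :: w) (hP : ∀ᶠ x in (U : Filter (ℝ × ℝ)), Smo (orb P0 V0 w).1 x)
      (hV : ∀ᶠ x in (U : Filter (ℝ × ℝ)), Smo (orb P0 V0 w).2 x)
      (hP' : ∀ᶠ x in (U : Filter (ℝ × ℝ)), Smo (orb P0 V0 (L :: w)).1 x)
      (hV' : ∀ᶠ x in (U : Filter (ℝ × ℝ)), Smo (orb P0 V0 (L :: w)).2 x),
      ∃ t a b k : SF ℝ U, Bnc (CR U) (stt U (orb P0 V0 w).1 (orb P0 V0 w).2 hP hV) t a b k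
        (stt U (orb P0 V0 (L :: w)).1 (orb P0 V0 (L :: w)).2 hP' hV') := by
    intro u w L hL hP hV hP' hV'
    obtain ⟨h1, h2, -, -⟩ := sub u (L :: w) hL
    obtain ⟨t, a, b, k, hb, -⟩ := bnc_letter (h1 L (by simp))
      (fun L' hL' => h1 L' (List.mem_cons_of_mem _ hL')) hV1 h2 hP hV hP' hV'
    exact ⟨t, a, b, k, hb⟩
  rcases Nat.lt_or_ge W.length 3 with hlen | hlen
  · match W, hne with
    | [z], _ =>
      obtain ⟨t, a, b, k, hb⟩ := letter [] [] z rfl eP0 eV0 hPW hVW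
      rw [hclose] at hb
      exact bnc_closed_one hi hb
    | [y, z], _ =>
      obtain ⟨-, -, hP1, hV1'⟩ := sub [y] [z] rfl
      obtain ⟨t, a, b, k, hb⟩ := letter [y] [] z rfl eP0 eV0 hP1 hV1'
      obtain ⟨t', a', b', k', hb'⟩ := letter [] [z] y rfl hP1 hV1' hPW hVW
      rw [hclose] at hb'
      exact bnc_closed_two hi hb hb'
    | _ :: _ :: _ :: _, _ =>
      simp at hlen
      omega
  · obtain ⟨l0, l1, l2, l3, x, y, z, hsplit, hl0, hl1, hl2, hl3⟩ :=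
      split_three (fun L : (ℝ → ℂ) × (ℚ × ℚ) => Flat L.1) W hlen h3
    have q0 : W = l0 ++ (x :: (l1 ++ y :: (l2 ++ z :: l3))) := hsplit
    have q1 : W = (l0 ++ [x]) ++ (l1 ++ y :: (l2 ++ z :: l3)) := by rw [q0]; simp
    have q2 : W = (l0 ++ [x] ++ l1) ++ (y :: (l2 ++ z :: l3)) := by rw [q0]; simp
    have q3 : W = (l0 ++ [x] ++ l1 ++ [y]) ++ (l2 ++ z :: l3) := by rw [q0]; simp
    have q4 : W = (l0 ++ [x] ++ l1 ++ [y] ++ l2) ++ (z :: l3) := by rw [q0]; simp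
    have q5 : W = (l0 ++ [x] ++ l1 ++ [y] ++ l2 ++ [z]) ++ l3 := by rw [q0]; simp
    obtain ⟨w0, g0, p0, v0⟩ := sub _ _ q0
    obtain ⟨w1, g1, p1, v1⟩ := sub _ _ q1
    obtain ⟨w2, g2, p2, v2⟩ := sub _ _ q2
    obtain ⟨w3, g3, p3, v3⟩ := sub _ _ q3
    obtain ⟨w4, g4, p4, v4⟩ := sub _ _ q4
    obtain ⟨w5, g5, p5, v5⟩ := sub _ _ q5
    have arcs : ∀ l : List ((ℝ → ℂ) × (ℚ × ℚ)), (∀ L ∈ l, L ∈ W) → ∀ L ∈ l, Arc L.1 :=
      fun l hl L hL => hW L (hl L hL)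
    -- base to l3
    obtain ⟨t3, σ3, s3⟩ := seg_word (U := U) (P0 := P0) (V0 := V0) (u := l3) (w := [])
      (arcs l3 (fun L hL => by rw [q5]; simp [hL])) hl3 (by simp) hV1 eP0 eV0
      (by rw [List.append_nil]; exact g5) eP0 eV0 (by rw [List.append_nil]; exact p5)
      (by rw [List.append_nil]; exact v5)
    simp only [List.append_nil] at s3
    obtain ⟨tz, az, bz, kz, bz'⟩ := letter _ _ _ q4 p5 v5 p4 v4
    obtain ⟨t2, σ2, s2⟩ := seg_word (U := U) (P0 := P0) (V0 := V0) (u := l2) (w := z :: l3)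
      (arcs l2 (fun L hL => by rw [q3]; simp [hL])) hl2 w4 hV1 eP0 eV0 g3 p4 v4 p3 v3
    obtain ⟨ty, ay, by_, ky, by'⟩ := letter _ _ _ q2 p3 v3 p2 v2
    obtain ⟨t1, σ1, s1⟩ := seg_word (U := U) (P0 := P0) (V0 := V0) (u := l1)
      (w := y :: (l2 ++ z :: l3))
      (arcs l1 (fun L hL => by rw [q1]; simp [hL])) hl1 w2 hV1 eP0 eV0 g1 p2 v2 p1 v1
    obtain ⟨tx, ax, bx, kx, bx'⟩ := letter _ _ _ q0 p1 v1 p0 v0
    obtain ⟨t0, σ0, s0⟩ := seg_word (U := U) (P0 := P0) (V0 := V0) (u := l0)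
      (w := x :: (l1 ++ y :: (l2 ++ z :: l3)))
      (arcs l0 (fun L hL => by rw [q0]; simp [hL])) hl0 w0 hV1 eP0 eV0 (by rw [← q0]; exact hg)
      p0 v0 (by rw [← q0]; exact hPW) (by rw [← q0]; exact hVW)
    simp only [← q0] at s0
    rw [hclose] at s0
    -- the three arrivals
    have A0 := (s0.trans s3).arr bz'
    have A1 := s2.arr by'
    have A2 := s1.arr bx'
    have hiz := Ind.bnc comb_CR (Ind.seg comb_CR hi s3) bz'
    exact no_three comb_CR A0 A1 A2 hiz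

/-- one word with prescribed branches -/
theorem core_null [DecidablePred Flat] {γ0 : ℝ → ℂ} (h0 : Arc γ0)
    {W : List ((ℝ → ℂ) × (ℚ × ℚ))} (hW : ∀ L ∈ W, Arc L.1) (hne : W ≠ [])
    (h3 : (W.filter fun L => ¬ Flat L.1).length ≤ 3) :
    volume {x : ℝ × ℝ | x.1 ∈ Set.Ioo (0 : ℝ) 1 ∧ Good (fun x : ℝ × ℝ => γ0 x.1)
      (fun x : ℝ × ℝ => Complex.exp (x.2 * Complex.I)) W x ∧
      (orb (fun x : ℝ × ℝ => γ0 x.1) (fun x : ℝ × ℝ => Complex.exp (x.2 * Complex.I)) W).1 x =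
        γ0 x.1 ∧
      (orb (fun x : ℝ × ℝ => γ0 x.1) (fun x : ℝ × ℝ => Complex.exp (x.2 * Complex.I)) W).2 x =
        Complex.exp (x.2 * Complex.I)} = 0 := by
  by_contra hne0
  set S : Set (ℝ × ℝ) := {x : ℝ × ℝ | x.1 ∈ Set.Ioo (0 : ℝ) 1 ∧ Good (fun x : ℝ × ℝ => γ0 x.1)
      (fun x : ℝ × ℝ => Complex.exp (x.2 * Complex.I)) W x ∧
      (orb (fun x : ℝ × ℝ => γ0 x.1) (fun x : ℝ × ℝ => Complex.exp (x.2 * Complex.I)) W).1 x =
        γ0 x.1 ∧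
      (orb (fun x : ℝ × ℝ => γ0 x.1) (fun x : ℝ × ℝ => Complex.exp (x.2 * Complex.I)) W).2 x =
        Complex.exp (x.2 * Complex.I)} with hS
  have hbot : NeBot (ae (volume : Measure (ℝ × ℝ)) ⊓ 𝓟 S) :=
    frequently_mem_iff_neBot.mp (frequently_ae_mem_iff.mpr hne0)
  set U : Ultrafilter (ℝ × ℝ) := Ultrafilter.of (ae (volume : Measure (ℝ × ℝ)) ⊓ 𝓟 S) with hU
  have hUle : (U : Filter (ℝ × ℝ)) ≤ ae volume ⊓ 𝓟 S := Ultrafilter.of_le _
  have hUS : ∀ᶠ x in (U : Filter (ℝ × ℝ)), x ∈ S :=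
    hUle.trans inf_le_right (mem_principal_self S)
  exact no_family (hUle.trans inf_le_left) h0 (hUS.mono fun x hx => hx.1) hW hne h3
    (hUS.mono fun x hx => hx.2.1) (hUS.mono fun x hx => hx.2.2.1) (hUS.mono fun x hx => hx.2.2.2)

end Pool.Agent.H6.Sm
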