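import Mathlib

/-!
Germs of smooth functions of two variables along an ultrafilter, as a field with derivations; billiard orbits along a word
with prescribed branches (MP_ac23f1_an).
-/

set_option autoImplicit false

namespace Pool.Agent.H6.Sm

open Filter MeasureTheory Topology ComplexConjugate

/-- smooth at the point `x` of the parameter plane -/
def Smo {E : Type} [NormedAddCommGroup E] [NormedSpace ℝ E] (f : ℝ × ℝ → E) (x : ℝ × ℝ) : Prop :=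
  ContDiffAt ℝ ((⊤ : ℕ∞) : WithTop ℕ∞) f x

section germs

variable {𝕜 : Type} [RCLike 𝕜]

theorem Smo.add {f g : ℝ × ℝ → 𝕜} {x : ℝ × ℝ} (hf : Smo f x) (hg : Smo g x) :
    Smo (fun y => f y + g y) x := ContDiffAt.add hf hg

theorem Smo.sub {f g : ℝ × ℝ → 𝕜} {x : ℝ × ℝ} (hf : Smo f x) (hg : Smo g x) :
    Smo (fun y => f y - g y) x := ContDiffAt.sub hf hg

theorem Smo.neg {f : ℝ × ℝ → 𝕜} {x : ℝ × ℝ} (hf : Smo f x) : Smo (fun y => -f y) x :=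
  ContDiffAt.neg hf

theorem Smo.mul {f g : ℝ × ℝ → 𝕜} {x : ℝ × ℝ} (hf : Smo f x) (hg : Smo g x) :
    Smo (fun y => f y * g y) x := ContDiffAt.mul hf hg

theorem Smo.inv {f : ℝ × ℝ → 𝕜} {x : ℝ × ℝ} (hf : Smo f x) (h0 : f x ≠ 0) :
    Smo (fun y => (f y)⁻¹) x := ContDiffAt.inv hf h0

theorem Smo.const (c : 𝕜) (x : ℝ × ℝ) : Smo (fun _ => c) x := contDiffAt_const

theorem Smo.fderiv {f : ℝ × ℝ → 𝕜} {x : ℝ × ℝ} (hf : Smo f x) (e : ℝ × ℝ) :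
    Smo (fun y => _root_.fderiv ℝ f y e) x := by
  have h1 : ContDiffAt ℝ ((⊤ : ℕ∞) : WithTop ℕ∞) (_root_.fderiv ℝ f) x :=
    ContDiffAt.fderiv_right hf (by simp)
  exact h1.clm_apply contDiffAt_const

theorem Smo.congr {f g : ℝ × ℝ → 𝕜} {x : ℝ × ℝ} (hf : Smo f x) (h : g =ᶠ[𝓝 x] f) : Smo g x :=
  ContDiffAt.congr_of_eventuallyEq hf h

variable (𝕜) (U : Ultrafilter (ℝ × ℝ))

/-- germs of functions that are smooth at `U`-almost all points -/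
def SF : Subfield (Filter.Germ (U : Filter (ℝ × ℝ)) 𝕜) where
  carrier := {g | ∃ f : ℝ × ℝ → 𝕜, (∀ᶠ x in (U : Filter (ℝ × ℝ)), Smo f x) ∧
    g = (f : Filter.Germ (U : Filter (ℝ × ℝ)) 𝕜)}
  mul_mem' := by
    rintro _ _ ⟨f, hf, rfl⟩ ⟨g, hg, rfl⟩
    exact ⟨fun x => f x * g x, by filter_upwards [hf, hg] with x h1 h2 using h1.mul h2, rfl⟩
  one_mem' := ⟨fun _ => 1, Eventually.of_forall fun x => Smo.const 1 x, rfl⟩
  add_mem' := by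
    rintro _ _ ⟨f, hf, rfl⟩ ⟨g, hg, rfl⟩
    exact ⟨fun x => f x + g x, by filter_upwards [hf, hg] with x h1 h2 using h1.add h2, rfl⟩
  zero_mem' := ⟨fun _ => 0, Eventually.of_forall fun x => Smo.const 0 x, rfl⟩
  neg_mem' := by
    rintro _ ⟨f, hf, rfl⟩
    exact ⟨fun x => -f x, by filter_upwards [hf] with x h1 using h1.neg, rfl⟩
  inv_mem' := by
    rintro _ ⟨f, hf, rfl⟩
    by_cases h : ∀ᶠ x in (U : Filter (ℝ × ℝ)), f x = 0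
    · refine ⟨fun _ => 0, Eventually.of_forall fun x => Smo.const 0 x, ?_⟩
      change ((fun x => (f x)⁻¹ : ℝ × ℝ → 𝕜) : Filter.Germ (U : Filter (ℝ × ℝ)) 𝕜) = _
      rw [Filter.Germ.coe_eq]
      filter_upwards [h] with x hx
      rw [hx, inv_zero]
    · rw [← Ultrafilter.eventually_not] at h
      exact ⟨fun x => (f x)⁻¹, by filter_upwards [hf, h] with x h1 h2 using h1.inv h2, rfl⟩

variable {𝕜}

/-- the germ of a function -/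
def sg (f : ℝ × ℝ → 𝕜) (hf : ∀ᶠ x in (U : Filter (ℝ × ℝ)), Smo f x) : SF 𝕜 U :=
  ⟨(f : Filter.Germ (U : Filter (ℝ × ℝ)) 𝕜), f, hf, rfl⟩

theorem sg_surj (z : SF 𝕜 U) : ∃ (f : ℝ × ℝ → 𝕜) (hf : ∀ᶠ x in (U : Filter (ℝ × ℝ)), Smo f x),
    z = sg U f hf := by
  obtain ⟨_, f, hf, rfl⟩ := z
  exact ⟨f, hf, rfl⟩

theorem sg_eq {f g : ℝ × ℝ → 𝕜} (hf : ∀ᶠ x in (U : Filter (ℝ × ℝ)), Smo f x)
    (hg : ∀ᶠ x in (U : Filter (ℝ × ℝ)), Smo g x) :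
    sg U f hf = sg U g hg ↔ ∀ᶠ x in (U : Filter (ℝ × ℝ)), f x = g x := by
  rw [← Subtype.coe_inj]
  exact Filter.Germ.coe_eq

theorem sg_add {f g : ℝ × ℝ → 𝕜} (hf : ∀ᶠ x in (U : Filter (ℝ × ℝ)), Smo f x)
    (hg : ∀ᶠ x in (U : Filter (ℝ × ℝ)), Smo g x)
    (h : ∀ᶠ x in (U : Filter (ℝ × ℝ)), Smo (fun x => f x + g x) x) :
    sg U f hf + sg U g hg = sg U (fun x => f x + g x) h := rfl

theorem sg_sub {f g : ℝ × ℝ → 𝕜} (hf : ∀ᶠ x in (U : Filter (ℝ × ℝ)), Smo f x)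
    (hg : ∀ᶠ x in (U : Filter (ℝ × ℝ)), Smo g x)
    (h : ∀ᶠ x in (U : Filter (ℝ × ℝ)), Smo (fun x => f x - g x) x) :
    sg U f hf - sg U g hg = sg U (fun x => f x - g x) h := rfl

theorem sg_mul {f g : ℝ × ℝ → 𝕜} (hf : ∀ᶠ x in (U : Filter (ℝ × ℝ)), Smo f x)
    (hg : ∀ᶠ x in (U : Filter (ℝ × ℝ)), Smo g x)
    (h : ∀ᶠ x in (U : Filter (ℝ × ℝ)), Smo (fun x => f x * g x) x) :
    sg U f hf * sg U g hg = sg U (fun x => f x * g x) h := rfl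

theorem sg_neg {f : ℝ × ℝ → 𝕜} (hf : ∀ᶠ x in (U : Filter (ℝ × ℝ)), Smo f x)
    (h : ∀ᶠ x in (U : Filter (ℝ × ℝ)), Smo (fun x => -f x) x) :
    -sg U f hf = sg U (fun x => -f x) h := rfl

theorem sg_inv {f : ℝ × ℝ → 𝕜} (hf : ∀ᶠ x in (U : Filter (ℝ × ℝ)), Smo f x)
    (h : ∀ᶠ x in (U : Filter (ℝ × ℝ)), Smo (fun x => (f x)⁻¹) x) :
    (sg U f hf)⁻¹ = sg U (fun x => (f x)⁻¹) h := rfl

theorem sg_zero : (0 : SF 𝕜 U) = sg U (fun _ => 0) (Eventually.of_forall fun x => Smo.const 0 x) :=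
  rfl

theorem sg_one : (1 : SF 𝕜 U) = sg U (fun _ => 1) (Eventually.of_forall fun x => Smo.const 1 x) :=
  rfl

theorem sg_lt {f g : ℝ × ℝ → ℝ} (hf : ∀ᶠ x in (U : Filter (ℝ × ℝ)), Smo f x)
    (hg : ∀ᶠ x in (U : Filter (ℝ × ℝ)), Smo g x) :
    sg U f hf < sg U g hg ↔ ∀ᶠ x in (U : Filter (ℝ × ℝ)), f x < g x := by
  change (f : Filter.Germ (U : Filter (ℝ × ℝ)) ℝ) < (g : Filter.Germ (U : Filter (ℝ × ℝ)) ℝ) ↔ _
  exact Filter.Germ.coe_lt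

end germs

section orbits

open Classical in
/-- the branch, with values in the interval `I`, of the intersection of the moving line with an arc -/
noncomputable def sel (γ : ℝ → ℂ) (I : ℚ × ℚ) (P V : ℝ × ℝ → ℂ) (y : ℝ × ℝ) : ℝ :=
  if h : ∃ s : ℝ, s ∈ Set.Ioo (I.1 : ℝ) (I.2 : ℝ) ∧ ((γ s - P y) * conj (V y)).im = 0
  then h.choose else 0

/-- the states along a word with prescribed branches (last letter first) -/
noncomputable def orb (P0 V0 : ℝ × ℝ → ℂ) :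
    List ((ℝ → ℂ) × (ℚ × ℚ)) → (ℝ × ℝ → ℂ) × (ℝ × ℝ → ℂ)
  | [] => (P0, V0)
  | L :: w => (fun y => L.1 (sel L.1 L.2 (orb P0 V0 w).1 (orb P0 V0 w).2 y),
      fun y => deriv L.1 (sel L.1 L.2 (orb P0 V0 w).1 (orb P0 V0 w).2 y) /
        conj (deriv L.1 (sel L.1 L.2 (orb P0 V0 w).1 (orb P0 V0 w).2 y)) *
          conj ((orb P0 V0 w).2 y))

/-- one step: at the point `x` the branch `s` is smooth and is a transversal intersection, in positive distance, of the line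
`(P, V)` with the arc `γ` -/
structure Step (γ : ℝ → ℂ) (s : ℝ × ℝ → ℝ) (P V : ℝ × ℝ → ℂ) (x : ℝ × ℝ) : Prop where
  smo : Smo s x
  mem : s x ∈ Set.Ioo (0 : ℝ) 1
  inc : ∀ᶠ y in 𝓝 x, ((γ (s y) - P y) * conj (V y)).im = 0
  trans : (deriv γ (s x) * conj (V x)).im ≠ 0
  pos : 0 < ((γ (s x) - P x) * conj (V x)).re

/-- all the steps are good at the point `x` -/
def Good (P0 V0 : ℝ × ℝ → ℂ) : List ((ℝ → ℂ) × (ℚ × ℚ)) → ℝ × ℝ → Prop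
  | [], _ => True
  | L :: w, x => Good P0 V0 w x ∧
      Step L.1 (sel L.1 L.2 (orb P0 V0 w).1 (orb P0 V0 w).2) (orb P0 V0 w).1 (orb P0 V0 w).2 x

/-- an orbit with nontangential reflections at the arcs `L` (last one first) -/
def RO : List (ℝ → ℂ) → ℂ → ℂ → ℂ → ℂ → Prop
  | [], P0, V0, P, V => P = P0 ∧ V = V0
  | γ :: L, P0, V0, P, V => ∃ (Q W : ℂ) (t s : ℝ), RO L P0 V0 Q W ∧ 0 < t ∧
      s ∈ Set.Ioo (0 : ℝ) 1 ∧ γ s = Q + t * W ∧ P = γ s ∧ (deriv γ s * conj W).im ≠ 0 ∧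
        V = deriv γ s / conj (deriv γ s) * conj W

/-- a smooth regular arc -/
def Arc (γ : ℝ → ℂ) : Prop :=
  ContDiff ℝ ((⊤ : ℕ∞) : WithTop ℕ∞) γ ∧ ∀ s ∈ Set.Ioo (0 : ℝ) 1, deriv γ s ≠ 0

end orbits

end Pool.Agent.H6.Sm
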