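import Pool.Agent.H6.Sm.NullG

/-!
JOB SM-2. Partial derivatives act on the field `SF 𝕜 U`.

`dd_well`: apply `null_grad` to `re f` and `im f` (`ContDiffAt.of_le`, composition with the continuous linear maps `RCLike.reCLM`, `RCLike.imCLM`): for almost all `x`, hence for `U`-almost all `x` (`hU`, `measure_eq_zero_iff_ae_notMem`), not
(`ContDiffAt` and `f x = 0` and `fderiv ≠ 0`).
`exists_dd`: for `z : SF 𝕜 U` choose a representative (`sg_surj`) and put `D z = sg U (fun x => fderiv ℝ f x e)`; by `dd_well` applied to the difference of two representatives it does not depend on the choice. Additivity and Leibniz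
from `fderiv_add`, `fderiv_mul` at the points where both functions are smooth (a `Derivation ℤ` is an additive map with the Leibniz rule: `Derivation.mk'`, `AddMonoidHom.toIntLinearMap`).
-/

set_option autoImplicit false

namespace Pool.Agent.H6.Sm

open Filter MeasureTheory Topology ComplexConjugate

variable {𝕜 : Type} [RCLike 𝕜] (U : Ultrafilter (ℝ × ℝ))

theorem dd_diff {f : ℝ × ℝ → 𝕜} {x : ℝ × ℝ} (hf : Smo f x) : DifferentiableAt ℝ f x :=
  ContDiffAt.differentiableAt hf (by simp)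

theorem dd_null (hU : (U : Filter (ℝ × ℝ)) ≤ ae volume) (h : ℝ × ℝ → ℝ) :
    ∀ᶠ x in (U : Filter (ℝ × ℝ)), ContDiffAt ℝ 1 h x → h x = 0 → fderiv ℝ h x = 0 := by
  apply hU
  have h1 := measure_eq_zero_iff_ae_notMem.1 (null_grad h)
  filter_upwards [h1] with x hx hc h0
  by_contra hne
  exact hx ⟨hc, h0, hne⟩

theorem dd_well (hU : (U : Filter (ℝ × ℝ)) ≤ ae volume) {f : ℝ × ℝ → 𝕜}
    (hf : ∀ᶠ x in (U : Filter (ℝ × ℝ)), Smo f x) (h0 : ∀ᶠ x in (U : Filter (ℝ × ℝ)), f x = 0)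
    (e : ℝ × ℝ) : ∀ᶠ x in (U : Filter (ℝ × ℝ)), fderiv ℝ f x e = 0 := by
  have h1 := dd_null U hU (fun y => (RCLike.reCLM : 𝕜 →L[ℝ] ℝ) (f y))
  have h2 := dd_null U hU (fun y => (RCLike.imCLM : 𝕜 →L[ℝ] ℝ) (f y))
  filter_upwards [h1, h2, hf, h0] with x hx1 hx2 hx3 hx4
  have hd := (dd_diff hx3).hasFDerivAt
  have hc : ContDiffAt ℝ 1 f x := ContDiffAt.of_le hx3 (by exact_mod_cast le_top)
  have e1 : fderiv ℝ (fun y => (RCLike.reCLM : 𝕜 →L[ℝ] ℝ) (f y)) x =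
      (RCLike.reCLM : 𝕜 →L[ℝ] ℝ).comp (fderiv ℝ f x) :=
    ((RCLike.reCLM : 𝕜 →L[ℝ] ℝ).hasFDerivAt.comp x hd).fderiv
  have e2 : fderiv ℝ (fun y => (RCLike.imCLM : 𝕜 →L[ℝ] ℝ) (f y)) x =
      (RCLike.imCLM : 𝕜 →L[ℝ] ℝ).comp (fderiv ℝ f x) :=
    ((RCLike.imCLM : 𝕜 →L[ℝ] ℝ).hasFDerivAt.comp x hd).fderiv
  have e3 := hx1 ((RCLike.reCLM : 𝕜 →L[ℝ] ℝ).contDiff.contDiffAt.comp x hc) (by rw [hx4, map_zero])
  have e4 := hx2 ((RCLike.imCLM : 𝕜 →L[ℝ] ℝ).contDiff.contDiffAt.comp x hc) (by rw [hx4, map_zero])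
  rw [e1] at e3
  rw [e2] at e4
  have e5 : RCLike.re (fderiv ℝ f x e) = 0 := by
    have := congrArg (fun L : ℝ × ℝ →L[ℝ] ℝ => L e) e3
    simpa using this
  have e6 : RCLike.im (fderiv ℝ f x e) = 0 := by
    have := congrArg (fun L : ℝ × ℝ →L[ℝ] ℝ => L e) e4
    simpa using this
  apply RCLike.ext
  · rw [e5, map_zero]
  · rw [e6, map_zero]

theorem dd_eq (hU : (U : Filter (ℝ × ℝ)) ≤ ae volume) {f g : ℝ × ℝ → 𝕜}
    (hf : ∀ᶠ x in (U : Filter (ℝ × ℝ)), Smo f x) (hg : ∀ᶠ x in (U : Filter (ℝ × ℝ)), Smo g x)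
    (h0 : ∀ᶠ x in (U : Filter (ℝ × ℝ)), f x = g x) (e : ℝ × ℝ) :
    ∀ᶠ x in (U : Filter (ℝ × ℝ)), fderiv ℝ f x e = fderiv ℝ g x e := by
  have h1 : ∀ᶠ x in (U : Filter (ℝ × ℝ)), Smo (fun y => f y - g y) x := by
    filter_upwards [hf, hg] with x h2 h3 using h2.sub h3
  have h2 : ∀ᶠ x in (U : Filter (ℝ × ℝ)), (fun y => f y - g y) x = 0 := by
    filter_upwards [h0] with x hx
    rw [hx, sub_self]
  filter_upwards [dd_well U hU h1 h2 e, hf, hg] with x h3 h4 h5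
  have h6 := ((dd_diff h4).hasFDerivAt.fun_sub (dd_diff h5).hasFDerivAt).fderiv
  rw [h6] at h3
  exact sub_eq_zero.1 h3

theorem exists_dd (hU : (U : Filter (ℝ × ℝ)) ≤ ae volume) (e : ℝ × ℝ) :
    ∃ D : Derivation ℤ (SF 𝕜 U) (SF 𝕜 U), ∀ (f : ℝ × ℝ → 𝕜)
      (hf : ∀ᶠ x in (U : Filter (ℝ × ℝ)), Smo f x)
      (h : ∀ᶠ x in (U : Filter (ℝ × ℝ)), Smo (fun y => fderiv ℝ f y e) x),
      D (sg U f hf) = sg U (fun y => fderiv ℝ f y e) h := by
  choose R hR hz using sg_surj (𝕜 := 𝕜) U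
  have hS : ∀ (f : ℝ × ℝ → 𝕜), (∀ᶠ x in (U : Filter (ℝ × ℝ)), Smo f x) →
      ∀ᶠ x in (U : Filter (ℝ × ℝ)), Smo (fun y => fderiv ℝ f y e) x := by
    intro f hf
    filter_upwards [hf] with x hx using hx.fderiv e
  let D0 : SF 𝕜 U → SF 𝕜 U := fun z => sg U (fun y => fderiv ℝ (R z) y e) (hS _ (hR z))
  have key : ∀ (f : ℝ × ℝ → 𝕜) (hf : ∀ᶠ x in (U : Filter (ℝ × ℝ)), Smo f x)
      (h : ∀ᶠ x in (U : Filter (ℝ × ℝ)), Smo (fun y => fderiv ℝ f y e) x),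
      D0 (sg U f hf) = sg U (fun y => fderiv ℝ f y e) h := by
    intro f hf h
    have h1 := hz (sg U f hf)
    rw [sg_eq] at h1
    change sg U (fun y => fderiv ℝ (R (sg U f hf)) y e) _ = _
    rw [sg_eq]
    filter_upwards [dd_eq U hU hf (hR _) h1 e] with x hx
    exact hx.symm
  have hadd : ∀ a b, D0 (a + b) = D0 a + D0 b := by
    intro a b
    have h1 : ∀ᶠ x in (U : Filter (ℝ × ℝ)), Smo (fun y => R a y + R b y) x := by
      filter_upwards [hR a, hR b] with x h2 h3 using h2.add h3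
    have h2 : a + b = sg U (fun y => R a y + R b y) h1 := by
      rw [← sg_add U (hR a) (hR b) h1, ← hz a, ← hz b]
    have h3 : ∀ᶠ x in (U : Filter (ℝ × ℝ)),
        Smo (fun y => fderiv ℝ (R a) y e + fderiv ℝ (R b) y e) x := by
      filter_upwards [hS _ (hR a), hS _ (hR b)] with x h4 h5 using h4.add h5
    rw [h2, key _ h1 (hS _ h1)]
    change _ = sg U (fun y => fderiv ℝ (R a) y e) _ + sg U (fun y => fderiv ℝ (R b) y e) _
    rw [sg_add U _ _ h3, sg_eq]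
    filter_upwards [hR a, hR b] with x h4 h5
    rw [((dd_diff h4).hasFDerivAt.fun_add (dd_diff h5).hasFDerivAt).fderiv]
    rfl
  have hmul : ∀ a b, D0 (a * b) = a • D0 b + b • D0 a := by
    intro a b
    have h1 : ∀ᶠ x in (U : Filter (ℝ × ℝ)), Smo (fun y => R a y * R b y) x := by
      filter_upwards [hR a, hR b] with x h2 h3 using h2.mul h3
    have h2 : a * b = sg U (fun y => R a y * R b y) h1 := by
      rw [← sg_mul U (hR a) (hR b) h1, ← hz a, ← hz b]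
    have h3 : ∀ᶠ x in (U : Filter (ℝ × ℝ)), Smo (fun y => R a y * fderiv ℝ (R b) y e) x := by
      filter_upwards [hR a, hS _ (hR b)] with x h4 h5 using h4.mul h5
    have h4 : ∀ᶠ x in (U : Filter (ℝ × ℝ)), Smo (fun y => R b y * fderiv ℝ (R a) y e) x := by
      filter_upwards [hR b, hS _ (hR a)] with x h4 h5 using h4.mul h5
    have h5 : ∀ᶠ x in (U : Filter (ℝ × ℝ)),
        Smo (fun y => R a y * fderiv ℝ (R b) y e + R b y * fderiv ℝ (R a) y e) x := by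
      filter_upwards [h3, h4] with x h6 h7 using h6.add h7
    have h6 : a • D0 b + b • D0 a =
        sg U (fun y => R a y * fderiv ℝ (R b) y e + R b y * fderiv ℝ (R a) y e) h5 := by
      rw [← sg_add U h3 h4 h5, ← sg_mul U (hR a) (hS _ (hR b)) h3,
        ← sg_mul U (hR b) (hS _ (hR a)) h4, ← hz a, ← hz b, smul_eq_mul, smul_eq_mul]
    rw [h6, h2, key _ h1 (hS _ h1), sg_eq]
    filter_upwards [hR a, hR b] with x h7 h8
    rw [((dd_diff h7).hasFDerivAt.fun_mul (dd_diff h8).hasFDerivAt).fderiv]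
    simp
  let D1 : SF 𝕜 U →+ SF 𝕜 U := AddMonoidHom.mk' D0 hadd
  exact ⟨Derivation.mk' D1.toIntLinearMap hmul, key⟩

end Pool.Agent.H6.Sm
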