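import Pool.Agent.H6.Sm.CoreR
import Pool.Agent.H6.IvA.ArcA
import Pool.Agent.H6.Ivrii.Main

set_option autoImplicit false

namespace Pool.Agent.H6.Sm

open MeasureTheory ComplexConjugate Filter
open Pool.Agent.H6.Ivrii (toC toC_add_smul toC_cos_sin)
open Pool.Agent.H6.IvA (deriv_toC refl_toC)

/-- the arc in complex form -/
noncomputable def cArc (γ : ℝ → ℝ × ℝ) : ℝ → ℂ := fun s => toC (γ s)

theorem toC_inj {p q : ℝ × ℝ} (h : toC p = toC q) : p = q :=
  Prod.ext (congrArg Complex.re h) (congrArg Complex.im h)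

theorem arc_cArc {γ : ℝ → ℝ × ℝ} (hγ : ContDiff ℝ ((⊤ : ℕ∞) : WithTop ℕ∞) γ)
    (hreg : ∀ s ∈ Set.Icc (0 : ℝ) 1, deriv γ s ≠ 0) : Arc (cArc γ) := by
  have hd : Differentiable ℝ γ := hγ.differentiable (by simp)
  refine ⟨?_, ?_⟩
  · have h1 : cArc γ = fun s => ((γ s).1 : ℂ) + (γ s).2 * Complex.I := by
      funext s
      exact Pool.Agent.H6.IvA.toC_eq _
    rw [h1]
    have h2 : ContDiff ℝ ((⊤ : ℕ∞) : WithTop ℕ∞) (fun s => ((γ s).1 : ℂ)) :=
      Complex.ofRealCLM.contDiff.comp (contDiff_fst.comp hγ)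
    have h3 : ContDiff ℝ ((⊤ : ℕ∞) : WithTop ℕ∞) (fun s => ((γ s).2 : ℂ)) :=
      Complex.ofRealCLM.contDiff.comp (contDiff_snd.comp hγ)
    exact h2.add (h3.mul contDiff_const)
  · intro s hs h0
    have h1 := (deriv_toC γ hd).2 s
    have h2 : deriv (cArc γ) s = toC (deriv γ s) := h1
    rw [h2] at h0
    apply hreg s (Set.Ioo_subset_Icc_self hs)
    apply toC_inj
    rw [h0]
    rfl

/-- straight -/
def Strt (γ : ℝ → ℝ × ℝ) : Prop :=
  ∃ a b c : ℝ, (a, b) ≠ (0, 0) ∧ ∀ s ∈ Set.Icc (0 : ℝ) 1, a * (γ s).1 + b * (γ s).2 = c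

theorem flat_cArc {γ : ℝ → ℝ × ℝ} (h : Strt γ) : Flat (cArc γ) := by
  obtain ⟨a, b, c, hab, h⟩ := h
  exact ⟨a, b, c, hab, fun s hs => h s (Set.Ioo_subset_Icc_self hs)⟩

/-- words with branches over the given arcs -/
theorem map_lift {ι : Type} (f : ι → ℝ → ℂ) (w' : List ι) (W : List ((ℝ → ℂ) × (ℚ × ℚ)))
    (h : W.map Prod.fst = w'.map f) : ∃ w : List (ι × (ℚ × ℚ)),
      w.map Prod.fst = w' ∧ w.map (fun a => (f a.1, a.2)) = W := by
  induction w' generalizing W with
  | nil =>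
    simp only [List.map_nil, List.map_eq_nil_iff] at h
    exact ⟨[], rfl, by rw [h]; rfl⟩
  | cons i w' ih =>
    match W, h with
    | L :: W, h =>
      simp only [List.map_cons, List.cons.injEq] at h
      obtain ⟨w, h1, h2⟩ := ih W h.2
      exact ⟨(i, L.2) :: w, by simp [h1], by simp [h2, ← h.1]⟩

theorem mainR (m : ℕ) (Y : Set (ℝ × ℝ)) (γ : Fin m → ℝ → ℝ × ℝ)
    (hγ : ∀ i, ContDiff ℝ ((⊤ : ℕ∞) : WithTop ℕ∞) (γ i))
    (hreg : ∀ i, ∀ s ∈ Set.Icc (0 : ℝ) 1, deriv (γ i) s ≠ 0)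
    (hdisj : ∀ i j, i ≠ j →
      Disjoint (γ i '' Set.Ioo (0 : ℝ) 1) (γ j '' Set.Ioo (0 : ℝ) 1))
    (J : Set (Fin m)) (hJ : ∀ j ∈ J, Strt (γ j)) (i : Fin m) :
    volume {q : ℝ × ℝ | q.1 ∈ Set.Ioo (0 : ℝ) 1 ∧
        ∃ n : ℕ, 0 < n ∧ ∃ P V : ℕ → ℝ × ℝ,
          P 0 = γ i q.1 ∧ V 0 = (Real.cos q.2, Real.sin q.2) ∧
          P n = P 0 ∧ V n = V 0 ∧
          (∀ k < n,
            (∃ t : ℝ, 0 < t ∧ P (k + 1) = P k + t • V k ∧
              ∀ τ ∈ Set.Ioo (0 : ℝ) t, P k + τ • V k ∈ interior Y) ∧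
            (∃ j : Fin m, ∃ s ∈ Set.Ioo (0 : ℝ) 1, P (k + 1) = γ j s ∧
              (V k).1 * (-(deriv (γ j) s).2) + (V k).2 * (deriv (γ j) s).1 ≠ 0 ∧
              V (k + 1) = V k -
                (2 * ((V k).1 * (-(deriv (γ j) s).2) + (V k).2 * (deriv (γ j) s).1) /
                  ((deriv (γ j) s).1 ^ 2 + (deriv (γ j) s).2 ^ 2)) •
                  (-(deriv (γ j) s).2, (deriv (γ j) s).1)) ∧
            (∃ ε : ℝ, 0 < ε ∧
              ∀ τ ∈ Set.Ioo (0 : ℝ) ε, P (k + 1) + τ • V (k + 1) ∈ interior Y)) ∧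
          {k : ℕ | k < n ∧ ¬ ∃ j ∈ J, ∃ s ∈ Set.Ioo (0 : ℝ) 1, P (k + 1) = γ j s}.ncard ≤ 3} = 0 := by
  classical
  have hdiff : ∀ j, Differentiable ℝ (γ j) := fun j => (hγ j).differentiable (by simp)
  set f : Fin m → ℝ → ℂ := fun j => cArc (γ j) with hf
  have harc : ∀ j, Arc (f j) := fun j => arc_cArc (hγ j) (hreg j)
  set P0 : ℝ × ℝ → ℂ := fun x => f i x.1 with hP0
  set V0 : ℝ × ℝ → ℂ := fun x => Complex.exp (x.2 * Complex.I) with hV0
  have hV1 : ∀ y, ‖V0 y‖ = 1 := fun y => Complex.norm_exp_ofReal_mul_I y.2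
  have sP0 : ∀ x, Smo P0 x := fun x => ((harc i).1.comp contDiff_fst).contDiffAt
  have sV0 : ∀ x, Smo V0 x := fun x => by
    have h1 : ContDiff ℝ ((⊤ : ℕ∞) : WithTop ℕ∞) (fun x : ℝ × ℝ => ((x.2 : ℝ) : ℂ)) :=
      Complex.ofRealCLM.contDiff.comp contDiff_snd
    exact (h1.mul contDiff_const).cexp.contDiffAt
  have hcore : ∀ w : List (Fin m × (ℚ × ℚ)), volume {x : ℝ × ℝ |
      (w ≠ [] ∧ ((w.map fun a => (f a.1, a.2)).filter fun L => ¬ Flat L.1).length ≤ 3) ∧
      x.1 ∈ Set.Ioo (0 : ℝ) 1 ∧ Good P0 V0 (w.map fun a => (f a.1, a.2)) x ∧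
      (orb P0 V0 (w.map fun a => (f a.1, a.2))).1 x = P0 x ∧
      (orb P0 V0 (w.map fun a => (f a.1, a.2))).2 x = V0 x} = 0 := by
    intro w
    by_cases hw : w ≠ [] ∧ ((w.map fun a => (f a.1, a.2)).filter fun L => ¬ Flat L.1).length ≤ 3
    · refine measure_mono_null ?_ (core_null (harc i) (W := w.map fun a => (f a.1, a.2)) ?_ ?_ hw.2)
      · intro x hx
        exact hx.2
      · intro L hL
        obtain ⟨a, -, rfl⟩ := List.mem_map.mp hL
        exact harc a.1
      · simpa using hw.1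
    · convert measure_empty (μ := (volume : Measure (ℝ × ℝ)))
      rw [Set.eq_empty_iff_forall_notMem]
      intro x hx
      exact hw hx.1
  refine measure_mono_null ?_ (measure_iUnion_null hcore)
  rintro q ⟨hq, n, hn, P, V, hP, hV, hPn, hVn, hall, hcard⟩
  have hind : ∀ k ≤ n, ∃ w : List (Fin m), w.length = k ∧
      (w.filter fun j => j ∉ J).length =
        ((Finset.range k).filter fun k' => ¬ ∃ j ∈ J, ∃ s ∈ Set.Ioo (0 : ℝ) 1, P (k' + 1) = γ j s).card ∧
      RO (w.map f) (toC (P 0)) (toC (V 0)) (toC (P k)) (toC (V k)) := by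
    intro k
    induction k with
    | zero => intro _; exact ⟨[], rfl, rfl, rfl, rfl⟩
    | succ k ih =>
      intro hk
      obtain ⟨w, hwl, hwc, hRO⟩ := ih (by omega)
      obtain ⟨⟨t, ht, hPt, -⟩, ⟨j, s, hs, hPs, hnt, hVs⟩, -⟩ := hall k (by omega)
      refine ⟨j :: w, by simp [hwl], ?_, toC (P k), toC (V k), t, s, hRO, ht, hs, ?_, ?_, ?_, ?_⟩
      · rw [Finset.range_add_one, Finset.filter_insert]
        have hiff : (j ∉ J) ↔ ¬ ∃ j ∈ J, ∃ s ∈ Set.Ioo (0 : ℝ) 1, P (k + 1) = γ j s := by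
          rw [not_iff_not]
          constructor
          · intro hj
            exact ⟨j, hj, s, hs, hPs⟩
          · rintro ⟨j', hj', s', hs', hPs'⟩
            by_contra hj
            have hne : j ≠ j' := fun h => hj (h ▸ hj')
            exact Set.disjoint_left.mp (hdisj j j' hne) ⟨s, hs, rfl⟩ ⟨s', hs', by rw [← hPs', hPs]⟩
        by_cases hj : j ∈ J
        · rw [if_neg (by rw [← hiff]; simpa using hj)]
          simp only [List.filter_cons, hj, not_true_eq_false, decide_false, Bool.false_eq_true,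
            if_false]
          exact hwc
        · rw [if_pos (hiff.1 hj), Finset.card_insert_of_notMem (by simp)]
          simp only [List.filter_cons, hj, not_false_eq_true, decide_true, if_true, List.length_cons]
          rw [← hwc]
      · change toC (γ j s) = _
        rw [← hPs, hPt, toC_add_smul]
      · rw [hPs]; rfl
      · have h1 : deriv (f j) s = toC (deriv (γ j) s) := (deriv_toC (γ j) (hdiff j)).2 s
        rw [h1]
        intro h0
        apply hnt
        have h2 : (toC (deriv (γ j) s) * conj (toC (V k))).im =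
            (deriv (γ j) s).2 * (V k).1 - (deriv (γ j) s).1 * (V k).2 := by
          simp [toC, Complex.mul_im]
          ring
        rw [h2] at h0
        linarith
      · have h1 : deriv (f j) s = toC (deriv (γ j) s) := (deriv_toC (γ j) (hdiff j)).2 s
        rw [h1, hVs]
        exact refl_toC (deriv (γ j) s) (V k) (hreg j s (Set.Ioo_subset_Icc_self hs))
  obtain ⟨w', hl', hc', hRO⟩ := hind n le_rfl
  have e1 : toC (P 0) = P0 q := by rw [hP]; rfl
  have e2 : toC (V 0) = V0 q := by rw [hV, toC_cos_sin]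
  rw [hPn, hVn, e1, e2] at hRO
  obtain ⟨W, hWm, hWg, hWP, hWV⟩ := lift (L := w'.map f) (by
    intro g hg
    obtain ⟨j, -, rfl⟩ := List.mem_map.mp hg
    exact harc j) (sP0 q) (sV0 q) hV1 hRO
  obtain ⟨w, hw1, hw2⟩ := map_lift f w' W hWm
  refine Set.mem_iUnion.mpr ⟨w, ⟨?_, ?_⟩, hq, ?_, ?_, ?_⟩
  · rintro rfl
    have h1 : w' = [] := by rw [← hw1]; rfl
    rw [h1, List.length_nil] at hl'
    omega
  · have h1 : ((w.map fun a => (f a.1, a.2)).filter fun L => ¬ Flat L.1).length ≤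
        (w'.filter fun j => j ∉ J).length := by
      rw [← hw1]
      clear hw1 hw2 hWm hWg hWP hWV
      induction w with
      | nil => simp
      | cons a w ih =>
        simp only [List.map_cons, List.filter_cons]
        by_cases h : a.1 ∈ J
        · have h2 : Flat (f a.1) := flat_cArc (hJ a.1 h)
          simp only [h2, h, not_true_eq_false, decide_false, Bool.false_eq_true, if_false]
          exact ih
        · by_cases h2 : Flat (f a.1)
          · simp only [h2, h, not_true_eq_false, not_false_eq_true, decide_false, decide_true,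
              Bool.false_eq_true, if_false, if_true, List.length_cons]
            omega
          · simp only [h2, h, not_false_eq_true, decide_true, if_true, List.length_cons]
            omega
    refine h1.trans ?_
    rw [hc']
    refine le_trans (le_of_eq ?_) hcard
    rw [← Set.ncard_coe_finset]
    congr 1
    ext k
    simp
  · rw [hw2]; exact hWg
  · rw [hw2, hWP]
  · rw [hw2, hWV]

end Pool.Agent.H6.Sm
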