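import Pool.Agent.H6.Sm.Defs

/-!
JOB SM-1. A function vanishes with nonzero gradient only on a null set.

`O = {x | ContDiffAt ℝ 1 h x}` is open (`ContDiffAt.eventually`, `1 ≠ ∞`), `h` and `fderiv ℝ h` are continuous on `O`. The set is contained in the union over `e = (1,0), (0,1)` of
`A e = {x ∈ O | h x = 0 ∧ fderiv ℝ h x e ≠ 0}` (a linear map of the plane that kills both unit vectors is zero). `A e` is measurable: `O ∩ {h = 0}` is the intersection of `O` with a closed set, `O ∩ {fderiv h · e ≠ 0}` is open.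
Every slice of `A e` in the direction `e` consists of isolated points (`HasDerivAt.eventually_ne` for `t ↦ h (x + t e)`), hence is countable, hence null; Fubini: `MeasureTheory.Measure.measure_prod_null`
(and `Measure.measurePreserving_swap` for the other direction). See `null_zero` in `Pool/Agent/H6/Ivrii/Null.lean` for a similar use of Fubini.
-/

set_option autoImplicit false

namespace Pool.Agent.H6.Sm

open Filter MeasureTheory Topology ComplexConjugate

/-- the zeros at which the derivative in the direction `e` does not vanish -/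
def ngA (h : ℝ × ℝ → ℝ) (e : ℝ × ℝ) : Set (ℝ × ℝ) :=
  {x : ℝ × ℝ | ContDiffAt ℝ 1 h x ∧ h x = 0 ∧ fderiv ℝ h x e ≠ 0}

theorem ng_open (h : ℝ × ℝ → ℝ) : IsOpen {x : ℝ × ℝ | ContDiffAt ℝ 1 h x} := by
  rw [isOpen_iff_eventually]
  intro x hx
  have hx' : ContDiffAt ℝ 1 h x := hx
  exact hx'.eventually (by simp)

theorem ng_meas (h : ℝ × ℝ → ℝ) (e : ℝ × ℝ) : MeasurableSet (ngA h e) := by
  have hO := ng_open h
  have h1 : ContinuousOn h {x : ℝ × ℝ | ContDiffAt ℝ 1 h x} := by
    intro x hx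
    have hx' : ContDiffAt ℝ 1 h x := hx
    exact hx'.continuousAt.continuousWithinAt
  have h2 : ContinuousOn (fun x => fderiv ℝ h x e) {x : ℝ × ℝ | ContDiffAt ℝ 1 h x} := by
    intro x hx
    have hx' : ContDiffAt ℝ 1 h x := hx
    have h3 : ContDiffAt ℝ 0 (fderiv ℝ h) x :=
      ContDiffAt.fderiv_right (m := 0) hx' (by simp)
    have h4 : ContinuousAt (fderiv ℝ h) x := h3.continuousAt
    exact (h4.clm_apply continuousAt_const).continuousWithinAt
  have h3 := h1.isOpen_inter_preimage hO (isOpen_compl_singleton (x := (0 : ℝ)))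
  have h4 := h2.isOpen_inter_preimage hO (isOpen_compl_singleton (x := (0 : ℝ)))
  have h5 : ngA h e = ({x : ℝ × ℝ | ContDiffAt ℝ 1 h x} \ ({x : ℝ × ℝ | ContDiffAt ℝ 1 h x} ∩
      h ⁻¹' {0}ᶜ)) ∩ ({x : ℝ × ℝ | ContDiffAt ℝ 1 h x} ∩ (fun x => fderiv ℝ h x e) ⁻¹' {0}ᶜ) := by
    ext x
    constructor
    · rintro ⟨a, b, c⟩
      exact ⟨⟨a, fun hx => hx.2 b⟩, a, c⟩
    · rintro ⟨⟨a, b⟩, _, c⟩
      exact ⟨a, by_contra fun hx => b ⟨a, hx⟩, c⟩
  rw [h5]
  exact (hO.measurableSet.diff h3.measurableSet).inter h4.measurableSet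

theorem ng_countable {S : Set ℝ} (hS : ∀ t ∈ S, ∀ᶠ s in 𝓝[≠] t, s ∉ S) : S.Countable := by
  have h1 : DiscreteTopology S := by
    rw [discreteTopology_subtype_iff]
    intro x hx
    rw [Filter.inf_principal_eq_bot]
    exact hS x hx
  have h2 : Countable S := TopologicalSpace.separableSpace_iff_countable.1 inferInstance
  exact Set.countable_coe_iff.1 h2

theorem ng_slice (h : ℝ × ℝ → ℝ) (e : ℝ × ℝ) (c : ℝ → ℝ × ℝ) (hc : ∀ t, HasDerivAt c e t) :
    {t | c t ∈ ngA h e}.Countable := by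
  apply ng_countable
  rintro t ⟨h1, h2, h3⟩
  have h4 : HasFDerivAt h (fderiv ℝ h (c t)) (c t) :=
    (h1.differentiableAt (by simp)).hasFDerivAt
  have h5 : HasDerivAt (h ∘ c) (fderiv ℝ h (c t) e) t := h4.comp_hasDerivAt t (hc t)
  have h6 := h5.eventually_ne (c := 0) h3
  filter_upwards [h6] with s hs hs2
  exact hs hs2.2.1

theorem null_grad (h : ℝ × ℝ → ℝ) :
    volume {x : ℝ × ℝ | ContDiffAt ℝ 1 h x ∧ h x = 0 ∧ fderiv ℝ h x ≠ 0} = 0 := by
  have h1 : {x : ℝ × ℝ | ContDiffAt ℝ 1 h x ∧ h x = 0 ∧ fderiv ℝ h x ≠ 0} ⊆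
      ngA h (1, 0) ∪ ngA h (0, 1) := by
    rintro x ⟨a, b, c⟩
    by_contra hx
    apply c
    have h2 : fderiv ℝ h x (1, 0) = 0 := by
      by_contra h3
      exact hx (Or.inl ⟨a, b, h3⟩)
    have h3 : fderiv ℝ h x (0, 1) = 0 := by
      by_contra h3
      exact hx (Or.inr ⟨a, b, h3⟩)
    ext
    · simpa using h2
    · simpa using h3
  refine measure_mono_null h1 (measure_union_null ?_ ?_)
  · have h2 := (Measure.measurePreserving_swap (μ := (volume : Measure ℝ))
      (ν := (volume : Measure ℝ))).measure_preimage (ng_meas h (1, 0)).nullMeasurableSet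
    rw [Measure.volume_eq_prod, ← h2,
      Measure.measure_prod_null (measurable_swap (ng_meas h (1, 0)))]
    refine Filter.Eventually.of_forall fun y => ?_
    refine Set.Countable.measure_zero ?_ _
    exact ng_slice h (1, 0) (fun t => (t, y)) (fun t => (hasDerivAt_id t).prodMk
      (hasDerivAt_const t y))
  · rw [Measure.volume_eq_prod, Measure.measure_prod_null (ng_meas h (0, 1))]
    refine Filter.Eventually.of_forall fun y => ?_
    refine Set.Countable.measure_zero ?_ _
    exact ng_slice h (0, 1) (fun t => (y, t)) (fun t => (hasDerivAt_const t y).prodMk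
      (hasDerivAt_id t))

end Pool.Agent.H6.Sm
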