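import Pool.Agent.H6.Sm.Defs

/-!
JOB SM-4. The branches of the intersection with an arc are smooth (implicit function theorem).

`G (y, σ) = ((γ σ - P y) * conj (V y)).im`, `Φ (y, σ) = (y, G (y, σ)) : (ℝ × ℝ) × ℝ → (ℝ × ℝ) × ℝ` is smooth at `(x, s)`, its derivative there is `(dy, dσ) ↦ (dy, A dy + B dσ)` with `B = (deriv γ s * conj (V x)).im ≠ 0`,
a continuous linear equivalence (build it as `ContinuousLinearEquiv`, e.g. `.equivOfInverse` or from a `LinearEquiv` in finite dimension). Let `L = toOpenPartialHomeomorph` (`ContDiffAt.toOpenPartialHomeomorph`) and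
`g y = (localInverse (y, 0)).2`; `g` is smooth at `x` (`ContDiffAt.to_localInverse`), `g x = s`, and there are `ε > 0` and a neighbourhood `N` of `x` such that for `y ∈ N` the only `σ ∈ (s - ε, s + ε)` with `G (y, σ) = 0` is `g y`.
Take `I = (p, q)` rational with `s - ε < p < s < q < s + ε`. For `y` near `x`: `g y ∈ (p, q)`, so the `choose` of `sel` satisfies the equation, so it is `g y`. So `sel γ I P V =ᶠ[𝓝 x] g`.
-/

set_option autoImplicit false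

namespace Pool.Agent.H6.Sm

open Filter MeasureTheory Topology ComplexConjugate

theorem sel_spec {γ : ℝ → ℂ} (hγ : ContDiff ℝ ((⊤ : ℕ∞) : WithTop ℕ∞) γ) {P V : ℝ × ℝ → ℂ}
    {x : ℝ × ℝ} (hP : Smo P x) (hV : Smo V x) {s : ℝ} (h0 : ((γ s - P x) * conj (V x)).im = 0)
    (h1 : (deriv γ s * conj (V x)).im ≠ 0) :
    ∃ I : ℚ × ℚ, sel γ I P V x = s ∧ Smo (sel γ I P V) x ∧
      ∀ᶠ y in 𝓝 x, ((γ (sel γ I P V y) - P y) * conj (V y)).im = 0 := by
  let G : (ℝ × ℝ) × ℝ → ℝ := fun v => ((γ v.2 - P v.1) * conj (V v.1)).im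
  have hn : ((⊤ : ℕ∞) : WithTop ℕ∞) ≠ 0 := by simp
  have cdG : ContDiffAt ℝ ((⊤ : ℕ∞) : WithTop ℕ∞) G (x, s) := by
    have a1 : ContDiffAt ℝ ((⊤ : ℕ∞) : WithTop ℕ∞) (fun v : (ℝ × ℝ) × ℝ => γ v.2) (x, s) :=
      (hγ.comp contDiff_snd).contDiffAt
    have a2 : ContDiffAt ℝ ((⊤ : ℕ∞) : WithTop ℕ∞) (fun v : (ℝ × ℝ) × ℝ => P v.1) (x, s) :=
      ContDiffAt.comp (x, s) (hP : ContDiffAt ℝ ((⊤ : ℕ∞) : WithTop ℕ∞) P x) contDiffAt_fst
    have a3 : ContDiffAt ℝ ((⊤ : ℕ∞) : WithTop ℕ∞) (fun v : (ℝ × ℝ) × ℝ => V v.1) (x, s) :=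
      ContDiffAt.comp (x, s) (hV : ContDiffAt ℝ ((⊤ : ℕ∞) : WithTop ℕ∞) V x) contDiffAt_fst
    have a4 : ContDiffAt ℝ ((⊤ : ℕ∞) : WithTop ℕ∞) (fun v : (ℝ × ℝ) × ℝ => conj (V v.1)) (x, s) :=
      Complex.conjCLE.contDiff.contDiffAt.comp (x, s) a3
    exact Complex.imCLM.contDiff.contDiffAt.comp (x, s) ((a1.sub a2).mul a4)
  have hG0 : G (x, s) = 0 := h0
  have hder : (fderiv ℝ G (x, s) ∘L .inr ℝ (ℝ × ℝ) ℝ) 1 = (deriv γ s * conj (V x)).im := by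
    have b1 : HasFDerivAt G (fderiv ℝ G (x, s)) (x, s) := (cdG.differentiableAt hn).hasFDerivAt
    have b2 : HasFDerivAt (fun σ : ℝ => (x, σ)) (ContinuousLinearMap.inr ℝ (ℝ × ℝ) ℝ) s :=
      hasFDerivAt_prodMk_right x s
    have b3 : HasFDerivAt (fun σ : ℝ => G (x, σ))
        (fderiv ℝ G (x, s) ∘L ContinuousLinearMap.inr ℝ (ℝ × ℝ) ℝ) s := b1.comp s b2
    have b4 := b3.hasDerivAt
    have c1 : HasDerivAt γ (deriv γ s) s :=
      ((hγ.differentiable hn) s).hasDerivAt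
    have c2 : HasDerivAt (fun σ : ℝ => (γ σ - P x) * conj (V x)) (deriv γ s * conj (V x)) s :=
      (c1.sub_const (P x)).mul_const _
    have c3 : HasDerivAt (fun σ : ℝ => ((γ σ - P x) * conj (V x)).im)
        ((deriv γ s * conj (V x)).im) s := by
      have := Complex.imCLM.hasFDerivAt.comp_hasDerivAt s c2
      exact this
    exact b4.unique c3
  have hinv : (fderiv ℝ G (x, s) ∘L .inr ℝ (ℝ × ℝ) ℝ).IsInvertible := by
    refine ⟨ContinuousLinearEquiv.unitsEquivAut ℝ (Units.mk0 _ h1), ?_⟩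
    ext
    rw [hder]
    simp
  let ψ : ℝ × ℝ → ℝ := cdG.implicitFunction hn hinv
  have hψx : ψ x = s := cdG.implicitFunction_apply_self hn hinv
  have hψs : ContDiffAt ℝ ((⊤ : ℕ∞) : WithTop ℕ∞) ψ x := cdG.contDiffAt_implicitFunction hn hinv
  have hiff : ∀ᶠ v in 𝓝 ((x, s) : (ℝ × ℝ) × ℝ), G v = 0 ↔ ψ v.1 = v.2 := by
    have := cdG.eventually_apply_eq_iff_implicitFunction hn hinv
    rw [hG0] at this
    exact this
  rw [nhds_prod_eq, Filter.eventually_prod_iff] at hiff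
  obtain ⟨pa, hpa, pb, hpb, hab⟩ := hiff
  obtain ⟨ε, hε, hball⟩ := Metric.eventually_nhds_iff.mp hpb
  obtain ⟨p, hp1, hp2⟩ := exists_rat_btwn (show s - ε < s by linarith)
  obtain ⟨q, hq1, hq2⟩ := exists_rat_btwn (show s < s + ε by linarith)
  have hpbI : ∀ σ ∈ Set.Ioo (p : ℝ) (q : ℝ), pb σ := by
    intro σ hσ
    apply hball
    rw [Real.dist_eq, abs_lt]
    constructor
    · linarith [hσ.1]
    · linarith [hσ.2]
  have hψI : ∀ᶠ y in 𝓝 x, ψ y ∈ Set.Ioo (p : ℝ) (q : ℝ) := by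
    apply hψs.continuousAt.eventually_mem
    rw [hψx]
    exact Ioo_mem_nhds hp2 hq1
  have hsel : ∀ᶠ y in 𝓝 x, sel γ (p, q) P V y = ψ y := by
    filter_upwards [hpa, hψI] with y hy1 hy2
    have hex : ∃ σ : ℝ, σ ∈ Set.Ioo (p : ℝ) (q : ℝ) ∧ ((γ σ - P y) * conj (V y)).im = 0 := by
      refine ⟨ψ y, hy2, ?_⟩
      exact (hab hy1 (hpbI _ hy2)).mpr rfl
    have hsel' : sel γ (p, q) P V y = hex.choose := by
      unfold sel
      exact dif_pos hex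
    rw [hsel']
    have hch := hex.choose_spec
    exact ((hab hy1 (hpbI _ hch.1)).mp hch.2).symm
  refine ⟨(p, q), ?_, ?_, ?_⟩
  · rw [hsel.self_of_nhds, hψx]
  · exact Smo.congr (𝕜 := ℝ) hψs hsel
  · filter_upwards [hsel, hpa, hψI] with y hy0 hy1 hy2
    rw [hy0]
    exact (hab hy1 (hpbI _ hy2)).mpr rfl

end Pool.Agent.H6.Sm
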